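import Pool.Agent.H57.PC.Def
import Pool.Agent.H77.AB.LDat

/-!
# H77-PC3-CDEF: definitions for the parametrisation (MP_b39724_nt, Sylow subgroups of class at most 3)

* `CL p N G`: representatives `g i` of different conjugacy classes of elements of order `p`.
* `TyC c L φ i v`: the prime `v` is of type `i` for `φ : Γ → G`.
* `GQ p m l w N G P H R`: a finite group `G` with surjective projections `pr : G → P` and `ph : G → H`, together injective, `H` without elements of order
  `p`; the class data `cl` of `G` and `Dg` of `P` correspond.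
* `FPf L Dg b E ε f`: the homomorphisms `φ : Γ → P` with `q ∘ φ ∈ RH`, of type `i` at `v ∈ f i`.
-/

set_option autoImplicit false

open scoped NumberField
open IsDedekindDomain
open scoped Classical

noncomputable section

namespace H77.PC3

open H63.MA H38.BB H38.BG H57.PC

/-- representatives of conjugacy classes of elements of order `p` -/
structure CL (p N : ℕ) (G : Type) [Group G] where
  g : Fin N → G
  pow : ∀ i, g i ^ p = 1
  ne : ∀ i, g i ≠ 1
  uni : ∀ i j, IsConj (g i) (g j) → i = j

variable {K : Type} [Field K] [NumberField K] {p : ℕ} {ζ : K} {D : RD0 K p ζ} {Ω : Type}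
  [Field Ω] [Algebra K Ω] {m l w N : ℕ}

/-- `v` is of type `i` for `φ` -/
def TyC {G : Type} [Group G] (c : CL p N G) (L : LDs D Ω) (φ : Gal(Ω/K) →* G) (i : Fin N)
    (v : Pl K) : Prop :=
  D.Gd v ∧ IsConj (φ (L.t v)) (c.g i) ∧ ∀ τ ∈ inr L v, φ τ ^ p = 1

/-- a group with its projections -/
structure GQ (p m l w N : ℕ) (G P H R : Type) [Group G] [Group P] [Group H] [Group R] where
  Dg : GP p m l w N P R
  pr : G →* P
  prs : Function.Surjective pr
  ph : G →* H
  phs : Function.Surjective ph
  inj : ∀ x y, pr x = pr y → ph x = ph y → x = y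
  hH : ∀ h : H, h ^ p = 1 → h = 1
  cl : CL p N G
  hcl : ∀ i, pr (cl.g i) = Dg.g i

end H77.PC3
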