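import Pool.Agent.H77.AB.LDat
import Pool.Agent.H77.PC3.CDef
import Pool.Agent.H63.BU.UInr
import Pool.Agent.H63.BU.UCnt

/-!
# H77-PC3-CLD: ramified primes and types (adaptation of NLd in H77/GN to `CL`)
-/

set_option autoImplicit false

open scoped NumberField
open IsDedekindDomain
open scoped Classical

noncomputable section

namespace H77.PC3

open H63.MA H38.BB H38.BG H63.BU H77.AB

variable {K : Type} [Field K] [NumberField K] {Ω : Type} [Field Ω] [Algebra K Ω] [IsAlgClosure K Ω]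
  {p : ℕ} {ζ : K} {N₀ : ℕ}

theorem clead (hp : p.Prime) (hζ : IsPrimitiveRoot ζ p) {D : RD0 K p ζ} (L : LDs D Ω)
    {G : Type} [Group G] [Finite G] (Dg : CL p N₀ G)
    (hS : ∀ v : Pl K, ((Nat.card G : ℕ) : 𝓞 K) ∈ v.asIdeal → v ∈ D.S0) (a : ℕ)
    (ix : Subgroup G → ℕ) (h1 : ∀ H, H ≠ ⊥ → a ≤ ix H)
    (h2 : ∀ g : G, g ≠ 1 → ix (Subgroup.zpowers g) ≤ a → ∃ i, IsConj g (Dg.g i))
    (φ : Gal(Ω/K) →* G) (hφ : H38.ML.FT φ) (v : Pl K) (hv : Rm L φ v) :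
    (∃ i, TyC Dg L φ i v) ∨ co a v ≤ ix ((inr L v).map φ) := by
  obtain ⟨hvS, τ₀, hτ₀, hne⟩ := hv
  have hJ : (inr L v).map φ ≠ ⊥ := by
    intro h
    have h3 : φ τ₀ ∈ (inr L v).map φ := Subgroup.mem_map_of_mem φ hτ₀
    rw [h] at h3
    exact hne (Subgroup.mem_bot.1 h3)
  by_cases hpr : (nm v).Prime
  · by_cases hix : ix ((inr L v).map φ) ≤ a
    · left
      obtain ⟨τ, hτ, hg⟩ := uinr_gen L (Nat.card G) hS rfl φ hφ v
      have hτ1 : φ τ ≠ 1 := by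
        intro h
        apply hJ
        rw [hg, h]
        exact Subgroup.zpowers_one_eq_bot
      obtain ⟨i, hi⟩ := h2 (φ τ) hτ1 (by rw [← hg]; exact hix)
      have hp1 : φ τ ^ p = 1 := by
        have h4 : IsConj ((φ τ) ^ p) ((Dg.g i) ^ p) := hi.pow p
        have h5 : Dg.g i ^ p = 1 := Dg.pow i
        rw [h5] at h4
        exact isConj_one_left.1 h4
      have hpow : ∀ σ ∈ inr L v, φ σ ^ p = 1 := by
        intro σ hσ
        have h3 : φ σ ∈ (inr L v).map φ := Subgroup.mem_map_of_mem φ hσ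
        rw [hg] at h3
        obtain ⟨k, hk⟩ := Subgroup.mem_zpowers_iff.1 h3
        rw [← hk, ← zpow_natCast, ← zpow_mul, mul_comm, zpow_mul, zpow_natCast, hp1, one_zpow]
      have hJt : (inr L v).map φ = Subgroup.zpowers (φ (L.t v)) := by
        apply le_antisymm
        · rintro x ⟨σ, hσ, rfl⟩
          rw [tm_z hp hζ L φ hφ v hvS hpow σ hσ]
          exact Subgroup.pow_mem _ (Subgroup.mem_zpowers _) _
        · rw [Subgroup.zpowers_le]
          exact Subgroup.mem_map_of_mem φ (uinr_t L v)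
      have ht1 : φ (L.t v) ≠ 1 := by
        intro h
        apply hJ
        rw [hJt, h]
        exact Subgroup.zpowers_one_eq_bot
      obtain ⟨i', hi'⟩ := h2 (φ (L.t v)) ht1 (by rw [← hJt]; exact hix)
      exact ⟨i', ⟨hvS, hpr⟩, hi', hpow⟩
    · right
      unfold co
      rw [if_pos hpr]
      omega
  · right
    unfold co
    rw [if_neg hpr]
    exact h1 _ hJ

omit [IsAlgClosure K Ω] in
private theorem clead_ne {D : RD0 K p ζ} (L : LDs D Ω) {G : Type} [Group G] (Dg : CL p N₀ G)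
    (φ : Gal(Ω/K) →* G) (i : Fin N₀) (v : Pl K) (hv : TyC Dg L φ i v) : φ (L.t v) ≠ 1 := by
  intro h
  have h1 := hv.2.1
  rw [h] at h1
  exact Dg.ne i (isConj_one_right.1 h1)

omit [IsAlgClosure K Ω] in
theorem clead_ty {D : RD0 K p ζ} (L : LDs D Ω) {G : Type} [Group G] (Dg : CL p N₀ G)
    (φ : Gal(Ω/K) →* G) (i : Fin N₀) (v : Pl K) (hv : TyC Dg L φ i v) :
    Rm L φ v ∧ (inr L v).map φ ≠ ⊥ := by
  have hne := clead_ne L Dg φ i v hv
  refine ⟨⟨hv.1.1, L.t v, uinr_t L v, hne⟩, fun h => ?_⟩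
  have h3 : φ (L.t v) ∈ (inr L v).map φ := Subgroup.mem_map_of_mem φ (uinr_t L v)
  rw [h] at h3
  exact hne (Subgroup.mem_bot.1 h3)

omit [IsAlgClosure K Ω] in
theorem clead_uni {D : RD0 K p ζ} (L : LDs D Ω) {G : Type} [Group G] (Dg : CL p N₀ G)
    (φ : Gal(Ω/K) →* G) (i j : Fin N₀) (v : Pl K) (hi : TyC Dg L φ i v) (hj : TyC Dg L φ j v) :
    i = j :=
  Dg.uni i j (hi.2.1.symm.trans hj.2.1)


theorem ccnt_nr (hp : p.Prime) (hζ : IsPrimitiveRoot ζ p) (D : RD0 K p ζ) (L : LDs D Ω)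
    {G : Type} [Group G] [Finite G] (Dg : CL p N₀ G)
    (hS : ∀ v : Pl K, ((Nat.card G : ℕ) : 𝓞 K) ∈ v.asIdeal → v ∈ D.S0) (a : ℕ) (ha : 0 < a)
    (ix : Subgroup G → ℕ) (h1 : ∀ H, H ≠ ⊥ → a ≤ ix H)
    (h2 : ∀ g : G, g ≠ 1 → ix (Subgroup.zpowers g) ≤ a → ∃ i, IsConj g (Dg.g i))
    (φ : Gal(Ω/K) →* G) (hφ : H38.ML.FT φ) (B : ℝ)
    (hB : ∀ T : Finset (Pl K), (∀ v ∈ T, v ∉ D.S0) →
      ∏ v ∈ T, (nm v : ℝ) ^ ix ((inr L v).map φ) ≤ B)
    (f : Fin N₀ → Finset (Pl K)) (E : Finset (Pl K)) (hf : ∀ i v, v ∈ f i ↔ TyC Dg L φ i v)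
    (hE : ∀ v, v ∈ E ↔ Rm L φ v ∧ ∀ i, ¬ TyC Dg L φ i v) :
    ∏ i, nr (f i) ≤ UY B a E ∧ Dj f ∧ (∀ i, Disjoint (f i) E) ∧ 1 ≤ UY B a E ∧ nr E ≤ B ∧
      ∀ i, f i ∈ GF D (UY B a E) := by
  have h0 : ∀ v : Pl K, (1 : ℝ) ≤ (nm v : ℝ) := fun v => by
    exact_mod_cast (one_lt_nm v).le
  have haR : (0 : ℝ) < (a : ℝ) := by exact_mod_cast ha
  have hco : ∀ v : Pl K, a ≤ co a v := by
    intro v
    unfold co
    split_ifs
    · exact Nat.le_succ a
    · exact le_rfl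
  have hdj : Dj f := by
    intro i j hij
    rw [Finset.disjoint_left]
    intro v hv hv'
    exact hij (clead_uni L Dg φ i j v ((hf i v).1 hv) ((hf j v).1 hv'))
  have hdE : ∀ i, Disjoint (f i) E := by
    intro i
    rw [Finset.disjoint_left]
    intro v hv hv'
    exact ((hE v).1 hv').2 i ((hf i v).1 hv)
  have hEi : Disjoint E (Finset.univ.biUnion f) := by
    rw [Finset.disjoint_biUnion_right]
    exact fun i _ => (hdE i).symm
  have hT : ∀ v ∈ E ∪ Finset.univ.biUnion f, v ∉ D.S0 := by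
    intro v hv
    rcases Finset.mem_union.1 hv with h | h
    · exact ((hE v).1 h).1.1
    · obtain ⟨i, -, hi⟩ := Finset.mem_biUnion.1 h
      exact ((hf i v).1 hi).1.1
  have hprod := hB _ hT
  rw [Finset.prod_union hEi, Finset.prod_biUnion (fun i _ j _ hij => hdj i j hij)] at hprod
  have hQ1 : ∏ v ∈ E, (nm v : ℝ) ^ co a v ≤ ∏ v ∈ E, (nm v : ℝ) ^ ix ((inr L v).map φ) := by
    refine Finset.prod_le_prod (fun v _ => by have := h0 v; positivity) fun v hv => ?_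
    have hv' := (hE v).1 hv
    rcases clead hp hζ L Dg hS a ix h1 h2 φ hφ v hv'.1 with ⟨i, hi⟩ | h
    · exact absurd hi (hv'.2 i)
    · exact pow_le_pow_right₀ (h0 v) h
  have hP1 : (∏ i, nr (f i)) ^ a ≤ ∏ i, ∏ v ∈ f i, (nm v : ℝ) ^ ix ((inr L v).map φ) := by
    rw [← Finset.prod_pow]
    refine Finset.prod_le_prod (fun i _ => pow_nonneg (by linarith [one_le_nr (f i)]) _)
      fun i _ => ?_
    unfold nr
    rw [← Finset.prod_pow]
    refine Finset.prod_le_prod (fun v _ => by have := h0 v; positivity) fun v hv => ?_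
    exact pow_le_pow_right₀ (h0 v) (h1 _ (clead_ty L Dg φ i v ((hf i v).1 hv)).2)
  obtain ⟨Q, hQ⟩ : ∃ Q : ℝ, Q = ∏ v ∈ E, (nm v : ℝ) ^ co a v := ⟨_, rfl⟩
  obtain ⟨P, hP⟩ : ∃ P : ℝ, P = ∏ i, nr (f i) := ⟨_, rfl⟩
  have hPone : 1 ≤ P := by
    rw [hP]
    exact atupa_prod_one f Finset.univ
  have hnrQ : nr E ≤ Q := by
    rw [hQ]
    unfold nr
    refine Finset.prod_le_prod (fun v _ => by have := h0 v; positivity) fun v _ => ?_
    calc (nm v : ℝ) = (nm v : ℝ) ^ 1 := (pow_one _).symm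
      _ ≤ _ := pow_le_pow_right₀ (h0 v) (by have := hco v; omega)
  have hQone : 1 ≤ Q := (one_le_nr E).trans hnrQ
  have hQP : Q * P ^ a ≤ B := by
    refine le_trans ?_ hprod
    rw [hQ, hP]
    refine mul_le_mul hQ1 hP1 (by rw [← hP]; positivity) ?_
    exact Finset.prod_nonneg fun v _ => by have := h0 v; positivity
  have hPa : 1 ≤ P ^ a := one_le_pow₀ hPone
  have hQB : Q ≤ B := by nlinarith
  have hB0 : 0 < B := by linarith
  have hUY : UY B a E = (B / Q) ^ (1 / (a : ℝ)) := by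
    rw [hQ]
    exact ucnt_UY B hB0.le a ha E
  have hPU : P ≤ UY B a E := by
    rw [hUY]
    have h3 : P ^ a ≤ B / Q := by
      rw [le_div_iff₀ (by linarith)]
      linarith
    have h4 : P = (P ^ a) ^ (1 / (a : ℝ)) := by
      rw [one_div, Real.pow_rpow_inv_natCast (by linarith) ha.ne']
    rw [h4]
    exact Real.rpow_le_rpow (by positivity) h3 (by positivity)
  refine ⟨?_, hdj, hdE, hPone.trans hPU, hnrQ.trans hQB, fun i => ?_⟩
  · rw [← hP]
    exact hPU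
  · rw [atupa_mem_GF]
    refine ⟨?_, fun v hv => ((hf i v).1 hv).1⟩
    refine le_trans (atupa_le_prod f i) ?_
    rw [← hP]
    exact hPU

/-- the two finite sets of primes attached to a homomorphism -/
theorem csets {D : RD0 K p ζ} (L : LDs D Ω)  {G : Type} [Group G]
    (Dg : CL p N₀ G) (φ : Gal(Ω/K) →* G) (hφ : H38.ML.FT φ) :
    ∃ (f : Fin N₀ → Finset (Pl K)) (E : Finset (Pl K)), (∀ i v, v ∈ f i ↔ TyC Dg L φ i v) ∧
      ∀ v, v ∈ E ↔ Rm L φ v ∧ ∀ i, ¬ TyC Dg L φ i v := by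
  have hfin := uinr_fin L φ hφ
  have h1 : ∀ i, {v : Pl K | TyC Dg L φ i v}.Finite := fun i =>
    hfin.subset fun v hv => (clead_ty L Dg φ i v hv).1
  have h2 : {v : Pl K | Rm L φ v ∧ ∀ i, ¬ TyC Dg L φ i v}.Finite :=
    hfin.subset fun v hv => hv.1
  refine ⟨fun i => (h1 i).toFinset, h2.toFinset, fun i v => ?_, fun v => ?_⟩
  · rw [Set.Finite.mem_toFinset]
    rfl
  · rw [Set.Finite.mem_toFinset]
    rfl

end H77.PC3
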