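import Pool.Agent.H77.PC3.CMa
import Pool.Agent.H38.BG.AFl

/-!
# H77-PC3-CLO: lower bounds, from the homomorphisms to `P` to the fields

* `LBd L g`: for `X ≥ X₀` at least `C X (log X)^{N-1}` surjective homomorphisms `Γ → P`, ramified outside `S0` only at the primes of a set `T` with
  `∏ nm v ≤ X`, where the inertia group has its image in the subgroup generated by a conjugate of some `g i`.
* `pair_surj`: a homomorphism to `P × H` with surjective components is surjective if the orders of `P` and `H` are coprime.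
* `clo`: from `P` to `G`. `cfl`: from the homomorphisms to the fields. `cml`: the lower bound for the fields from `LBdAll`.
-/

set_option autoImplicit false

open scoped NumberField
open IsDedekindDomain H38.ML

noncomputable section

namespace H77.PC3

open H63.MA H38.BB H38.BG H77.AB H57.PC H57.BRA H77.GN H77.UX

/-- many surjective homomorphisms with inertia in the given classes -/
def LBd {K : Type} [Field K] [NumberField K] {p : ℕ} {ζ : K} {D : RD0 K p ζ} {Ω : Type}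
    [Field Ω] [Algebra K Ω] (L : LDs D Ω) {N : ℕ} {P : Type} [Group P] (g : Fin N → P) : Prop :=
  ∃ C X₀ : ℝ, 0 < C ∧ 3 ≤ X₀ ∧ ∀ X : ℝ, X₀ ≤ X → ∃ Rs : Finset (Gal(Ω/K) →* P),
    C * X * Real.log X ^ (N - 1) ≤ (Rs.card : ℝ) ∧
    ∀ φ ∈ Rs, FT φ ∧ Function.Surjective φ ∧ ∃ T : Finset (Pl K),
      (∀ v ∈ T, v ∉ D.S0) ∧ ∏ v ∈ T, (nm v : ℝ) ≤ X ∧
      (∀ v ∈ T, ∃ (i : Fin N) (h : P), IsConj h (g i) ∧
        ∀ τ ∈ inr L v, φ τ ∈ Subgroup.zpowers h) ∧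
      ∀ v, v ∉ D.S0 → v ∉ T → ∀ τ ∈ inr L v, φ τ = 1

theorem pair_surj {Γ P H : Type} [Group Γ] [Group P] [Group H] [Finite P] [Finite H]
    (hco : Nat.Coprime (Nat.card P) (Nat.card H)) (ψ : Γ →* P) (χ : Γ →* H)
    (hψ : Function.Surjective ψ) (hχ : Function.Surjective χ) :
    Function.Surjective (ψ.prod χ) := by
  have h1 : ∀ x : P, ∃ γ, ψ γ = x ∧ χ γ = 1 := by
    intro x
    obtain ⟨γ, hγ⟩ := hψ x
    obtain ⟨e, he1, he2⟩ := Nat.chineseRemainder hco 1 0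
    refine ⟨γ ^ e, ?_, ?_⟩
    · rw [map_pow, hγ]
      have h2 : x ^ e = x ^ 1 := pow_eq_pow_iff_modEq.2 (he1.of_dvd (orderOf_dvd_natCard x))
      rw [h2, pow_one]
    · rw [map_pow]
      have h2 : χ γ ^ e = χ γ ^ 0 :=
        pow_eq_pow_iff_modEq.2 (he2.of_dvd (orderOf_dvd_natCard (χ γ)))
      rw [h2, pow_zero]
  have h2 : ∀ y : H, ∃ γ, ψ γ = 1 ∧ χ γ = y := by
    intro y
    obtain ⟨γ, hγ⟩ := hχ y
    obtain ⟨e, he1, he2⟩ := Nat.chineseRemainder hco 0 1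
    refine ⟨γ ^ e, ?_, ?_⟩
    · rw [map_pow]
      have h3 : ψ γ ^ e = ψ γ ^ 0 :=
        pow_eq_pow_iff_modEq.2 (he1.of_dvd (orderOf_dvd_natCard (ψ γ)))
      rw [h3, pow_zero]
    · rw [map_pow, hγ]
      have h3 : y ^ e = y ^ 1 := pow_eq_pow_iff_modEq.2 (he2.of_dvd (orderOf_dvd_natCard y))
      rw [h3, pow_one]
  rintro ⟨x, y⟩
  obtain ⟨γ, hγ, hγ'⟩ := h1 x
  obtain ⟨δ, hδ, hδ'⟩ := h2 y
  refine ⟨γ * δ, ?_⟩
  rw [MonoidHom.prod_apply, map_mul, map_mul, hγ, hδ, hγ', hδ', mul_one, one_mul]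

theorem ft_prod {K Ω : Type} [Field K] [Field Ω] [Algebra K Ω] {P H : Type} [Group P] [Group H]
    (ψ : Gal(Ω/K) →* P) (χ : Gal(Ω/K) →* H) (h0 : FT ψ) (h1 : FT χ) : FT (ψ.prod χ) := by
  obtain ⟨E, hE, hle⟩ := h0
  obtain ⟨E', hE', hle'⟩ := h1
  refine ⟨E ⊔ E', inferInstance, fun σ hσ => ?_⟩
  have h1 : σ ∈ E.fixingSubgroup := IntermediateField.fixingSubgroup_antitone le_sup_left hσ
  have h2 : σ ∈ E'.fixingSubgroup := IntermediateField.fixingSubgroup_antitone le_sup_right hσ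
  have h3 := hle h1
  have h4 := hle' h2
  rw [MonoidHom.mem_ker] at h3 h4 ⊢
  rw [MonoidHom.prod_apply, h3, h4]
  rfl

theorem clo {K : Type} [Field K] [NumberField K] {p : ℕ} {ζ : K} {D : RD0 K p ζ} {Ω : Type}
    [Field Ω] [Algebra K Ω] [IsAlgClosure K Ω] (L : LDs D Ω) {m l w N : ℕ} {G P H R : Type}
    [Group G] [Finite G] [Group P] [Group H] [Group R] (Q : GQ p m l w N G P H R)
    (hco : Nat.Coprime (Nat.card P) (Nat.card H)) (χ : Gal(Ω/K) →* H) (hχ : FT χ)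
    (hχs : Function.Surjective χ) (hχu : ∀ v, v ∉ D.S0 → ∀ τ ∈ inr L v, χ τ = 1)
    (h : LBd L Q.Dg.g) : LBd L Q.cl.g := by
  classical
  have hPf : Finite P := Finite.of_surjective _ Q.prs
  have hHf : Finite H := Finite.of_surjective _ Q.phs
  have hbij : Function.Bijective (Q.pr.prod Q.ph) := by
    refine ⟨fun x y hxy => ?_, pair_surj hco _ _ Q.prs Q.phs⟩
    rw [MonoidHom.prod_apply, MonoidHom.prod_apply, Prod.mk.injEq] at hxy
    exact Q.inj x y hxy.1 hxy.2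
  obtain ⟨e, he⟩ : ∃ e : G ≃* P × H, ∀ x, e x = (Q.pr x, Q.ph x) :=
    ⟨MulEquiv.ofBijective (Q.pr.prod Q.ph) hbij, fun x => rfl⟩
  have hg : ∀ i, e.symm (Q.Dg.g i, 1) = Q.cl.g i := by
    intro i
    rw [MulEquiv.symm_apply_eq, he, Q.hcl, Q.hH (Q.ph (Q.cl.g i)) (by
      rw [← map_pow, Q.cl.pow, map_one])]
  obtain ⟨C, X₀, hC, hX₀, hlow⟩ := h
  refine ⟨C, X₀, hC, hX₀, fun X hX => ?_⟩
  obtain ⟨Rs, hRs, hφ⟩ := hlow X hX
  obtain ⟨F, hF⟩ : ∃ F : (Gal(Ω/K) →* P) → (Gal(Ω/K) →* G), ∀ ψ σ, F ψ σ = e.symm (ψ σ, χ σ) :=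
    ⟨fun ψ => e.symm.toMonoidHom.comp (ψ.prod χ), fun ψ σ => rfl⟩
  have hinj : Function.Injective F := by
    intro ψ ψ' h
    apply MonoidHom.ext
    intro σ
    have h1 : F ψ σ = F ψ' σ := by rw [h]
    rw [hF, hF] at h1
    exact congrArg Prod.fst (e.symm.injective h1)
  refine ⟨Rs.image F, by rw [Finset.card_image_of_injective _ hinj]; exact hRs, ?_⟩
  intro φ hφ'
  obtain ⟨ψ, hψ, rfl⟩ := Finset.mem_image.1 hφ'
  obtain ⟨hft, hs, T, hT1, hT2, hT3, hT4⟩ := hφ ψ hψ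
  have hFe : F ψ = e.symm.toMonoidHom.comp (ψ.prod χ) := MonoidHom.ext fun σ => hF ψ σ
  refine ⟨?_, ?_, T, hT1, hT2, fun v hv => ?_, fun v hv hvT τ hτ => ?_⟩
  · rw [hFe]
    exact ft_comp _ _ (ft_prod ψ χ hft hχ)
  · rw [hFe]
    exact e.symm.surjective.comp (pair_surj hco ψ χ hs hχs)
  · obtain ⟨i, h, hh, hpow⟩ := hT3 v hv
    refine ⟨i, e.symm (h, 1), ?_, fun τ hτ => ?_⟩
    · rw [← hg i]
      obtain ⟨c, hc⟩ := isConj_iff.1 hh
      refine isConj_iff.2 ⟨e.symm (c, 1), ?_⟩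
      rw [← map_inv, ← map_mul, ← map_mul]
      congr 1
      rw [← hc]
      simp
    · obtain ⟨k, hk⟩ := Subgroup.mem_zpowers_iff.1 (hpow τ hτ)
      refine Subgroup.mem_zpowers_iff.2 ⟨k, ?_⟩
      rw [hF, hχu v (hT1 v hv) τ hτ, ← hk, ← map_zpow]
      congr 1
      simp
  · rw [hF, hT4 v hv hvT τ hτ, hχu v hv τ hτ]
    exact map_one e.symm

theorem cfl {n : ℕ} (hn : 2 ≤ n) (G : Subgroup (Equiv.Perm (Fin n)))
    (hG : MulAction.IsPretransitive G (Fin n)) (ha : 0 < indG G) {p : ℕ}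
    (K : IntermediateField ℚ QBar)
    [NumberField K] {ζ : K} (D : RD0 K p ζ) (L : LDs D QBar) {N : ℕ} (g : Fin N → G)
    (hI : ∀ (h : G) (i : Fin N), IsConj h (g i) → ind (h : Equiv.Perm (Fin n)) = indG G)
    (hlow : LBd L g) :
    ∃ c B₀ : ℝ, 0 < c ∧ ∀ B : ℝ, B₀ ≤ B →
      ((⌈c * B ^ (1 / (indG G : ℝ)) * Real.log B ^ (N - 1)⌉₊ : ℕ) : ℕ∞) ≤
        Spec.nK K QBar G B := by
  classical
  obtain ⟨a, haa⟩ : ∃ a : ℕ, a = indG G := ⟨_, rfl⟩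
  have ha0 : 0 < a := by rw [haa]; exact ha
  have ha0' : (0 : ℝ) < a := by exact_mod_cast ha0
  obtain ⟨C₂, hC₂, hdisc⟩ := dsm_up hn G hG K D L (⟨0, by omega⟩ : Fin n)
  obtain ⟨C, X₀, hC, hX₀, hlow⟩ := hlow
  obtain ⟨M, hM⟩ : ∃ M : ℕ, M = Nat.card G ^ Nat.card G := ⟨_, rfl⟩
  have hM0 : 0 < M := by
    rw [hM]
    exact pow_pos Nat.card_pos _
  have hM0' : (0 : ℝ) < M := by exact_mod_cast hM0
  have hCa : 0 < C₂ ^ (1 / (a : ℝ)) := Real.rpow_pos_of_pos hC₂ _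
  refine ⟨C / C₂ ^ (1 / (a : ℝ)) * (1 / (2 * (a : ℝ))) ^ (N - 1) / M,
    max 1 (max (C₂ * X₀ ^ a) (C₂ ^ 2)), by positivity, fun B hB => ?_⟩
  have hB1 : 1 ≤ B := (le_max_left _ _).trans hB
  have hB2 : C₂ * X₀ ^ a ≤ B := (le_max_left _ _).trans ((le_max_right _ _).trans hB)
  have hB3 : C₂ ^ 2 ≤ B := (le_max_right _ _).trans ((le_max_right _ _).trans hB)
  obtain ⟨X, hX1, hX2, hX3, hX4⟩ := gfinl_X a ha0 C₂ X₀ hC₂ (by linarith) B hB1 hB2 hB3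
  by_cases htop : Spec.nK K QBar G B = ⊤
  · rw [htop]; exact le_top
  obtain ⟨k, hk⟩ : ∃ k : ℕ, Spec.nK K QBar G B = (k : ℕ∞) := ⟨_, (ENat.natCast_toNat htop).symm⟩
  obtain ⟨Rs, hRs, hφ⟩ := hlow X hX1
  have h1 : ∀ ρ ∈ Rs, Function.Surjective ρ ∧ FT ρ ∧
      (relDisc K (fieldOf (⟨0, by omega⟩ : Fin n) ρ) : ℝ) ≤ B := by
    intro ρ hρ
    obtain ⟨hft, hsurj, T, hT1, hT2, hT3, hT4⟩ := hφ ρ hρ
    refine ⟨hsurj, hft, (hdisc ρ hsurj hft T hT1 ?_ hT4).trans ?_⟩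
    · intro v hv
      obtain ⟨i, h, hh, hpow⟩ := hT3 v hv
      exact ⟨h, hI h i hh, hpow⟩
    · rw [← haa, ← hX2]
      apply mul_le_mul_of_nonneg_left _ hC₂.le
      exact pow_le_pow_left₀ (Finset.prod_nonneg fun v _ => Nat.cast_nonneg _) hT2 a
  have h2 := many_classes G hG K (⟨0, by omega⟩ : Fin n) B Rs h1
  have h3 : ((Rs.card : ℕ) : ℕ∞) ≤ ((M * k : ℕ) : ℕ∞) := by
    refine h2.trans ?_
    rw [Nat.cast_mul, ← hM]
    have h4 := gfinl_spec hn G K B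
    rw [hk] at h4
    exact mul_le_mul_right h4 _
  have h5 : Rs.card ≤ M * k := by exact_mod_cast h3
  have h6 : (Rs.card : ℝ) ≤ M * k := by exact_mod_cast h5
  have h7 : C * X * Real.log X ^ (N - 1) ≤ M * k := hRs.trans h6
  have hlB : 0 ≤ Real.log B := Real.log_nonneg hB1
  have h8 : (1 / (2 * (a : ℝ)) * Real.log B) ^ (N - 1) ≤ Real.log X ^ (N - 1) :=
    pow_le_pow_left₀ (by positivity) hX4 _
  have hXp : 0 < X := by linarith
  have h9 : C * X * (1 / (2 * (a : ℝ)) * Real.log B) ^ (N - 1) ≤ M * k :=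
    (mul_le_mul_of_nonneg_left h8 (by positivity)).trans h7
  rw [← haa]
  have h10 : C / C₂ ^ (1 / (a : ℝ)) * (1 / (2 * (a : ℝ))) ^ (N - 1) / M * B ^ (1 / (a : ℝ)) *
      Real.log B ^ (N - 1) = C * X * (1 / (2 * (a : ℝ)) * Real.log B) ^ (N - 1) / M := by
    rw [hX3, mul_pow]
    field_simp
  have h11 : C / C₂ ^ (1 / (a : ℝ)) * (1 / (2 * (a : ℝ))) ^ (N - 1) / M * B ^ (1 / (a : ℝ)) *
      Real.log B ^ (N - 1) ≤ (k : ℝ) := by
    rw [h10, div_le_iff₀ hM0']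
    linarith
  rw [hk]
  exact_mod_cast Nat.ceil_le.2 h11

/-- the lower bounds for the homomorphisms to `P` -/
def LBdAll (p : ℕ) [NeZero p] : Prop :=
  ∀ (K : Type) [Field K] [NumberField K] (Ω : Type) [Field Ω] [Algebra K Ω] [IsAlgClosure K Ω]
    (ζ : K) (_ : IsPrimitiveRoot ζ p) (_ : MOne p K) (_ : Z2 p K) (D : RD K p ζ)
    (L : LDs D.toRD0 Ω) (_ : FR L) (m l w N : ℕ) (P R : Type) [Group P] [Finite P] [Group R]
    (Dg : GP p m l w N P R), 1 ≤ N → LBd L Dg.g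

theorem cml {n : ℕ} (hn : 2 ≤ n) (G : Subgroup (Equiv.Perm (Fin n)))
    (hG : MulAction.IsPretransitive G (Fin n)) (hnil : Group.IsNilpotent G) {p : ℕ} [NeZero p]
    (hp : p.Prime) (hLB : LBdAll p)
    (hI : ∀ h : G, h ≠ 1 → ind (h : Equiv.Perm (Fin n)) = indG G → h ^ p = 1)
    (S : Sylow p G)
    (hS : Subgroup.closure {h : G | h ≠ 1 ∧ ind (h : Equiv.Perm (Fin n)) = indG G} =
      (S : Subgroup G))
    (h4 : ⁅⁅⁅(S : Subgroup G), (S : Subgroup G)⁆, (S : Subgroup G)⁆, (S : Subgroup G)⁆ = ⊥) :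
    ∃ K₀ : IntermediateField ℚ QBar, NumberField K₀ ∧
      ∀ K : IntermediateField ℚ QBar, K₀ ≤ K → ∀ _ : NumberField K,
        ∃ c B₀ : ℝ, 0 < c ∧ ∀ B : ℝ, B₀ ≤ B →
          ((⌈c * B ^ (1 / (indG G : ℝ)) *
              Real.log B ^ (Spec.betaAll K QBar G - 1)⌉₊ : ℕ) : ℕ∞) ≤
            Spec.nK K QBar G B := by
  obtain ⟨ha, ⟨g₀, hg₀, hg₀'⟩, hmin, hcj, hJ⟩ := pidx_pos hn G hG
  obtain ⟨N, g, hgΛ, uni, hI'⟩ := ncl G {h : G | h ≠ 1 ∧ ind (h : Equiv.Perm (Fin n)) = indG G}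
    (fun h hh => hh.1) (by
      rintro h ⟨h1, h2⟩ k hk
      refine ⟨?_, ?_⟩
      · intro hk1
        rw [hk1] at hk
        exact h1 (isConj_one_left.1 hk)
      · obtain ⟨x, rfl⟩ := isConj_iff.1 hk
        exact hcj h x h1 h2)
  have hN : 1 ≤ N := by
    obtain ⟨i, -⟩ := (hI' g₀).1 ⟨hg₀, hg₀'⟩
    have := i.2
    omega
  have hcardpos : 0 < Nat.card G := Nat.card_pos
  have hpd : p ∣ Nat.card G := by
    have h2 := hI g₀ hg₀ hg₀'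
    have h3 : orderOf g₀ = p := orderOf_eq_prime h2 hg₀ (hp := ⟨hp⟩)
    rw [← h3]
    exact orderOf_dvd_natCard g₀
  have hSn := nil_normal hnil hp S
  have hfp : Fact p.Prime := ⟨hp⟩
  have hset : {h : G | h ≠ 1 ∧ ind (h : Equiv.Perm (Fin n)) = indG G} =
      {x | ∃ i, IsConj x (g i)} := by
    ext x
    exact hI' x
  obtain ⟨m, l, w, Q, hQ⟩ := exists_gq hp hnil hpd S g
    (fun i => hI _ (hgΛ i).1 (hgΛ i).2) (fun i => (hgΛ i).1) uni (by rw [← hset]; exact hS) h4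
  have hco : Nat.Coprime (Nat.card S) (Nat.card (G ⧸ (S : Subgroup G))) := by
    have h5 := S.not_dvd_index
    rw [Subgroup.index] at h5
    obtain ⟨k, hk⟩ := IsPGroup.iff_card.mp S.isPGroup'
    rw [hk]
    exact Nat.Coprime.pow_left k ((Nat.Prime.coprime_iff_not_dvd hp).2 h5)
  obtain ⟨K₀, hK₀, hK⟩ := akn2 G p
  refine ⟨K₀, hK₀, fun K hKK hKf => ?_⟩
  obtain ⟨⟨φ₀, hs, hφ₀⟩, ⟨z, hz⟩, ⟨i, hi⟩, hz2⟩ := hK K hKK hKf
  have hp2 : H63.MA.MOne p K := by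
    by_cases h2 : p = 2
    · exact ⟨i, by rw [h2]; exact hi⟩
    · exact H63.MA.mone_odd hp h2 K
  obtain ⟨r, hr⟩ := hpd
  have hζ : IsPrimitiveRoot (z ^ r) p := hz.pow hcardpos (by rw [hr]; ring)
  obtain ⟨D, hD, hun⟩ := ard (Ω := QBar) hp hp2 hζ φ₀ hφ₀ (Nat.card G) hcardpos
  obtain ⟨L⟩ := exists_LDs QBar hp hζ D.toRD0
  obtain ⟨Fr⟩ := exists_FR hp hζ L
  rw [lbet G K z hz g uni hI']
  refine cfl hn G hG ha K D.toRD0 L g
    (fun h i hi => by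
      have h1 : h ∈ {h : G | h ≠ 1 ∧ ind (h : Equiv.Perm (Fin n)) = indG G} := (hI' h).2 ⟨i, hi⟩
      exact h1.2) ?_
  have h6 := clo L Q hco (Q.ph.comp φ₀) (ft_comp _ _ hφ₀) (Q.phs.comp hs)
    (fun v hv τ hτ => by
      rw [MonoidHom.comp_apply, hun L v hv τ hτ, map_one])
    (hLB K QBar (z ^ r) hζ hp2 hz2 D L Fr m l w N S (S ⧸ G3 S) Q.Dg hN)
  rw [hQ] at h6
  exact h6

end H77.PC3
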