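import Pool.Agent.H77.PC3.CDef

/-!
# H77-PC3-CFR: Frobenius elements at the primes outside `S0` (the proof of `tfrob` in H38/BG/TFrob, uniformly in the homomorphism)
-/

set_option autoImplicit false

open scoped NumberField Pointwise
open IsDedekindDomain
open scoped Classical

noncomputable section

namespace H77.PC3

open H63.MA H38.BB H38.BG H57.PC

variable {K : Type} [Field K] [NumberField K] {Ω : Type} [Field Ω] [Algebra K Ω] [IsAlgClosure K Ω]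
  {p : ℕ} {ζ : K}

theorem frob_uni (hp : p.Prime) (hζ : IsPrimitiveRoot ζ p) {v : Pl K} (hv : ¬ Above p v) {π : Kˣ}
    (hπ : ord v π = 1) (L : LD p ζ Ω v π) :
    ∃ F : Gal(Ω/K), (∀ x : 𝓞 Ω, F • x - x ^ nm v ∈ L.P) ∧
      (∀ a : Kˣ, kk p ζ a F = lgv p ζ v π a) ∧
      ∀ (H : Type) [Group H] [Finite H] (φ : Gal(Ω/K) →* H), H38.ML.FT φ →
        (∀ τ ∈ L.P.inertia Gal(Ω/K), φ τ ^ p = 1) → φ F * φ L.t = φ L.t * φ F := by
  have : NeZero p := ⟨hp.ne_zero⟩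
  obtain ⟨F0, hF0⟩ := gfrob_ex L.P L.prime L.under
  set j : ℕ := (kk p ζ π F0).val with hj
  have ht1 : kk p ζ π L.t = 1 := by
    have := kk_of_root hp hζ π L.w L.hw L.t 1 (by rw [zpow_one]; exact L.act)
    rw [this, Int.cast_one]
  have htj : (L.t ^ j)⁻¹ ∈ L.P.inertia Gal(Ω/K) := inv_mem (pow_mem L.ht j)
  set F : Gal(Ω/K) := (L.t ^ j)⁻¹ * F0 with hFdef
  have hF : ∀ x : 𝓞 Ω, F • x - x ^ nm v ∈ L.P := by
    intro x
    have h1 : F • x - x ^ nm v = ((L.t ^ j)⁻¹ • (F0 • x) - F0 • x) + (F0 • x - x ^ nm v) := by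
      rw [hFdef, mul_smul]
      ring
    rw [h1]
    exact L.P.add_mem (htj (F0 • x)) (hF0 x)
  have hkkF : kk p ζ π F = 0 := by
    have h1 : kk p ζ π F = -(j * kk p ζ π L.t) + kk p ζ π F0 := by
      unfold kk
      rw [hFdef, map_mul, map_inv, map_pow, toAdd_mul, toAdd_inv, toAdd_pow, nsmul_eq_mul]
    rw [h1, ht1, mul_one, hj, ZMod.natCast_zmod_val, neg_add_cancel]
  have hFw : F L.w = L.w := by
    have h1 := kk_root hp hζ π L.w L.hw F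
    rw [hkkF, ZMod.val_zero, pow_zero, one_mul] at h1
    exact h1
  have hnm : 0 < nm v := lt_trans Nat.zero_lt_one (one_lt_nm v)
  have hFP : ∀ y ∈ L.P, F • y ∈ L.P := by
    intro y hy
    have h1 := L.P.add_mem (hF y) (L.P.pow_mem_of_mem hy (nm v) hnm)
    rwa [sub_add_cancel] at h1
  have hconj : F * L.t * F⁻¹ ∈ L.P.inertia Gal(Ω/K) := by
    intro x
    have h1 : (F * L.t * F⁻¹) • x - x = F • (L.t • (F⁻¹ • x) - F⁻¹ • x) := by
      rw [smul_sub, mul_smul, mul_smul, smul_inv_smul]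
    rw [h1]
    exact hFP _ (L.ht (F⁻¹ • x))
  have hδ : F * L.t * F⁻¹ * L.t⁻¹ ∈ L.P.inertia Gal(Ω/K) := mul_mem hconj (inv_mem L.ht)
  have hFinv : F⁻¹ L.w = L.w := by
    have h1 : F⁻¹ (F L.w) = L.w := AlgEquiv.symm_apply_apply F L.w
    rwa [hFw] at h1
  have htinv : L.t⁻¹ L.w = algebraMap K Ω ζ⁻¹ * L.w := by
    have h1 : L.t⁻¹ (L.t L.w) = L.w := AlgEquiv.symm_apply_apply L.t L.w
    rw [L.act, map_mul, AlgEquiv.commutes] at h1
    have h2 : algebraMap K Ω ζ ≠ 0 := (map_ne_zero _).2 (hζ.ne_zero hp.ne_zero)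
    rw [map_inv₀, eq_inv_mul_iff_mul_eq₀ h2]
    exact h1
  have hδw : (F * L.t * F⁻¹ * L.t⁻¹) L.w = L.w := by
    have hζ0 : ζ ≠ 0 := hζ.ne_zero hp.ne_zero
    show F (L.t (F⁻¹ (L.t⁻¹ L.w))) = L.w
    rw [htinv, map_mul F⁻¹, AlgEquiv.commutes F⁻¹, hFinv, map_mul L.t, AlgEquiv.commutes L.t,
      L.act, ← mul_assoc, ← map_mul (algebraMap K Ω), inv_mul_cancel₀ hζ0, map_one, one_mul, hFw]
  have hkδ : kk p ζ π (F * L.t * F⁻¹ * L.t⁻¹) = 0 := by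
    have h1 := kk_of_root hp hζ π L.w L.hw (F * L.t * F⁻¹ * L.t⁻¹) 0
      (by rw [zpow_zero, one_mul]; exact hδw)
    rw [h1, Int.cast_zero]
  refine ⟨F, hF, fun a => ?_, ?_⟩
  · unfold lgv
    rw [← gfrob_unit hp hζ hv L.P L.prime L.under F hF (a * π ^ (-ord v a)) (by
      rw [ord_mul, ord_zpow, hπ]
      ring), kk_mul_arg hp hζ, kk_zpow_arg hp hζ, hkkF, mul_zero, add_zero]
  · intro H _ _ φ hφ he
    have hφδ := tm hp hζ hv hπ L φ hφ he _ hδ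
    rw [hkδ, ZMod.val_zero, pow_zero] at hφδ
    rw [map_mul, map_mul, map_mul, map_inv, map_inv] at hφδ
    have h1 := mul_inv_eq_one.1 hφδ
    rw [mul_inv_eq_iff_eq_mul] at h1
    exact h1

/-- Frobenius elements exist -/
theorem exists_FR (hp : p.Prime) (hζ : IsPrimitiveRoot ζ p) {D : RD0 K p ζ} (L : LDs D Ω) :
    Nonempty (FR L) := by
  have h1 : ∀ v : Pl K, ∃ F : Gal(Ω/K), ∀ hv : v ∉ D.S0,
      (∀ x : 𝓞 Ω, F • x - x ^ nm v ∈ (L.ld v hv).P) ∧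
      (∀ a : Kˣ, kk p ζ a F = lgv p ζ v (D.pi v) a) ∧
      ∀ (H : Type) [Group H] [Finite H] (φ : Gal(Ω/K) →* H), H38.ML.FT φ →
        (∀ τ ∈ (L.ld v hv).P.inertia Gal(Ω/K), φ τ ^ p = 1) →
          φ F * φ (L.ld v hv).t = φ (L.ld v hv).t * φ F := by
    intro v
    by_cases hv : v ∈ D.S0
    · exact ⟨1, fun h => absurd hv h⟩
    · obtain ⟨F, h2, h3, h4⟩ := frob_uni hp hζ (fun h => hv (D.above v h)) (D.pi_self v hv)
        (L.ld v hv)
      exact ⟨F, fun _ => ⟨h2, h3, h4⟩⟩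
  choose F hF using h1
  refine ⟨⟨F, fun v hv => (hF v hv).1, fun v hv => (hF v hv).2.1, ?_⟩⟩
  intro v hv H _ _ φ hφ he
  have ht : L.t v = (L.ld v hv).t := dif_pos hv
  have hi : inr L v = (L.ld v hv).P.inertia Gal(Ω/K) := dif_pos hv
  rw [hi] at he
  rw [ht]
  exact (hF v hv).2.2 H φ hφ he

end H77.PC3
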