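import Pool.Agent.H77.PC3.PGb
import Pool.Agent.H77.UX.NIL

/-!
# H77-PC3-PGQ: existence of the projections and coordinates `GQ` for a nilpotent group whose Sylow `p`-subgroup has class at most 3 and is
generated by given classes of elements of order `p`
-/

set_option autoImplicit false

open scoped Classical

noncomputable section

namespace H77.PC3

open H77.AB H57.PC H77.UX

theorem gq_h4 {G : Type} [Group G] (S : Subgroup G) (h4 : ⁅⁅⁅S, S⁆, S⁆, S⁆ = ⊥) :
    ∀ u ∈ G3 S, ∀ x : S, u * x = x * u := by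
  have h0 : (⊤ : Subgroup S).map S.subtype = S := by
    rw [← MonoidHom.range_eq_map, Subgroup.range_subtype]
  have h2 : (G3 S).map S.subtype = ⁅⁅S, S⁆, S⁆ := by
    unfold G3 G2
    rw [Subgroup.map_commutator, Subgroup.map_commutator, h0]
  intro u hu x
  have h3 : (u : G) ∈ ⁅⁅S, S⁆, S⁆ := by
    rw [← h2]
    exact ⟨u, hu, rfl⟩
  have h5 := Subgroup.commutator_mem_commutator h3 x.2
  rw [h4, Subgroup.mem_bot, commutatorElement_eq_one_iff_mul_comm] at h5
  exact Subtype.ext h5

theorem exists_gq {p : ℕ} (hp : p.Prime) {G : Type} [Group G] [Finite G]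
    (hnil : Group.IsNilpotent G) (hpG : p ∣ Nat.card G) (S : Sylow p G)
    [hSn : (S : Subgroup G).Normal] {N : ℕ}
    (g : Fin N → G) (pow : ∀ i, g i ^ p = 1) (ne : ∀ i, g i ≠ 1)
    (uni : ∀ i j, IsConj (g i) (g j) → i = j)
    (gen : Subgroup.closure {x | ∃ i, IsConj x (g i)} = (S : Subgroup G))
    (h4 : ⁅⁅⁅(S : Subgroup G), (S : Subgroup G)⁆, (S : Subgroup G)⁆, (S : Subgroup G)⁆ = ⊥) :
    ∃ (m l w : ℕ) (Q : GQ p m l w N G S (G ⧸ (S : Subgroup G)) (S ⧸ G3 S)), Q.cl.g = g := by
  have : Fact p.Prime := ⟨hp⟩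
  obtain ⟨f, hf, hk⟩ := nil_split hnil hp hpG S
  have hgS : ∀ i, g i ∈ (S : Subgroup G) := by
    intro i
    rw [← gen]
    exact Subgroup.subset_closure ⟨i, IsConj.refl _⟩
  -- conjugation by elements of `G` is conjugation by elements of `S`
  have hcj : ∀ (y : G) (x : S), y * (x : G) * y⁻¹ = (f y : G) * x * (f y : G)⁻¹ := by
    intro y x
    have e1 : f ((f y : G)⁻¹ * y) = 1 := by
      rw [map_mul, map_inv, hf (f y), inv_mul_cancel]
    obtain ⟨k, hk'⟩ := S.isPGroup' x
    have e2 : (x : G) * ((f y : G)⁻¹ * y) = ((f y : G)⁻¹ * y) * x :=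
      nil_comm hnil hp ⟨k, congrArg Subtype.val hk'⟩ (hk _ e1)
    calc y * (x : G) * y⁻¹ = (f y : G) * (((f y : G)⁻¹ * y) * x) * y⁻¹ := by group
      _ = (f y : G) * (x * ((f y : G)⁻¹ * y)) * y⁻¹ := by rw [e2]
      _ = _ := by group
  have hconj : ∀ x y : S, IsConj (x : G) (y : G) → IsConj x y := by
    intro x y h
    obtain ⟨c, hc⟩ := isConj_iff.1 h
    refine isConj_iff.2 ⟨f c, Subtype.ext ?_⟩
    rw [hcj c x] at hc
    exact hc
  have hconj' : ∀ x y : S, IsConj x y → IsConj (x : G) (y : G) := fun x y h =>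
    (S : Subgroup G).subtype.map_isConj h
  let g' : Fin N → S := fun i => ⟨g i, hgS i⟩
  obtain ⟨m, l, w, Dg, hDg⟩ := exists_gp hp g'
    (fun i => Subtype.ext (pow i)) (fun i h => ne i (congrArg Subtype.val h))
    (fun i j h => uni i j (hconj' _ _ h))
    (fun H hH => by
      rw [eq_top_iff]
      intro x _
      have h1 : (x : G) ∈ Subgroup.closure {x | ∃ i, IsConj x (g i)} := by
        rw [gen]
        exact x.2
      have h2 : Subgroup.closure {x | ∃ i, IsConj x (g i)} ≤
          H.map (S : Subgroup G).subtype := by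
        rw [Subgroup.closure_le]
        rintro y ⟨i, hy⟩
        have hyS : y ∈ (S : Subgroup G) := by
          rw [← gen]
          exact Subgroup.subset_closure ⟨i, hy⟩
        exact ⟨⟨y, hyS⟩, hH i _ (hconj _ (g' i) hy), rfl⟩
      obtain ⟨z, hz, hzx⟩ := h2 h1
      have h3 : z = x := Subtype.ext hzx
      rwa [← h3])
    (gq_h4 (S : Subgroup G) h4)
  refine ⟨m, l, w, {
    Dg := Dg
    pr := f
    prs := fun x => ⟨x, hf x⟩
    ph := QuotientGroup.mk' (S : Subgroup G)
    phs := QuotientGroup.mk'_surjective _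
    inj := fun x y h1 h2 => by
      have h3 : x⁻¹ * y ∈ (S : Subgroup G) := QuotientGroup.eq.1 h2
      have h4 : f (x⁻¹ * y) = 1 := by
        rw [map_mul, map_inv, h1, inv_mul_cancel]
      have h5 := hf ⟨x⁻¹ * y, h3⟩
      change f (x⁻¹ * y) = _ at h5
      rw [h4] at h5
      have h6 := congrArg Subtype.val h5
      exact inv_mul_eq_one.1 h6.symm
    hH := fun h hh => by
      have h1 : orderOf h ∣ p := orderOf_dvd_of_pow_eq_one hh
      have h2 : orderOf h ∣ Nat.card (G ⧸ (S : Subgroup G)) := orderOf_dvd_natCard h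
      have h3 : ¬ p ∣ Nat.card (G ⧸ (S : Subgroup G)) := by
        have h5 := S.not_dvd_index
        rwa [Subgroup.index] at h5
      rcases (Nat.dvd_prime hp).1 h1 with h5 | h5
      · exact orderOf_eq_one_iff.1 h5
      · rw [h5] at h2
        exact absurd h2 h3
    cl := ⟨g, pow, ne, uni⟩
    hcl := fun i => by
      rw [hDg]
      exact hf (g' i) }, rfl⟩

end H77.PC3
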