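import Pool.Agent.H77.PC3.CGu
import Pool.Agent.H77.PC3.CFr
import Pool.Agent.H77.PC3.PGq
import Pool.Agent.H77.GN.NFin
import Pool.Agent.H57.BRA.Def

/-!
# H77-PC3-CMA: the upper bound for the number of fields, from the bounds for `FSum`
-/

set_option autoImplicit false

open scoped NumberField
open IsDedekindDomain H38.ML

noncomputable section

namespace H77.PC3

open H63.MA H38.BB H38.BG H77.AB H57.PC H57.BRA H77.GN H77.UX

/-- the bounds for `FSum` -/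
def FBdAll (p : ℕ) [NeZero p] : Prop :=
  ∀ (K : Type) [Field K] [NumberField K] (Ω : Type) [Field Ω] [Algebra K Ω] [IsAlgClosure K Ω]
    (ζ : K) (_ : IsPrimitiveRoot ζ p) (_ : MOne p K) (_ : Z2 p K) (D : RD K p ζ)
    (L : LDs D.toRD0 Ω) (Fr : FR L) (m l w N : ℕ) (P R : Type) [Group P] [Finite P] [Group R]
    (Dg : GP p m l w N P R), 1 ≤ N → FBd Dg Fr

/-- the field `K₀` -/
theorem akn2 (G : Type) [Group G] [Finite G] (p : ℕ) [NeZero p] :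
    ∃ K₀ : IntermediateField ℚ QBar, NumberField K₀ ∧
      ∀ K : IntermediateField ℚ QBar, K₀ ≤ K → ∀ _ : NumberField K,
        (∃ ρ : Gal(QBar/K) →* G, Function.Surjective ρ ∧ FT ρ) ∧
        (∃ z : K, IsPrimitiveRoot z (Nat.card G)) ∧ (∃ i : K, i ^ 2 = -1) ∧ Z2 p K := by
  have hp2 : NeZero (p ^ 2) := ⟨pow_ne_zero 2 (NeZero.ne p)⟩
  obtain ⟨K₀, hK₀, hK⟩ := akn (G × Multiplicative (ZMod (p ^ 2)))
  refine ⟨K₀, hK₀, fun K hKK hKf => ?_⟩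
  obtain ⟨⟨φ₀, hs, hφ₀⟩, ⟨z, hz⟩, hi⟩ := hK K hKK hKf
  have hc : Nat.card (G × Multiplicative (ZMod (p ^ 2))) = Nat.card G * p ^ 2 := by
    rw [Nat.card_prod, Nat.card_congr Multiplicative.toAdd, Nat.card_zmod]
  have hpos : 0 < Nat.card (G × Multiplicative (ZMod (p ^ 2))) := Nat.card_pos
  refine ⟨⟨(MonoidHom.fst G (Multiplicative (ZMod (p ^ 2)))).comp φ₀, ?_, ft_comp _ _ hφ₀⟩,
    ⟨z ^ p ^ 2, hz.pow hpos (by rw [hc, mul_comm])⟩, hi, z ^ Nat.card G,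
    hz.pow hpos (by rw [hc])⟩
  intro g
  obtain ⟨σ, hσ⟩ := hs (g, 1)
  exact ⟨σ, by
    rw [MonoidHom.comp_apply, hσ]
    rfl⟩

theorem cma {n : ℕ} (hn : 2 ≤ n) (G : Subgroup (Equiv.Perm (Fin n)))
    (hG : MulAction.IsPretransitive G (Fin n)) (hnil : Group.IsNilpotent G) {p : ℕ} [NeZero p]
    (hp : p.Prime) (hFS : FBdAll p)
    (hI : ∀ h : G, h ≠ 1 → ind (h : Equiv.Perm (Fin n)) = indG G → h ^ p = 1)
    (S : Sylow p G)
    (hS : Subgroup.closure {h : G | h ≠ 1 ∧ ind (h : Equiv.Perm (Fin n)) = indG G} =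
      (S : Subgroup G))
    (h4 : ⁅⁅⁅(S : Subgroup G), (S : Subgroup G)⁆, (S : Subgroup G)⁆, (S : Subgroup G)⁆ = ⊥) :
    ∃ K₀ : IntermediateField ℚ QBar, NumberField K₀ ∧
      ∀ K : IntermediateField ℚ QBar, K₀ ≤ K → ∀ _ : NumberField K,
        ∃ C B₀ : ℝ, 0 < C ∧ ∀ B : ℝ, B₀ ≤ B → ∃ k : ℕ,
          Spec.nK K QBar G B = (k : ℕ∞) ∧
          (k : ℝ) ≤ C * B ^ (1 / (indG G : ℝ)) *
            Real.log B ^ (Spec.betaAll K QBar G - 1) := by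
  obtain ⟨ha, ⟨g₀, hg₀, hg₀'⟩, hmin, hcj, hJ⟩ := pidx_pos hn G hG
  obtain ⟨N, g, hgΛ, uni, hI'⟩ := ncl G {h : G | h ≠ 1 ∧ ind (h : Equiv.Perm (Fin n)) = indG G}
    (fun h hh => hh.1) (by
      rintro h ⟨h1, h2⟩ k hk
      refine ⟨?_, ?_⟩
      · intro hk1
        rw [hk1] at hk
        exact h1 (isConj_one_left.1 hk)
      · obtain ⟨x, rfl⟩ := isConj_iff.1 hk
        exact hcj h x h1 h2)
  have hN : 1 ≤ N := by
    obtain ⟨i, -⟩ := (hI' g₀).1 ⟨hg₀, hg₀'⟩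
    have := i.2
    omega
  have hcardpos : 0 < Nat.card G := Nat.card_pos
  have hpd : p ∣ Nat.card G := by
    have h2 := hI g₀ hg₀ hg₀'
    have h3 : orderOf g₀ = p := orderOf_eq_prime h2 hg₀ (hp := ⟨hp⟩)
    rw [← h3]
    exact orderOf_dvd_natCard g₀
  have hSn := nil_normal hnil hp S
  have hset : {h : G | h ≠ 1 ∧ ind (h : Equiv.Perm (Fin n)) = indG G} =
      {x | ∃ i, IsConj x (g i)} := by
    ext x
    exact hI' x
  obtain ⟨m, l, w, Q, hQ⟩ := exists_gq hp hnil hpd S g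
    (fun i => hI _ (hgΛ i).1 (hgΛ i).2) (fun i => (hgΛ i).1) uni (by rw [← hset]; exact hS) h4
  obtain ⟨K₀, hK₀, hK⟩ := akn2 G p
  refine ⟨K₀, hK₀, fun K hKK hKf => ?_⟩
  obtain ⟨⟨φ₀, hs, hφ₀⟩, ⟨z, hz⟩, ⟨i, hi⟩, hz2⟩ := hK K hKK hKf
  have hp2 : H63.MA.MOne p K := by
    by_cases h2 : p = 2
    · exact ⟨i, by rw [h2]; exact hi⟩
    · exact H63.MA.mone_odd hp h2 K
  obtain ⟨r, hr⟩ := hpd
  have hζ : IsPrimitiveRoot (z ^ r) p := hz.pow hcardpos (by rw [hr]; ring)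
  obtain ⟨D, hD, hun⟩ := ard (Ω := QBar) hp hp2 hζ φ₀ hφ₀ (Nat.card G) hcardpos
  obtain ⟨L⟩ := exists_LDs QBar hp hζ D.toRD0
  obtain ⟨Fr⟩ := exists_FR hp hζ L
  rw [lbet G K z hz g uni hI']
  refine afu hn G hG K D.toRD0 L N ?_
  exact cgu hp hζ D.toRD0 L hnil Q Fr (hFS K QBar (z ^ r) hζ hp2 hz2 D L Fr m l w N S (S ⧸ G3 S) Q.Dg hN)
    z hz hD (indG G) ha
    (fun H => n - orbs (H.map G.subtype))
    (fun H hH => by
      have := hJ H hH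
      omega)
    (fun g hg h => by
      rw [hQ]
      refine (hI' g).1 ⟨hg, le_antisymm ?_ (hmin g hg)⟩
      have h1 : (Subgroup.zpowers g).map G.subtype =
          Subgroup.zpowers (g : Equiv.Perm (Fin n)) := by
        rw [MonoidHom.map_zpowers]
        rfl
      rw [h1] at h
      exact h)

end H77.PC3
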