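import Pool.Agent.H77.PC3.CSu
import Pool.Agent.H77.AB.LGup

/-!
# H77-PC3-CGU: the upper bound for the homomorphisms, from the bound for `FSum`
-/

set_option autoImplicit false

open scoped NumberField
open IsDedekindDomain
open scoped Classical

noncomputable section

namespace H77.PC3

open H63.MA H38.BB H38.BG H57.PC H63.BU H77.AB

/-- the bound for `FSum` -/
def FBd {K : Type} [Field K] [NumberField K] {p : ℕ} [NeZero p] {ζ : K} {D : RD0 K p ζ}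
    {Ω : Type} [Field Ω] [Algebra K Ω] {L : LDs D Ω} {m l w N : ℕ} {P R : Type} [Group P]
    [Group R] (Dg : GP p m l w N P R) (Fr : FR L) : Prop :=
  ∀ η : ℝ, 0 < η → ∃ C : ℝ, 0 < C ∧ ∀ (b : Fin m → Kˣ) (E : Finset (Pl K)), BS2 D b E →
    ∀ (ε : Pl K → Gal(Ω/K) → R) (Y : ℝ), 1 ≤ Y →
      FSum Dg Fr b E ε Y ≤ C * nr E ^ η * Y * (1 + Real.log Y) ^ (N - 1)

theorem cgu {K : Type} [Field K] [NumberField K] {Ω : Type} [Field Ω] [Algebra K Ω]
    [IsAlgClosure K Ω] {p : ℕ} [NeZero p] {ζ : K} {m l w N : ℕ} {G P H R : Type}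
    [Group G] [Finite G] [Group P] [Group H] [Group R] (hp : p.Prime)
    (hζ : IsPrimitiveRoot ζ p) (D : RD0 K p ζ) (L : LDs D Ω)
    (hnil : Group.IsNilpotent G) (Q : GQ p m l w N G P H R) (Fr : FR L)
    (hFS : FBd Q.Dg Fr) (z : K) (hz : IsPrimitiveRoot z (Nat.card G))
    (hS : ∀ v : Pl K, ((Nat.card G : ℕ) : 𝓞 K) ∈ v.asIdeal → v ∈ D.S0) (a : ℕ) (ha : 0 < a)
    (ix : Subgroup G → ℕ) (h1 : ∀ H, H ≠ ⊥ → a ≤ ix H)
    (h2 : ∀ g : G, g ≠ 1 → ix (Subgroup.zpowers g) ≤ a → ∃ i, IsConj g (Q.cl.g i)) :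
    ∃ C B₀ : ℝ, 0 < C ∧ ∀ B : ℝ, B₀ ≤ B → ∀ Rs : Finset (Gal(Ω/K) →* G),
      (∀ φ ∈ Rs, H38.ML.FT φ ∧ Function.Surjective φ ∧ ∀ T : Finset (Pl K),
        (∀ v ∈ T, v ∉ D.S0) → ∏ v ∈ T, (nm v : ℝ) ^ ix ((inr L v).map φ) ≤ B) →
      (Rs.card : ℝ) ≤ C * B ^ (1 / (a : ℝ)) * Real.log B ^ (N - 1) := by
  have haR : (0 : ℝ) < (a : ℝ) := by exact_mod_cast ha
  have ha1 : (1 : ℝ) ≤ (a : ℝ) := by exact_mod_cast ha
  obtain ⟨U, hU1, hU2⟩ := unit_reps hp D.S0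
  have hU : UR D U := ⟨hU1, hU2⟩
  obtain ⟨C₁, hcnt⟩ := csu hp hζ D L hnil Q Fr z hz hS a ha ix h1 h2
  obtain ⟨η, hη⟩ : ∃ η : ℝ, η = 1 / (4 * (a : ℝ)) := ⟨_, rfl⟩
  have hη0 : 0 < η := by
    rw [hη]
    positivity
  obtain ⟨C₂, hC₂, hub⟩ := hFS η hη0
  obtain ⟨q, hq⟩ : ∃ q : ℝ, q = (Nat.card G : ℝ) * (p : ℝ) ^ m := ⟨_, rfl⟩
  have hq0 : 0 ≤ q := by
    rw [hq]
    positivity
  obtain ⟨C₃, hC₃, hsum⟩ := usum K a ha q hq0
  rw [← hη] at hsum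
  refine ⟨C₁ * (U.card : ℝ) ^ m * C₂ * C₃ * 2 ^ (N - 1) + 1, 3, by positivity, ?_⟩
  intro B hB Rs hRs
  have hB1 : 1 ≤ B := by linarith
  have hB0 : 0 < B := by linarith
  have hlog1 : 1 ≤ Real.log B := by
    rw [Real.le_log_iff_exp_le hB0]
    exact Real.exp_one_lt_three.le.trans hB
  obtain ⟨X, hX⟩ : ∃ X : ℝ, X = B ^ (1 / (a : ℝ)) := ⟨_, rfl⟩
  have hX1 : 1 ≤ X := by
    rw [hX]
    exact Real.one_le_rpow hB1 (by positivity)
  have hX0 : 0 < X := by linarith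
  -- the data
  have hex : ∀ φ : Gal(Ω/K) →* G, ∃ (e : Finset (Pl K) × (Fin m → Kˣ)),
      φ ∈ Rs →
      (∀ v, v ∈ e.1 ↔ Rm L φ v ∧ ∀ i, ¬ TyC Q.cl L φ i v) ∧
      e.2 ∈ Bb D U e.1 m ∧
      BS2 D e.2 e.1 ∧
      1 ≤ UY B a e.1 ∧ nr e.1 ≤ B ∧
      ∀ f : Fin N → Finset (Pl K), (∀ i v, v ∈ f i ↔ TyC Q.cl L φ i v) →
          (∀ (σ : Gal(Ω/K)) k, kk p ζ (akR D Q.Dg.cr e.2 f k) σ =
            Multiplicative.toAdd (Q.Dg.π (Q.Dg.q (Q.pr (φ σ)))) k) ∧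
          SpR Q.Dg.cr e.2 f := by
    intro φ
    by_cases hφ : φ ∈ Rs
    · obtain ⟨hft, hs, hT⟩ := hRs φ hφ
      obtain ⟨f, E, hf, hE⟩ := csets L Q.cl φ hft
      obtain ⟨b, hb, hbs, hk, hsp⟩ := cku hp hζ D L Q U hU φ hft hs f E hf hE
      obtain ⟨-, -, -, h3, h4, -⟩ :=
        ccnt_nr hp hζ D L Q.cl hS a ha ix h1 h2 φ hft B hT f E hf hE
      refine ⟨(E, b), fun _ => ⟨hE, hb, hbs, h3, h4, fun f' hf' => ?_⟩⟩
      have hff : f' = f := by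
        funext i
        ext v
        rw [hf' i v, hf i v]
      rw [hff]
      exact ⟨hk, hsp⟩
    · exact ⟨(∅, fun _ => 1), fun h => absurd h hφ⟩
  choose e he using hex
  -- the fibres
  have hfib : ∀ (E : Finset (Pl K)) (bc : Fin m → Kˣ),
      (((Rs.filter fun φ => (e φ).1 = E).filter fun φ => (e φ).2 = bc).card : ℝ) ≤
        C₁ * (Nat.card G : ℝ) ^ E.card *
          (C₂ * nr E ^ η * UY B a E * (2 * Real.log B) ^ (N - 1)) := by
    intro E bc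
    have hnr := one_le_nr E
    have hUY := uy_le B hB1 a E
    have hUY0 : 0 ≤ UY B a E := hUY.1
    have hrhs : 0 ≤ C₁ * (Nat.card G : ℝ) ^ E.card *
          (C₂ * nr E ^ η * UY B a E * (2 * Real.log B) ^ (N - 1)) := by
      positivity
    rcases ((Rs.filter fun φ => (e φ).1 = E).filter fun φ => (e φ).2 = bc).eq_empty_or_nonempty
      with h0 | ⟨φ₀, hφ₀⟩
    · rw [h0, Finset.card_empty, Nat.cast_zero]
      exact hrhs
    rw [Finset.mem_filter, Finset.mem_filter] at hφ₀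
    obtain ⟨⟨hφ₀, hE₀⟩, hb₀⟩ := hφ₀
    obtain ⟨-, -, hbs, hUY1, -, -⟩ := he φ₀ hφ₀
    rw [hE₀] at hUY1
    rw [hE₀, hb₀] at hbs
    have hlogU : Real.log (UY B a E) ≤ Real.log B := by
      have h5 : UY B a E ≤ B := by
        refine hUY.2.trans ?_
        calc B ^ (1 / (a : ℝ)) ≤ B ^ (1 : ℝ) := by
              refine Real.rpow_le_rpow_of_exponent_le hB1 ?_
              rw [div_le_one haR]
              exact ha1
          _ = B := Real.rpow_one B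
      exact Real.log_le_log (by linarith) h5
    have hlogU0 : 0 ≤ Real.log (UY B a E) := Real.log_nonneg hUY1
    have h6 : (1 + Real.log (UY B a E)) ^ (N - 1) ≤ (2 * Real.log B) ^ (N - 1) :=
      pow_le_pow_left₀ (by linarith) (by linarith) _
    refine hcnt B E bc
      ((Rs.filter fun φ => (e φ).1 = E).filter fun φ => (e φ).2 = bc) (by
      intro φ hφ
      rw [Finset.mem_filter, Finset.mem_filter] at hφ
      obtain ⟨⟨hφ, hE⟩, hb⟩ := hφ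
      obtain ⟨b2, -, -, -, -, b7⟩ := he φ hφ
      rw [hE] at b2
      rw [hb] at b7
      exact ⟨(hRs φ hφ).1, (hRs φ hφ).2.2, b2, b7⟩) _ fun ε => ?_
    refine (hub bc E hbs ε (UY B a E) hUY1).trans ?_
    exact mul_le_mul_of_nonneg_left h6 (by positivity)
  have hcardE : ∀ E : Finset (Pl K), (((Rs.filter fun φ => (e φ).1 = E).card : ℕ) : ℝ) ≤
      ((U.card : ℝ) * (p : ℝ) ^ E.card) ^ m * (C₁ * (Nat.card G : ℝ) ^ E.card *
          (C₂ * nr E ^ η * UY B a E * (2 * Real.log B) ^ (N - 1))) := by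
    intro E
    have hmap : ∀ φ ∈ Rs.filter fun φ => (e φ).1 = E,
        (e φ).2 ∈ Bb D U E m := by
      intro φ hφ
      rw [Finset.mem_filter] at hφ
      obtain ⟨-, b3, -⟩ := he φ hφ.1
      rw [hφ.2] at b3
      exact b3
    have hUY := uy_le B hB1 a E
    have hUY0 : 0 ≤ UY B a E := hUY.1
    have hnr := one_le_nr E
    rw [Finset.card_eq_sum_card_fiberwise hmap]
    push_cast
    calc ∑ b ∈ Bb D U E m,
          (((Rs.filter fun φ => (e φ).1 = E).filter fun φ => (e φ).2 = b).card : ℝ) ≤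
        ∑ b ∈ Bb D U E m, C₁ * (Nat.card G : ℝ) ^ E.card *
          (C₂ * nr E ^ η * UY B a E * (2 * Real.log B) ^ (N - 1)) :=
          Finset.sum_le_sum fun b _ => hfib E b
      _ = ((Bb D U E m).card : ℝ) *
          (C₁ * (Nat.card G : ℝ) ^ E.card *
          (C₂ * nr E ^ η * UY B a E * (2 * Real.log B) ^ (N - 1))) := by
          rw [Finset.sum_const, nsmul_eq_mul]
      _ ≤ _ := by
          refine mul_le_mul_of_nonneg_right ?_ (by positivity)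
          have h5 := ubb_card D U E m
          exact_mod_cast h5
  have hmapE : ∀ φ ∈ Rs, (e φ).1 ∈ AF K B := by
    intro φ hφ
    obtain ⟨-, -, -, -, b6, -⟩ := he φ hφ
    exact mem_AF.2 b6
  have hQ : ∀ E : Finset (Pl K), ((U.card : ℝ) * (p : ℝ) ^ E.card) ^ m *
      (C₁ * (Nat.card G : ℝ) ^ E.card *
          (C₂ * nr E ^ η * UY B a E * (2 * Real.log B) ^ (N - 1))) =
      (C₁ * (U.card : ℝ) ^ m * C₂ * X * (2 * Real.log B) ^ (N - 1)) *
        (q ^ E.card * nr E ^ η * ∏ v ∈ E, (nm v : ℝ) ^ (-((co a v : ℝ) / (a : ℝ)))) := by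
    intro E
    have e1 : q ^ E.card = (Nat.card G : ℝ) ^ E.card * ((p : ℝ) ^ E.card) ^ m := by
      rw [hq, mul_pow, ← pow_mul, ← pow_mul, mul_comm m]
    have e2 : UY B a E = X * ∏ v ∈ E, (nm v : ℝ) ^ (-((co a v : ℝ) / (a : ℝ))) := by
      rw [hX]
      rfl
    rw [e1, e2, mul_pow]
    ring
  have hcard := Finset.card_eq_sum_card_fiberwise (f := fun φ => (e φ).1) (s := Rs) (t := AF K B)
    (fun φ hφ => hmapE φ hφ)
  have hlogp : 0 ≤ Real.log B ^ (N - 1) := by positivity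
  rw [← hX]
  calc (Rs.card : ℝ) = ∑ E ∈ AF K B, (((Rs.filter fun φ => (e φ).1 = E).card : ℕ) : ℝ) := by
        rw [hcard]
        push_cast
        rfl
    _ ≤ ∑ E ∈ AF K B, (C₁ * (U.card : ℝ) ^ m * C₂ * X * (2 * Real.log B) ^ (N - 1)) *
        (q ^ E.card * nr E ^ η * ∏ v ∈ E, (nm v : ℝ) ^ (-((co a v : ℝ) / (a : ℝ)))) := by
        refine Finset.sum_le_sum fun E _ => ?_
        rw [← hQ E]
        exact hcardE E
    _ = (C₁ * (U.card : ℝ) ^ m * C₂ * X * (2 * Real.log B) ^ (N - 1)) *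
        ∑ E ∈ AF K B, (q ^ E.card * nr E ^ η *
          ∏ v ∈ E, (nm v : ℝ) ^ (-((co a v : ℝ) / (a : ℝ)))) := by
        rw [Finset.mul_sum]
    _ ≤ (C₁ * (U.card : ℝ) ^ m * C₂ * X * (2 * Real.log B) ^ (N - 1)) * C₃ := by
        refine mul_le_mul_of_nonneg_left (hsum _) ?_
        positivity
    _ = (C₁ * (U.card : ℝ) ^ m * C₂ * C₃ * 2 ^ (N - 1)) * (X * Real.log B ^ (N - 1)) := by
        rw [mul_pow]
        ring
    _ ≤ (C₁ * (U.card : ℝ) ^ m * C₂ * C₃ * 2 ^ (N - 1) + 1) *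
        (X * Real.log B ^ (N - 1)) := by
        refine mul_le_mul_of_nonneg_right (by linarith) (by positivity)
    _ = (C₁ * (U.card : ℝ) ^ m * C₂ * C₃ * 2 ^ (N - 1) + 1) * X *
        Real.log B ^ (N - 1) := by ring

end H77.PC3
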