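import Pool.Agent.H77.PC3.CLh

/-!
# H77-PC3-CLX: the exact number of the elements of `RH` for split families

* `rhn L Dg ε`: the number of the homomorphisms `Γ → V` of finite type which are trivial on all inertia groups outside `S0`.
* `rh_card_eq`: `#RHf = rhn * ∏ (#class of q (g i))^{#(f i)}` if the level 2 conditions hold at all typed primes; `rh_empty`: `RH` is empty otherwise.
-/

set_option autoImplicit false

open scoped NumberField
open IsDedekindDomain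
open scoped Classical

noncomputable section

namespace H77.PC3

open H63.MA H38.BB H38.BG H57.PC H57.BRA H63.BU

variable {K : Type} [Field K] [NumberField K] {Ω : Type} [Field Ω] [Algebra K Ω]
  {p : ℕ} {ζ : K} {D : RD0 K p ζ} {m l w N : ℕ} {P R : Type}
  [Group P] [Group R]

/-- the number of the homomorphisms to `V` which are trivial on all inertia groups outside `S0` -/
def rhn [NeZero p] (L : LDs D Ω) (Dg : GP p m l w N P R) : ℕ :=
  (RHf L Dg (fun _ => (1 : Kˣ)) ∅ (fun _ _ => 1) (fun _ => ∅)).card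

variable [IsAlgClosure K Ω]

theorem rhn_mem [NeZero p] [Finite R] (hp : p.Prime) (hζ : IsPrimitiveRoot ζ p) {L : LDs D Ω}
    (Dg : GP p m l w N P R) (χ : Gal(Ω/K) →* R) :
    χ ∈ RHf L Dg (fun _ => (1 : Kˣ)) ∅ (fun _ _ => 1) (fun _ => ∅) ↔
      H38.ML.FT χ ∧ (∀ σ, Dg.π (χ σ) = 1) ∧ ∀ v, v ∉ D.S0 → ∀ τ ∈ inr L v, χ τ = 1 := by
  rw [mem_RHf' hp hζ]
  have h1 : ∀ (σ : Gal(Ω/K)) (k : Fin m),
      kk p ζ (akR D Dg.cr (fun _ => (1 : Kˣ)) (fun _ => ∅) k) σ = 0 := by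
    intro σ k
    refine (kk_eq_zero_iff (Ω := Ω) hp hζ _).2 ⟨1, ?_⟩ σ
    unfold akR
    simp
  constructor
  · rintro ⟨r0, r1, -, -, r4⟩
    refine ⟨r0, fun σ => ?_, fun v hv => r4 v hv (Finset.notMem_empty v)
      fun i => Finset.notMem_empty v⟩
    apply Multiplicative.toAdd.injective
    funext k
    rw [← r1 σ k, h1 σ k]
    rfl
  · rintro ⟨r0, r1, r2⟩
    refine ⟨r0, fun σ k => ?_, fun i v hv => absurd hv (Finset.notMem_empty v),
      fun v hv => absurd hv (Finset.notMem_empty v), fun v hv _ _ => r2 v hv⟩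
    rw [h1 σ k, r1 σ]
    rfl

theorem rhn_pos [NeZero p] [Finite R] (hp : p.Prime) (hζ : IsPrimitiveRoot ζ p) (L : LDs D Ω)
    (Dg : GP p m l w N P R) : 1 ≤ rhn L Dg := by
  unfold rhn
  rw [Nat.one_le_iff_ne_zero, Finset.card_ne_zero]
  refine ⟨1, (rhn_mem hp hζ Dg 1).2 ⟨?_, fun σ => ?_, fun v _ τ _ => rfl⟩⟩
  · exact ⟨⊥, inferInstance, fun σ _ => rfl⟩
  · rw [MonoidHom.one_apply, map_one]

theorem rh_empty [NeZero p] [Finite R] {L : LDs D Ω} (Fr : FR L)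
    (Dg : GP p m l w N P R) (ε : Pl K → Gal(Ω/K) → R) (f : Fin N → Finset (Pl K))
    (hS : ∀ i, ∀ v ∈ f i, v ∉ D.S0) (ρ : Gal(Ω/K) →* R) (b : Fin m → Kˣ) (E : Finset (Pl K))
    (hρ : ρ ∈ RH L Dg b E ε f) (i : Fin N) (v : Pl K) (hv : v ∈ f i) :
    Dg.kV (fun j => D.LL v (akR D Dg.cr b f j)) (Dg.s i) = 0 := by
  obtain ⟨r0, r1, r2, r3, r4⟩ := hρ
  have hcom := Fr.com v (hS i v hv) R ρ r0 (r2 i v hv).2
  funext k
  have h1 := Dg.hk (ρ (Fr.F v)) (ρ (L.t v)) k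
  rw [hcom, mul_inv_cancel_right, mul_inv_cancel, cv_one] at h1
  have h2 : Multiplicative.toAdd (Dg.π (ρ (Fr.F v))) =
      fun j => D.LL v (akR D Dg.cr b f j) := by
    funext j
    rw [← r1, Fr.kf v (hS i v hv)]
  have h3' : Dg.π (ρ (L.t v)) = Dg.π (Dg.q (Dg.g i)) := by
    obtain ⟨c, hc⟩ := isConj_iff.1 (r2 i v hv).1
    rw [← hc, map_mul, map_mul, map_inv, mul_comm (Dg.π c), mul_inv_cancel_right]
  have h3 : Multiplicative.toAdd (Dg.π (ρ (L.t v))) = Dg.s i := by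
    rw [h3']
    rfl
  rw [h2, h3] at h1
  exact h1.symm

theorem rh_card_eq [NeZero p] [Finite R] (hp : p.Prime) (hp2 : MOne p K)
    (hζ : IsPrimitiveRoot ζ p) (hz : Z2 p K) {L : LDs D Ω} (Fr : FR L)
    (Dg : GP p m l w N P R) (ε : Pl K → Gal(Ω/K) → R) (f : Fin N → Finset (Pl K)) (hdj : Dj f)
    (hS : ∀ i, ∀ v ∈ f i, v ∉ D.S0) (hq : ∀ i, qf D (f i) = 0)
    (hc : ∀ i, ∀ v ∈ f i,
      Dg.kV (fun j => D.LL v (akR D Dg.cr (fun _ => 1) f j)) (Dg.s i) = 0) :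
    (RHf L Dg (fun _ => 1) ∅ ε f).card =
      rhn L Dg * ∏ i, Nat.card {r : R // IsConj r (Dg.q (Dg.g i))} ^ (f i).card := by
  have hfin : Fintype R := Fintype.ofFinite R
  obtain ⟨ρ₀, k0, k1⟩ := lift2 hp hp2 hζ hz Fr Dg f hdj hS hq hc
  obtain ⟨x, hx⟩ : ∃ x : Finset (Pl K), x = Finset.univ.biUnion f := ⟨_, rfl⟩
  have hxm : ∀ v, v ∈ x ↔ ∃ i, v ∈ f i := by
    intro v
    rw [hx, Finset.mem_biUnion]
    simp
  obtain ⟨T, hT⟩ : ∃ T : Finset ((i : Fin N) → (↥(f i) → R)), T =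
    Fintype.piFinset (fun i => Fintype.piFinset
      (fun _ : ↥(f i) => Finset.univ.filter fun h : R => IsConj h (Dg.q (Dg.g i)))) := ⟨_, rfl⟩
  have hTm : ∀ e, e ∈ T ↔ ∀ i (v : ↥(f i)), IsConj (e i v) (Dg.q (Dg.g i)) := by
    intro e
    rw [hT, Fintype.mem_piFinset]
    simp only [Fintype.mem_piFinset, Finset.mem_filter, Finset.mem_univ, true_and]
  have hTc : T.card = ∏ i, Nat.card {r : R // IsConj r (Dg.q (Dg.g i))} ^ (f i).card := by
    rw [hT, Fintype.card_piFinset]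
    refine Finset.prod_congr rfl fun i _ => ?_
    rw [Fintype.card_piFinset, Finset.prod_const, Finset.card_univ, Fintype.card_coe,
      Nat.card_eq_fintype_card, Fintype.card_subtype]
  have hex : ∀ e ∈ T, ∃ ψ : Gal(Ω/K) →* R,
      ψ ∈ RH L Dg (fun _ => 1) ∅ ε f ∧ ∀ i (v : ↥(f i)), ψ (L.t v.1) = e i v := by
    intro e he
    obtain ⟨y, hy⟩ := fam_fun f hdj e
    obtain ⟨ψ, a1, a2, a3, a4, a5⟩ := cx_adj (gx2 Dg) hp hζ L
      (kuh p ζ Ω (akR D Dg.cr (fun _ => 1) f)) ρ₀ k0 k1 x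
      (fun v hv => by
        obtain ⟨i, hi⟩ := (hxm v).1 hv
        exact hS i v hi)
      (fun v hv hvx τ hτ => kuh_un hp hζ L Dg.cr f hS v hv
        (fun i hi => hvx ((hxm v).2 ⟨i, hi⟩)) τ hτ)
      (fun v hv τ hτ z hz' => by
        obtain ⟨i, hi⟩ := (hxm v).1 hv
        refine pow_lift2 Dg i z (kk p ζ (D.pi v) τ).val ?_
        have h3 := tm_z hp hζ L _ (kuh_ft hp hζ (akR D Dg.cr (fun _ => 1) f)) v (hS i v hi)
          (fun σ _ => kuh_pow _ σ) τ hτ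
        rw [kuh_t hp hζ L Dg.cr f hdj hS i v hi] at h3
        exact hz'.trans h3)
      y (fun v hv => by
        obtain ⟨i, hi⟩ := (hxm v).1 hv
        obtain ⟨c, hc'⟩ := isConj_iff.1 ((hTm e).1 he i ⟨v, hi⟩)
        rw [hy i v hi, kuh_t hp hζ L Dg.cr f hdj hS i v hi]
        have h3 : Dg.π (e i ⟨v, hi⟩) = Dg.π (Dg.q (Dg.g i)) := by
          rw [← hc', map_mul, map_mul, map_inv, mul_comm (Dg.π c), mul_inv_cancel_right]
        exact h3)
    have a3' : ∀ i (v : ↥(f i)), ψ (L.t v.1) = e i v := fun i v => by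
      rw [a3 v.1 ((hxm v.1).2 ⟨i, v.2⟩), hy i v.1 v.2]
    refine ⟨ψ, ⟨a1, fun σ k => ?_, fun i v hv => ⟨?_, a4 v ((hxm v).2 ⟨i, hv⟩)⟩,
      fun v hv => absurd hv (Finset.notMem_empty v), fun v hv _ hvf τ hτ => ?_⟩, a3'⟩
    · have h3 := a2 σ
      change Dg.π (ψ σ) = _ at h3
      rw [h3]
      rfl
    · rw [a3' i ⟨v, hv⟩]
      exact (hTm e).1 he i ⟨v, hv⟩
    · exact a5 v hv (fun hvx => by
        obtain ⟨i, hi⟩ := (hxm v).1 hvx
        exact hvf i hi) τ hτ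
  obtain ⟨F, hF⟩ : ∃ F : (Gal(Ω/K) →* R) → ((i : Fin N) → (↥(f i) → R)),
    F = fun ρ i v => ρ (L.t v.1) := ⟨_, rfl⟩
  have hmaps : ∀ ρ ∈ RHf L Dg (fun _ => 1) ∅ ε f, F ρ ∈ T := by
    intro ρ hρ
    rw [mem_RHf' hp hζ] at hρ
    rw [hTm, hF]
    exact fun i v => (hρ.2.2.1 i v.1 v.2).1
  rw [Finset.card_eq_sum_card_fiberwise (fun ρ hρ => Finset.mem_coe.2 (hmaps ρ
    (Finset.mem_coe.1 hρ))), ← hTc, mul_comm, ← smul_eq_mul, ← Finset.sum_const]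
  refine Finset.sum_congr rfl fun e he => ?_
  obtain ⟨ψ, hψ, hψe⟩ := hex e he
  have hψF : F ψ = e := by
    rw [hF]
    funext i v
    exact hψe i v
  unfold rhn
  symm
  refine Finset.card_bij (fun χ hχ => tw Dg χ ψ ((rhn_mem hp hζ Dg χ).1 hχ).2.1) ?_ ?_ ?_
  · intro χ hχ
    obtain ⟨c0, c1, c2⟩ := (rhn_mem hp hζ Dg χ).1 hχ
    rw [Finset.mem_filter, mem_RHf' hp hζ]
    refine ⟨rh_tw L Dg _ ∅ ε f ψ hψ χ c1 c0 (fun i v hv => ⟨1, ?_⟩)
      (fun v hv => absurd hv (Finset.notMem_empty v)) (fun v hv _ _ => c2 v hv), ?_⟩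
    · rw [c2 v (hS i v hv) _ (uinr_t L v)]
      group
    · rw [← hψF, hF]
      funext i v
      change tw Dg χ ψ c1 (L.t v.1) = ψ (L.t v.1)
      rw [tw_apply, c2 v.1 (hS i v.1 v.2) _ (uinr_t L v.1), one_mul]
  · intro χ hχ χ' hχ' h
    apply MonoidHom.ext
    intro σ
    have h1 := DFunLike.congr_fun h σ
    rw [tw_apply, tw_apply] at h1
    exact mul_right_cancel h1
  · intro ρ hρ
    rw [Finset.mem_filter, mem_RHf' hp hζ] at hρ
    obtain ⟨hρ, hρe⟩ := hρ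
    obtain ⟨χ, hχ, h1, h2, h3⟩ := rh_same hp hζ L Dg (fun _ => 1) ∅ ε f ψ ρ hψ hρ
      (fun i v hv => by
        have h4 := hρe.trans hψF.symm
        rw [hF] at h4
        exact congrFun (congrFun h4 i) ⟨v, hv⟩)
    exact ⟨χ, (rhn_mem hp hζ Dg χ).2 ⟨h2, hχ, h3⟩, h1.symm⟩

end H77.PC3
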