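import Pool.Agent.H77.PC3.CLx
import Pool.Agent.H57.LOW.Loe

/-!
# H77-PC3-CLY: `RCard`
-/

set_option autoImplicit false

open scoped NumberField
open IsDedekindDomain
open scoped Classical

noncomputable section

namespace H77.PC3

open H63.MA H38.BB H38.BG H57.PC H57.BRA H63.BU H57.LOW

variable {K : Type} [Field K] [NumberField K] {Ω : Type} [Field Ω] [Algebra K Ω]
  [IsAlgClosure K Ω] {p : ℕ} {ζ : K} {m l w N : ℕ} {P R : Type} [Group P] [Group R]

theorem rcard [NeZero p] [Finite R] (hp : p.Prime) (hp2 : MOne p K)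
    (hζ : IsPrimitiveRoot ζ p) (hz : Z2 p K) {D : RD0 K p ζ} {L : LDs D Ω} (Fr : FR L)
    (Dg : GP p m l w N P R) : RCard L Dg (rhn L Dg) := by
  refine ⟨rhn_pos hp hζ L Dg, fun f hdj hg hq => ⟨fun hc => ?_, fun hc => ?_⟩⟩
  · exact rh_card_eq hp hp2 hζ hz Fr Dg (fun _ _ => 1) f hdj (fun i v hv => (hg i v hv).1) hq hc
  · rw [Finset.eq_empty_iff_forall_notMem]
    intro ρ hρ
    refine hc fun i v hv => ?_
    exact rh_empty Fr Dg (fun _ _ => 1) f (fun i v hv => (hg i v hv).1) ρ (fun _ => 1) ∅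
      (mem_RHf hρ) i v hv

end H77.PC3
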