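import Pool.Agent.H77.PC3.CDef
import Pool.Agent.H63.BU.UInr
import Pool.Agent.H63.MA.GLift

/-!
# H77-PC3-CTW: coordinates of `V`, `W`; twists of homomorphisms to `R` by homomorphisms to `V`; Kummer characters with values in `V`

* `v_pow`, `v_ext`, `cv_one`, `cv_pow`, `cw_one`, `w_ext`, `cm_eq` (the commutator of any lifts), `cm_conj`.
* `tw Dg χ ρ hχ`: `σ ↦ χ σ * ρ σ`; `tw_ft`; `rh_tw`: twists of elements of `RH`; `rh_diff`: two elements of `RH` differ by a twist; `rh_same`: if they agree at the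
  `t v`, `v ∈ f i`, the twist is trivial on all inertia groups outside `S0`.
* `kch Dg x`: the homomorphism to `V` with coordinates `kk p ζ (x k)`; `kch_ft`; `kch_all`: all homomorphisms of finite type to `V` are of this form.
-/

set_option autoImplicit false

open scoped NumberField
open IsDedekindDomain
open scoped Classical

noncomputable section

namespace H77.PC3

open H63.MA H38.BB H38.BG H57.PC H63.BU

section group

variable {p m l w N : ℕ} {P R : Type} [Group P] [Group R]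

theorem cv_one (Dg : GP p m l w N P R) (k : Fin l) : Dg.cv k 1 = 0 := by
  have h := Dg.vadd k 1 1 (map_one _) (map_one _)
  rw [one_mul] at h
  exact left_eq_add.1 h

theorem cv_pow (Dg : GP p m l w N P R) (k : Fin l) (v : R) (hv : Dg.π v = 1) (n : ℕ) :
    Dg.cv k (v ^ n) = n * Dg.cv k v := by
  induction n with
  | zero => rw [pow_zero, cv_one, Nat.cast_zero, zero_mul]
  | succ n ih =>
    rw [pow_succ, Dg.vadd k _ _ (by rw [map_pow, hv, one_pow]) hv, ih, Nat.cast_succ, add_mul,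
      one_mul]

theorem cv_inv (Dg : GP p m l w N P R) (k : Fin l) (v : R) (hv : Dg.π v = 1) :
    Dg.cv k v⁻¹ = - Dg.cv k v := by
  have h := Dg.vadd k v⁻¹ v (by rw [map_inv, hv, inv_one]) hv
  rw [inv_mul_cancel, cv_one] at h
  exact eq_neg_of_add_eq_zero_left h.symm

theorem v_pow (Dg : GP p m l w N P R) (v : R) (hv : Dg.π v = 1) : v ^ p = 1 := by
  refine Dg.vinj _ (by rw [map_pow, hv, one_pow]) fun k => ?_
  rw [cv_pow Dg k v hv, ZMod.natCast_self, zero_mul]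

theorem v_ext (Dg : GP p m l w N P R) (u v : R) (hu : Dg.π u = 1) (hv : Dg.π v = 1)
    (h : ∀ k, Dg.cv k u = Dg.cv k v) : u = v := by
  have h1 : Dg.π v⁻¹ = 1 := by rw [map_inv, hv, inv_one]
  have h2 : u * v⁻¹ = 1 := by
    refine Dg.vinj _ (by rw [map_mul, hu, h1, one_mul]) fun k => ?_
    rw [Dg.vadd k u v⁻¹ hu h1, cv_inv Dg k v hv, h k, add_neg_cancel]
  exact mul_inv_eq_one.1 h2

theorem cw_one (Dg : GP p m l w N P R) (k : Fin w) : Dg.cw k 1 = 0 := by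
  have h := Dg.wadd k 1 1 (map_one _) (map_one _)
  rw [one_mul] at h
  exact left_eq_add.1 h

theorem cw_inv (Dg : GP p m l w N P R) (k : Fin w) (u : P) (hu : Dg.q u = 1) :
    Dg.cw k u⁻¹ = - Dg.cw k u := by
  have h := Dg.wadd k u⁻¹ u (by rw [map_inv, hu, inv_one]) hu
  rw [inv_mul_cancel, cw_one] at h
  exact eq_neg_of_add_eq_zero_left h.symm

theorem cw_pow (Dg : GP p m l w N P R) (k : Fin w) (u : P) (hu : Dg.q u = 1) (n : ℕ) :
    Dg.cw k (u ^ n) = n * Dg.cw k u := by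
  induction n with
  | zero => rw [pow_zero, cw_one, Nat.cast_zero, zero_mul]
  | succ n ih =>
    rw [pow_succ, Dg.wadd k _ _ (by rw [map_pow, hu, one_pow]) hu, ih, Nat.cast_succ, add_mul,
      one_mul]

theorem w_pow (Dg : GP p m l w N P R) (u : P) (hu : Dg.q u = 1) : u ^ p = 1 := by
  refine Dg.winj _ (by rw [map_pow, hu, one_pow]) fun k => ?_
  rw [cw_pow Dg k u hu, ZMod.natCast_self, zero_mul]

theorem w_ext (Dg : GP p m l w N P R) (u v : P) (hu : Dg.q u = 1) (hv : Dg.q v = 1)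
    (h : ∀ k, Dg.cw k u = Dg.cw k v) : u = v := by
  have h1 : Dg.q v⁻¹ = 1 := by rw [map_inv, hv, inv_one]
  have h2 : u * v⁻¹ = 1 := by
    refine Dg.winj _ (by rw [map_mul, hu, h1, one_mul]) fun k => ?_
    rw [Dg.wadd k u v⁻¹ hu h1, cw_inv Dg k v hv, h k, add_neg_cancel]
  exact mul_inv_eq_one.1 h2

/-- the commutator only depends on the images in `R` -/
theorem com_lift (Dg : GP p m l w N P R) (x y x' y' : P) (hx : Dg.q x = Dg.q x')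
    (hy : Dg.q y = Dg.q y') : x * y * x⁻¹ * y⁻¹ = x' * y' * x'⁻¹ * y'⁻¹ := by
  obtain ⟨a, ha, rfl⟩ : ∃ a, Dg.q a = 1 ∧ x = a * x' :=
    ⟨x * x'⁻¹, by rw [map_mul, map_inv, hx, mul_inv_cancel], by group⟩
  obtain ⟨b, hb, rfl⟩ : ∃ b, Dg.q b = 1 ∧ y = b * y' :=
    ⟨y * y'⁻¹, by rw [map_mul, map_inv, hy, mul_inv_cancel], by group⟩
  have h1 : a * x' * (b * y') * (a * x')⁻¹ * (b * y')⁻¹ =
      a * (x' * b) * y' * x'⁻¹ * a⁻¹ * y'⁻¹ * b⁻¹ := by group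
  rw [h1, ← Dg.wcen b hb x', Dg.wcen a ha (b * x')]
  have h2 : b * x' * a * y' * x'⁻¹ * a⁻¹ * y'⁻¹ * b⁻¹ =
      b * (x' * (a * (y' * x'⁻¹)) * a⁻¹ * y'⁻¹) * b⁻¹ := by group
  rw [h2, Dg.wcen a ha (y' * x'⁻¹), Dg.wcen b hb]
  group

theorem cm_eq (Dg : GP p m l w N P R) (x y : P) (k : Fin w) :
    Dg.cm (Dg.q x) (Dg.q y) k = Dg.cw k (x * y * x⁻¹ * y⁻¹) := by
  unfold GP.cm
  rw [com_lift Dg _ _ x y (Function.surjInv_eq Dg.qs _) (Function.surjInv_eq Dg.qs _)]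

end group

variable {K : Type} [Field K] [NumberField K] {Ω : Type} [Field Ω] [Algebra K Ω]
  {p : ℕ} {ζ : K} {D : RD0 K p ζ} {m l w N : ℕ} {P R : Type} [Group P] [Group R]

/-- the twist of `ρ` by a homomorphism `χ` to `V` -/
def tw (Dg : GP p m l w N P R) (χ ρ : Gal(Ω/K) →* R) (hχ : ∀ σ, Dg.π (χ σ) = 1) :
    Gal(Ω/K) →* R where
  toFun σ := χ σ * ρ σ
  map_one' := by rw [map_one, map_one, one_mul]
  map_mul' σ τ := by
    rw [map_mul, map_mul, mul_assoc, mul_assoc, ← mul_assoc (χ τ), Dg.vcen _ (hχ τ), mul_assoc]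

omit [NumberField K] in
theorem tw_apply (Dg : GP p m l w N P R) (χ ρ : Gal(Ω/K) →* R) (hχ : ∀ σ, Dg.π (χ σ) = 1)
    (σ : Gal(Ω/K)) : tw Dg χ ρ hχ σ = χ σ * ρ σ := rfl

omit [NumberField K] in
theorem tw_ft (Dg : GP p m l w N P R) (χ ρ : Gal(Ω/K) →* R) (hχ : ∀ σ, Dg.π (χ σ) = 1)
    (h0 : H38.ML.FT χ) (h1 : H38.ML.FT ρ) : H38.ML.FT (tw Dg χ ρ hχ) := by
  obtain ⟨E, hE, hle⟩ := h0
  obtain ⟨E', hE', hle'⟩ := h1
  refine ⟨E ⊔ E', inferInstance, fun σ hσ => ?_⟩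
  have h1 : σ ∈ E.fixingSubgroup := IntermediateField.fixingSubgroup_antitone le_sup_left hσ
  have h2 : σ ∈ E'.fixingSubgroup := IntermediateField.fixingSubgroup_antitone le_sup_right hσ
  have h3 := hle h1
  have h4 := hle' h2
  rw [MonoidHom.mem_ker] at h3 h4 ⊢
  rw [tw_apply, h3, h4, one_mul]

/-- twists stay in `RH` -/
theorem rh_tw [NeZero p] (L : LDs D Ω) (Dg : GP p m l w N P R) (b : Fin m → Kˣ)
    (E : Finset (Pl K)) (ε : Pl K → Gal(Ω/K) → R) (f : Fin N → Finset (Pl K))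
    (ρ : Gal(Ω/K) →* R) (hρ : ρ ∈ RH L Dg b E ε f) (χ : Gal(Ω/K) →* R)
    (hχ : ∀ σ, Dg.π (χ σ) = 1) (h0 : H38.ML.FT χ)
    (h1 : ∀ i, ∀ v ∈ f i, ∃ r : R, χ (L.t v) = r * ρ (L.t v) * r⁻¹ * (ρ (L.t v))⁻¹)
    (h2 : ∀ v ∈ E, ∀ τ ∈ inr L v, χ τ = 1)
    (h3 : ∀ v, v ∉ D.S0 → v ∉ E → (∀ i, v ∉ f i) → ∀ τ ∈ inr L v, χ τ = 1) :
    tw Dg χ ρ hχ ∈ RH L Dg b E ε f := by
  obtain ⟨r0, r1, r2, r3, r4⟩ := hρ
  refine ⟨tw_ft Dg χ ρ hχ h0 r0, fun σ k => ?_, fun i v hv => ⟨?_, fun τ hτ => ?_⟩,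
    fun v hv τ hτ => ?_, fun v hv hvE hvf τ hτ => ?_⟩
  · rw [tw_apply, map_mul, hχ, one_mul]
    exact r1 σ k
  · obtain ⟨r, hr⟩ := h1 i v hv
    rw [tw_apply, hr, inv_mul_cancel_right]
    exact (isConj_iff.2 ⟨r, rfl⟩ : IsConj (ρ (L.t v)) (r * ρ (L.t v) * r⁻¹)).symm.trans
      (r2 i v hv).1
  · rw [tw_apply, (show Commute (χ τ) (ρ τ) from Dg.vcen _ (hχ τ) _).mul_pow,
      v_pow Dg _ (hχ τ), one_mul]
    exact (r2 i v hv).2 τ hτ
  · rw [tw_apply, h2 v hv τ hτ, one_mul]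
    exact r3 v hv τ hτ
  · rw [tw_apply, h3 v hv hvE hvf τ hτ, one_mul]
    exact r4 v hv hvE hvf τ hτ

/-- two elements of `RH` differ by a twist -/
theorem rh_diff [NeZero p] (L : LDs D Ω) (Dg : GP p m l w N P R) (b : Fin m → Kˣ)
    (E : Finset (Pl K)) (ε : Pl K → Gal(Ω/K) → R) (f : Fin N → Finset (Pl K))
    (ρ ρ' : Gal(Ω/K) →* R) (hρ : ρ ∈ RH L Dg b E ε f) (hρ' : ρ' ∈ RH L Dg b E ε f) :
    ∃ (χ : Gal(Ω/K) →* R) (hχ : ∀ σ, Dg.π (χ σ) = 1), ρ' = tw Dg χ ρ hχ ∧ H38.ML.FT χ ∧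
      (∀ i, ∀ v ∈ f i, ∃ r : R, χ (L.t v) = r * ρ (L.t v) * r⁻¹ * (ρ (L.t v))⁻¹) ∧
      (∀ v ∈ E, ∀ τ ∈ inr L v, χ τ = 1) ∧
      ∀ v, v ∉ D.S0 → v ∉ E → (∀ i, v ∉ f i) → ∀ τ ∈ inr L v, χ τ = 1 := by
  obtain ⟨r0, r1, r2, r3, r4⟩ := hρ
  obtain ⟨s0, s1, s2, s3, s4⟩ := hρ'
  have hπ : ∀ σ, Dg.π (ρ' σ * (ρ σ)⁻¹) = 1 := by
    intro σ
    have h : Dg.π (ρ' σ) = Dg.π (ρ σ) := by
      apply Multiplicative.toAdd.injective
      funext k
      rw [← r1 σ k, ← s1 σ k]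
    rw [map_mul, map_inv, h, mul_inv_cancel]
  let χ : Gal(Ω/K) →* R :=
    { toFun := fun σ => ρ' σ * (ρ σ)⁻¹
      map_one' := by rw [map_one, map_one, inv_one, mul_one]
      map_mul' := by
        intro σ τ
        rw [map_mul, map_mul, mul_inv_rev]
        have h1 : ρ' σ * ρ' τ * ((ρ τ)⁻¹ * (ρ σ)⁻¹) = ρ' σ * ((ρ' τ * (ρ τ)⁻¹) * (ρ σ)⁻¹) := by
          group
        rw [h1, Dg.vcen _ (hπ τ), ← mul_assoc] }
  have hχ : ∀ σ, χ σ = ρ' σ * (ρ σ)⁻¹ := fun _ => rfl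
  refine ⟨χ, hπ, ?_, ?_, ?_, ?_, ?_⟩
  · apply MonoidHom.ext
    intro σ
    rw [tw_apply, hχ, inv_mul_cancel_right]
  · obtain ⟨E, hE, hle⟩ := r0
    obtain ⟨E', hE', hle'⟩ := s0
    refine ⟨E ⊔ E', inferInstance, fun σ hσ => ?_⟩
    have h1 : σ ∈ E.fixingSubgroup := IntermediateField.fixingSubgroup_antitone le_sup_left hσ
    have h2 : σ ∈ E'.fixingSubgroup := IntermediateField.fixingSubgroup_antitone le_sup_right hσ
    have h3 := hle h1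
    have h4 := hle' h2
    rw [MonoidHom.mem_ker] at h3 h4 ⊢
    rw [hχ, h3, h4, inv_one, mul_one]
  · intro i v hv
    obtain ⟨r, hr⟩ := isConj_iff.1 ((r2 i v hv).1.trans (s2 i v hv).1.symm)
    exact ⟨r, by rw [hχ, ← hr]⟩
  · intro v hv τ hτ
    rw [hχ, r3 v hv τ hτ, s3 v hv τ hτ, mul_inv_cancel]
  · intro v hv hvE hvf τ hτ
    rw [hχ, r4 v hv hvE hvf τ hτ, s4 v hv hvE hvf τ hτ, inv_one, mul_one]

/-- a homomorphism to `V` is determined on the inertia group of `v` by its value at `t v` -/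
theorem tw_inr [IsAlgClosure K Ω] [Finite R] (hp : p.Prime) (hζ : IsPrimitiveRoot ζ p)
    (L : LDs D Ω) (Dg : GP p m l w N P R) (χ : Gal(Ω/K) →* R) (hχ : ∀ σ, Dg.π (χ σ) = 1)
    (h0 : H38.ML.FT χ) (v : Pl K) (hv : v ∉ D.S0) (τ : Gal(Ω/K)) (hτ : τ ∈ inr L v) :
    χ τ = χ (L.t v) ^ (kk p ζ (D.pi v) τ).val :=
  tm_z hp hζ L χ h0 v hv (fun σ _ => v_pow Dg _ (hχ σ)) τ hτ

/-- two elements of `RH` with the same labels differ by a homomorphism to `V` which is trivial on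
all inertia groups outside `S0` -/
theorem rh_same [NeZero p] [IsAlgClosure K Ω] [Finite R] (hp : p.Prime)
    (hζ : IsPrimitiveRoot ζ p) (L : LDs D Ω) (Dg : GP p m l w N P R) (b : Fin m → Kˣ)
    (E : Finset (Pl K)) (ε : Pl K → Gal(Ω/K) → R) (f : Fin N → Finset (Pl K))
    (ρ ρ' : Gal(Ω/K) →* R) (hρ : ρ ∈ RH L Dg b E ε f) (hρ' : ρ' ∈ RH L Dg b E ε f)
    (h : ∀ i, ∀ v ∈ f i, ρ' (L.t v) = ρ (L.t v)) :
    ∃ (χ : Gal(Ω/K) →* R) (hχ : ∀ σ, Dg.π (χ σ) = 1), ρ' = tw Dg χ ρ hχ ∧ H38.ML.FT χ ∧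
      ∀ v, v ∉ D.S0 → ∀ τ ∈ inr L v, χ τ = 1 := by
  obtain ⟨χ, hχ, h1, h2, -, h4, h5⟩ := rh_diff L Dg b E ε f ρ ρ' hρ hρ'
  refine ⟨χ, hχ, h1, h2, fun v hv τ hτ => ?_⟩
  by_cases hvE : v ∈ E
  · exact h4 v hvE τ hτ
  by_cases hvf : ∃ i, v ∈ f i
  · obtain ⟨i, hi⟩ := hvf
    have h6 := h i v hi
    rw [h1, tw_apply] at h6
    rw [tw_inr hp hζ L Dg χ hχ h2 v hv τ hτ, mul_eq_right.1 h6, one_pow]
  · exact h5 v hv hvE (fun i hi => hvf ⟨i, hi⟩) τ hτ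

/-- the element of `V` with given coordinates -/
def vof (Dg : GP p m l w N P R) (y : Fin l → ZMod p) : R := (Dg.vsur y).choose

theorem vof_pi (Dg : GP p m l w N P R) (y : Fin l → ZMod p) : Dg.π (vof Dg y) = 1 :=
  (Dg.vsur y).choose_spec.1

theorem vof_cv (Dg : GP p m l w N P R) (y : Fin l → ZMod p) (k : Fin l) :
    Dg.cv k (vof Dg y) = y k := (Dg.vsur y).choose_spec.2 k

theorem vof_add (Dg : GP p m l w N P R) (y y' : Fin l → ZMod p) :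
    vof Dg (y + y') = vof Dg y * vof Dg y' := by
  refine v_ext Dg _ _ (vof_pi Dg _) (by rw [map_mul, vof_pi, vof_pi, one_mul]) fun k => ?_
  rw [vof_cv, Dg.vadd k _ _ (vof_pi Dg _) (vof_pi Dg _), vof_cv, vof_cv, Pi.add_apply]

theorem vof_zero (Dg : GP p m l w N P R) : vof Dg 0 = 1 := by
  refine v_ext Dg _ _ (vof_pi Dg _) (map_one _) fun k => ?_
  rw [vof_cv, cv_one, Pi.zero_apply]

theorem vof_of (Dg : GP p m l w N P R) (v : R) (hv : Dg.π v = 1) :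
    vof Dg (fun k => Dg.cv k v) = v :=
  v_ext Dg _ _ (vof_pi Dg _) hv fun k => vof_cv Dg _ k

variable [IsAlgClosure K Ω]

/-- the homomorphism to `V` with Kummer coordinates -/
def kch (ζ : K) (Ω : Type) [Field Ω] [Algebra K Ω] (Dg : GP p m l w N P R) (x : Fin l → Kˣ) :
    Gal(Ω/K) →* R where
  toFun σ := vof Dg fun k => kk p ζ (x k) σ
  map_one' := by
    rw [show (fun k => kk p ζ (x k) (1 : Gal(Ω/K))) = 0 from ?_, vof_zero]
    funext k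
    unfold kk
    rw [map_one, toAdd_one, Pi.zero_apply]
  map_mul' σ τ := by
    rw [← vof_add]
    congr 1
    funext k
    unfold kk
    rw [map_mul, toAdd_mul, Pi.add_apply]

omit [NumberField K] [IsAlgClosure K Ω] in
theorem kch_apply (Dg : GP p m l w N P R) (x : Fin l → Kˣ) (σ : Gal(Ω/K)) :
    kch ζ Ω Dg x σ = vof Dg fun k => kk p ζ (x k) σ := rfl

omit [NumberField K] [IsAlgClosure K Ω] in
theorem kch_pi (Dg : GP p m l w N P R) (x : Fin l → Kˣ) (σ : Gal(Ω/K)) :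
    Dg.π (kch ζ Ω Dg x σ) = 1 := vof_pi Dg _

omit [NumberField K] [IsAlgClosure K Ω] in
theorem kch_cv (Dg : GP p m l w N P R) (x : Fin l → Kˣ) (σ : Gal(Ω/K)) (k : Fin l) :
    Dg.cv k (kch ζ Ω Dg x σ) = kk p ζ (x k) σ := vof_cv Dg _ k

theorem kch_mul (hp : p.Prime) (hζ : IsPrimitiveRoot ζ p) (Dg : GP p m l w N P R)
    (x y : Fin l → Kˣ) (σ : Gal(Ω/K)) :
    kch ζ Ω Dg (fun k => x k * y k) σ = kch ζ Ω Dg x σ * kch ζ Ω Dg y σ := by
  rw [kch_apply, kch_apply, kch_apply, ← vof_add]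
  congr 1
  funext k
  rw [Pi.add_apply, kk_mul_arg hp hζ]

theorem kch_ft (hp : p.Prime) (hζ : IsPrimitiveRoot ζ p) (Dg : GP p m l w N P R)
    (x : Fin l → Kˣ) : H38.ML.FT (kch ζ Ω Dg x) := by
  have hL : Lev (fun (σ : Gal(Ω/K)) k => kk p ζ (x k) σ) :=
    glift_lev_pi (fun k σ => kk p ζ (x k) σ) fun k => glift_lev_kk hp hζ (x k)
  obtain ⟨E, hE, h⟩ := hL
  refine ⟨E, hE, fun u hu => ?_⟩
  have h1 := h 1 u hu
  rw [one_mul] at h1
  change (fun k => kk p ζ (x k) u) = fun k => kk p ζ (x k) (1 : Gal(Ω/K)) at h1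
  rw [MonoidHom.mem_ker, kch_apply, h1, show (fun k => kk p ζ (x k) (1 : Gal(Ω/K))) = 0 from ?_, vof_zero]
  funext k
  rw [kk_one, Pi.zero_apply]

/-- all homomorphisms of finite type to `V` -/
theorem kch_all (hp : p.Prime) (hζ : IsPrimitiveRoot ζ p) (Dg : GP p m l w N P R)
    (χ : Gal(Ω/K) →* R) (hχ : ∀ σ, Dg.π (χ σ) = 1) (h0 : H38.ML.FT χ) :
    ∃ x : Fin l → Kˣ, χ = kch ζ Ω Dg x := by
  have h1 : ∀ k, ∃ a : Kˣ, ∀ σ : Gal(Ω/K), kk p ζ a σ = Dg.cv k (χ σ) := by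
    intro k
    let c : Gal(Ω/K) →* Multiplicative (ZMod p) :=
      { toFun := fun σ => Multiplicative.ofAdd (Dg.cv k (χ σ))
        map_one' := by rw [map_one, cv_one, ofAdd_zero]
        map_mul' := fun σ τ => by rw [map_mul, Dg.vadd k _ _ (hχ σ) (hχ τ), ofAdd_add] }
    obtain ⟨a, ha⟩ := kc_all hp hζ c (by
      obtain ⟨E, hE, hle⟩ := h0
      refine ⟨E, hE, fun σ hσ => ?_⟩
      have h2 : χ σ = 1 := hle hσ
      rw [MonoidHom.mem_ker]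
      change Multiplicative.ofAdd (Dg.cv k (χ σ)) = 1
      rw [h2, cv_one, ofAdd_zero])
    refine ⟨a, fun σ => ?_⟩
    unfold kk
    rw [← ha]
    rfl
  choose x hx using h1
  refine ⟨x, MonoidHom.ext fun σ => ?_⟩
  exact v_ext Dg _ _ (hχ σ) (kch_pi Dg x σ) fun k => by rw [kch_cv, hx]

/-- the value at `t v` -/
theorem kch_t (hp : p.Prime) (hζ : IsPrimitiveRoot ζ p) (L : LDs D Ω) (Dg : GP p m l w N P R)
    (x : Fin l → Kˣ) (v : Pl K) (hv : v ∉ D.S0) :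
    kch ζ Ω Dg x (L.t v) = vof Dg fun k => ((ord v (x k) : ℤ) : ZMod p) := by
  rw [kch_apply]
  congr 1
  funext k
  have ht : L.t v = (L.ld v hv).t := dif_pos hv
  rw [ht, ld_kk_t hp hζ (fun h => hv (D.above v h)) (D.pi_self v hv) (L.ld v hv)]

/-- the values on the inertia group at `v` -/
theorem kch_inr (hp : p.Prime) (hζ : IsPrimitiveRoot ζ p) [Finite R] (L : LDs D Ω)
    (Dg : GP p m l w N P R) (x : Fin l → Kˣ) (v : Pl K) (hv : v ∉ D.S0)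
    (hx : ∀ k, ((ord v (x k) : ℤ) : ZMod p) = 0) (τ : Gal(Ω/K)) (hτ : τ ∈ inr L v) :
    kch ζ Ω Dg x τ = 1 := by
  rw [tw_inr hp hζ L Dg _ (kch_pi Dg x) (kch_ft hp hζ Dg x) v hv τ hτ, kch_t hp hζ L Dg x v hv,
    show (fun k => ((ord v (x k) : ℤ) : ZMod p)) = 0 from funext hx, vof_zero, one_pow]

/-- labels can be changed: for `v ∈ f i` and any `y v ∈ V` of the form `r ρ (t v) r⁻¹ ρ (t v)⁻¹` there is a twist with `χ (t v) = y v`;
it is trivial on the inertia groups outside `S0` and the `f i` -/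
theorem kch_ex (hp : p.Prime) (hζ : IsPrimitiveRoot ζ p) [Finite R] (L : LDs D Ω)
    (Dg : GP p m l w N P R) (x : Finset (Pl K)) (hx : ∀ v ∈ x, v ∉ D.S0) (y : Pl K → R)
    (hy : ∀ v ∈ x, Dg.π (y v) = 1) :
    ∃ χ : Gal(Ω/K) →* R, (∀ σ, Dg.π (χ σ) = 1) ∧ H38.ML.FT χ ∧ (∀ v ∈ x, χ (L.t v) = y v) ∧
      ∀ v, v ∉ D.S0 → v ∉ x → ∀ τ ∈ inr L v, χ τ = 1 := by
  have : NeZero p := ⟨hp.ne_zero⟩
  let X : Fin l → Kˣ := fun k => ∏ v ∈ x, D.pi v ^ (Dg.cv k (y v)).val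
  have hord : ∀ v, v ∉ D.S0 → ∀ k, ((ord v (X k) : ℤ) : ZMod p) =
      if v ∈ x then Dg.cv k (y v) else 0 := by
    intro v hv k
    have h1 : ord v (X k) = ∑ u ∈ x, ((Dg.cv k (y u)).val : ℤ) * ord v (D.pi u) := by
      change ord v (∏ u ∈ x, _) = _
      rw [ord_prod]
      exact Finset.sum_congr rfl fun u _ => ord_pow v (D.pi u) _
    rw [h1]
    split_ifs with hvx
    · rw [Finset.sum_eq_single v]
      · rw [D.pi_self v hv, mul_one, Int.cast_natCast, ZMod.natCast_zmod_val]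
      · intro u hu huv
        rw [D.pi_ne u v (hx u hu) hv huv.symm, mul_zero]
      · intro h
        exact absurd hvx h
    · rw [Finset.sum_eq_zero, Int.cast_zero]
      intro u hu
      have huv : v ≠ u := by
        rintro rfl
        exact hvx hu
      rw [D.pi_ne u v (hx u hu) hv huv, mul_zero]
  refine ⟨kch ζ Ω Dg X, kch_pi Dg X, kch_ft hp hζ Dg X, fun v hv => ?_, fun v hv hvx τ hτ => ?_⟩
  · rw [kch_t hp hζ L Dg X v (hx v hv)]
    have h2 : (fun k => ((ord v (X k) : ℤ) : ZMod p)) = fun k => Dg.cv k (y v) := by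
      funext k
      rw [hord v (hx v hv) k, if_pos hv]
    rw [h2, vof_of Dg _ (hy v hv)]
  · exact kch_inr hp hζ L Dg X v hv (fun k => by rw [hord v hv k, if_neg hvx]) τ hτ

end H77.PC3
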