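import Pool.Agent.H77.PC3.CKa

/-!
# H77-PC3-CKU: the Kummer data of a surjective homomorphism to a group with projections
-/

set_option autoImplicit false

open scoped NumberField
open IsDedekindDomain
open scoped Classical

noncomputable section

namespace H77.PC3

open H63.MA H38.BB H38.BG H63.BU H77.AB H57.PC

theorem cku {K : Type} [Field K] [NumberField K] {Ω : Type} [Field Ω] [Algebra K Ω]
    [IsAlgClosure K Ω] {p : ℕ} [NeZero p] {ζ : K} {m l w N : ℕ} {G P H R : Type}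
    [Group G] [Finite G] [Group P] [Group H] [Group R]
    (hp : p.Prime) (hζ : IsPrimitiveRoot ζ p) (D : RD0 K p ζ) (L : LDs D Ω)
    (Q : GQ p m l w N G P H R) (U : Finset Kˣ) (hU : UR D U) (φ : Gal(Ω/K) →* G)
    (hφ : H38.ML.FT φ) (hs : Function.Surjective φ) (f : Fin N → Finset (Pl K))
    (E : Finset (Pl K)) (hf : ∀ i v, v ∈ f i ↔ TyC Q.cl L φ i v)
    (hE : ∀ v, v ∈ E ↔ Rm L φ v ∧ ∀ i, ¬ TyC Q.cl L φ i v) :
    ∃ b ∈ Bb D U E m, BS2 D b E ∧
      (∀ (σ : Gal(Ω/K)) k, kk p ζ (akR D Q.Dg.cr b f k) σ =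
        Multiplicative.toAdd (Q.Dg.π (Q.Dg.q (Q.pr (φ σ)))) k) ∧ SpR Q.Dg.cr b f := by
  obtain ⟨b, hb, hbE, hbk⟩ := cka hp hζ D L Q.cl U hU φ hφ f E hf hE
    ((Q.Dg.π.comp Q.Dg.q).comp Q.pr)
  have hx : ∀ i, Q.Dg.cr.x i = Multiplicative.toAdd (((Q.Dg.π.comp Q.Dg.q).comp Q.pr) (Q.cl.g i)) := by
    intro i
    change Q.Dg.s i = _
    unfold GP.s
    rw [MonoidHom.comp_apply, MonoidHom.comp_apply, Q.hcl]
  have hk : ∀ (σ : Gal(Ω/K)) k, kk p ζ (akR D Q.Dg.cr b f k) σ =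
      Multiplicative.toAdd (Q.Dg.π (Q.Dg.q (Q.pr (φ σ)))) k := by
    intro σ k
    have h1 := hbk σ k
    unfold akR
    simp only [hx]
    exact h1
  refine ⟨b, hb, hbE, hk, ?_⟩
  intro θ hθ
  by_contra hcon
  rw [not_or, not_exists, not_not] at hcon
  obtain ⟨h0, hpow⟩ := hcon
  have h0' : ∀ i, f i ≠ ∅ → dt θ (Q.Dg.cr.x i) = 0 := by
    intro i hi
    by_contra h
    exact h0 i ⟨hi, h⟩
  have hbp : ∀ σ : Gal(Ω/K), ∑ k, θ k * kk p ζ (b k) σ = 0 := by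
    intro σ
    have h1 := (kk_eq_zero_iff (Ω := Ω) hp hζ _).2 hpow σ
    unfold bp at h1
    rw [kk_prod_arg hp hζ] at h1
    rw [← h1]
    refine Finset.sum_congr rfl fun j _ => ?_
    have h3 := kk_zpow_arg hp hζ (b j) ((θ j).val : ℤ) σ
    rw [zpow_natCast] at h3
    rw [h3, Int.cast_natCast, ZMod.natCast_zmod_val]
  have hall : ∀ σ : Gal(Ω/K),
      ∑ k, θ k * Multiplicative.toAdd (Q.Dg.π (Q.Dg.q (Q.pr (φ σ)))) k = 0 := by
    intro σ
    have h1 : ∀ k, Multiplicative.toAdd (Q.Dg.π (Q.Dg.q (Q.pr (φ σ)))) k =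
        kk p ζ (b k) σ + ∑ i, ∑ w ∈ f i, Q.Dg.cr.x i k * kk p ζ (D.pi w) σ := by
      intro k
      rw [← hk σ k]
      unfold akR
      rw [kk_mul_arg hp hζ, kk_prod_arg hp hζ]
      congr 1
      refine Finset.sum_congr rfl fun i _ => ?_
      rw [kk_prod_arg hp hζ]
      refine Finset.sum_congr rfl fun w _ => ?_
      have h3 := kk_zpow_arg hp hζ (D.pi w) ((Q.Dg.cr.x i k).val : ℤ) σ
      rw [zpow_natCast] at h3
      rw [h3, Int.cast_natCast, ZMod.natCast_zmod_val]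
    simp only [h1, mul_add, Finset.sum_add_distrib]
    rw [hbp σ, zero_add]
    simp only [Finset.mul_sum]
    rw [Finset.sum_comm]
    refine Finset.sum_eq_zero fun i _ => ?_
    rw [Finset.sum_comm]
    refine Finset.sum_eq_zero fun w hw => ?_
    have h2 := h0' i (Finset.ne_empty_of_mem hw)
    unfold dt at h2
    have h3 : ∑ k, θ k * (Q.Dg.cr.x i k * kk p ζ (D.pi w) σ) =
        (∑ k, θ k * Q.Dg.cr.x i k) * kk p ζ (D.pi w) σ := by
      rw [Finset.sum_mul]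
      exact Finset.sum_congr rfl fun k _ => by ring
    rw [h3, h2, zero_mul]
  apply hθ
  funext k
  obtain ⟨r, hr⟩ := Q.Dg.πs (Multiplicative.ofAdd (Pi.single k (1 : ZMod p)))
  obtain ⟨y, rfl⟩ := Q.Dg.qs r
  obtain ⟨g, rfl⟩ := Q.prs y
  obtain ⟨σ, rfl⟩ := hs g
  have h8 := hall σ
  rw [hr, toAdd_ofAdd, Finset.sum_eq_single k] at h8
  · rwa [Pi.single_eq_same, mul_one] at h8
  · intro j _ hj
    rw [Pi.single_eq_of_ne hj, mul_zero]
  · intro h
    exact absurd (Finset.mem_univ _) h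

end H77.PC3
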