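import Pool.Agent.H77.PC3.CLh
import Pool.Agent.H77.PC3.CLo
import Pool.Agent.H57.PC.Def2

/-!
# H77-PC3-CLW: from the lower bound for the sum of the `FW f` to the lower bound for the homomorphisms to `P`, and for the fields

* `lbd_of_lb0` (`p` odd): `LB0 Dg Fr → LBd L Dg.g`.
* `lbAll_of_lb0All`: `LB0All p → LBdAll p`.
-/

set_option autoImplicit false

open scoped NumberField
open IsDedekindDomain
open scoped Classical

noncomputable section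

namespace H77.PC3

open H63.MA H38.BB H38.BG H57.PC H57.BRA H63.BU H77.AB

section

variable {K : Type} [Field K] [NumberField K] {Ω : Type} [Field Ω] [Algebra K Ω]
  {p : ℕ} {ζ : K} {D : RD0 K p ζ} {m l w N : ℕ} {P R : Type} [Group P] [Group R]

theorem lbd_of_lb0 [IsAlgClosure K Ω] [NeZero p] [Finite P] (hp : p.Prime) (h2 : p ≠ 2)
    (hp2 : MOne p K) (hζ : IsPrimitiveRoot ζ p) (hz : Z2 p K) {L : LDs D Ω} (Fr : FR L)
    (Dg : GP p m l w N P R) (h : LB0 Dg Fr) : LBd L Dg.g := by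
  obtain ⟨c, Y₀, hc, hY3, hY⟩ := h
  refine ⟨c, Y₀, hc, hY3, fun X hX => ?_⟩
  have hX0 := hY X hX
  obtain ⟨A, hA⟩ : ∃ A : Finset (Fin N → Finset (Pl K)), A =
    (Fam0 D N X).filter fun f => SpR Dg.cr (fun _ => (1 : Kˣ)) f := ⟨_, rfl⟩
  have hAm : ∀ f ∈ A, Dj f ∧ ∏ i, nr (f i) ≤ X ∧ SpR Dg.cr (fun _ => 1) f ∧
      (∀ i, qf D (f i) = 0) ∧ ∀ i, ∀ v ∈ f i, v ∉ D.S0 := by
    intro f hf
    rw [hA, Finset.mem_filter] at hf
    obtain ⟨hf, h5⟩ := hf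
    unfold Fam0 at hf
    rw [Finset.mem_filter] at hf
    obtain ⟨h1, h3, h4, h6⟩ := hf
    refine ⟨h3, h4, h5, h6, fun i v hv => ?_⟩
    exact ((atupa_mem_GF.1 (Fintype.mem_piFinset.1 h1 i)).2 v hv).1
  obtain ⟨B, hB⟩ : ∃ B : (Fin N → Finset (Pl K)) → Finset (Gal(Ω/K) →* R), B = fun f =>
    (RHf L Dg (fun _ => 1) ∅ (fun _ _ => 1) f).filter fun ρ =>
      ∀ i, ∀ v ∈ f i, cq Dg Fr ρ v = 0 := ⟨_, rfl⟩
  have hBm : ∀ f, ∀ ρ ∈ B f, ρ ∈ RH L Dg (fun _ => 1) ∅ (fun _ _ => 1) f ∧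
      ∀ i, ∀ v ∈ f i, cq Dg Fr ρ v = 0 := by
    intro f ρ hρ
    rw [hB] at hρ
    exact ⟨mem_RHf (Finset.mem_filter.1 hρ).1, (Finset.mem_filter.1 hρ).2⟩
  have hex : ∀ (f : Fin N → Finset (Pl K)) (ρ : Gal(Ω/K) →* R),
      ∃ Ps : Finset (Gal(Ω/K) →* P), f ∈ A → ρ ∈ B f →
        Ps.card = ∏ i, Dg.Wn i ^ (f i).card ∧
      ∀ ψ ∈ Ps, H38.ML.FT ψ ∧ Function.Surjective ψ ∧ (∀ σ, Dg.q (ψ σ) = ρ σ) ∧
        (∀ i, ∀ v ∈ f i, IsConj (ψ (L.t v)) (Dg.g i) ∧ ∀ τ ∈ inr L v, ψ τ ^ p = 1) ∧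
        ∀ v, v ∉ D.S0 → (∀ i, v ∉ f i) → ∀ τ ∈ inr L v, ψ τ = 1 := by
    intro f ρ
    by_cases hfA : f ∈ A
    · by_cases hρB : ρ ∈ B f
      · obtain ⟨h3, h4, h5, h6, h7⟩ := hAm f hfA
        obtain ⟨h8, h9⟩ := hBm f ρ hρB
        obtain ⟨Ps, hPs⟩ := many3 hp h2 hp2 hζ hz Fr Dg (fun _ _ => 1) f h3 h7 h6 h5 ρ h8 h9
        exact ⟨Ps, fun _ _ => hPs⟩
      · exact ⟨∅, fun _ h => absurd h hρB⟩
    · exact ⟨∅, fun h => absurd h hfA⟩
  choose Ps hPs using hex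
  -- the family is determined by the homomorphism
  have hfam : ∀ f ∈ A, ∀ ρ ∈ B f, ∀ ψ ∈ Ps f ρ, ∀ i v, v ∈ f i ↔
      v ∉ D.S0 ∧ IsConj (ψ (L.t v)) (Dg.g i) := by
    intro f hf ρ hρ ψ hψ i v
    obtain ⟨a1, a2, a3, a4, a5⟩ := (hPs f ρ hf hρ).2 ψ hψ
    constructor
    · exact fun hv => ⟨(hAm f hf).2.2.2.2 i v hv, (a4 i v hv).1⟩
    · rintro ⟨hv, hcj⟩
      by_cases hvf : ∃ j, v ∈ f j
      · obtain ⟨j, hj⟩ := hvf
        have h3 : i = j := Dg.uni i j (hcj.symm.trans (a4 j v hj).1)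
        rw [h3]
        exact hj
      · exfalso
        rw [a5 v hv (fun j hj => hvf ⟨j, hj⟩) _ (uinr_t L v)] at hcj
        exact Dg.ne i (isConj_one_right.1 hcj)
  refine ⟨A.biUnion fun f => (B f).biUnion fun ρ => Ps f ρ, ?_, ?_⟩
  · have hcard : (A.biUnion fun f => (B f).biUnion fun ρ => Ps f ρ).card =
        ∑ f ∈ A, ∑ ρ ∈ B f, ∏ i, Dg.Wn i ^ (f i).card := by
      rw [Finset.card_biUnion]
      · refine Finset.sum_congr rfl fun f hf => ?_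
        rw [Finset.card_biUnion]
        · exact Finset.sum_congr rfl fun ρ hρ => (hPs f ρ hf hρ).1
        · intro ρ hρ ρ' hρ' hne
          change Disjoint _ _
          rw [Finset.disjoint_left]
          intro ψ hψ hψ'
          apply hne
          apply MonoidHom.ext
          intro σ
          rw [← ((hPs f ρ hf hρ).2 ψ hψ).2.2.1 σ, ← ((hPs f ρ' hf hρ').2 ψ hψ').2.2.1 σ]
      · intro f hf f' hf' hne
        change Disjoint _ _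
        rw [Finset.disjoint_left]
        intro ψ hψ hψ'
        obtain ⟨ρ, hρ, hψ1⟩ := Finset.mem_biUnion.1 hψ
        obtain ⟨ρ', hρ', hψ2⟩ := Finset.mem_biUnion.1 hψ'
        apply hne
        funext i
        ext v
        rw [hfam f hf ρ hρ ψ hψ1 i v, hfam f' hf' ρ' hρ' ψ hψ2 i v]
    refine hX0.trans (le_of_eq ?_)
    rw [hcard]
    unfold F0
    rw [← Finset.sum_filter, ← hA]
    push_cast
    refine Finset.sum_congr rfl fun f _ => ?_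
    unfold FW
    rw [← Finset.sum_filter, hB]
  · intro ψ hψ
    obtain ⟨f, hf, h3⟩ := Finset.mem_biUnion.1 hψ
    obtain ⟨ρ, hρ, hψ1⟩ := Finset.mem_biUnion.1 h3
    obtain ⟨b1, b2, b3, b4, b5⟩ := hAm f hf
    obtain ⟨a1, a2, a3, a4, a5⟩ := (hPs f ρ hf hρ).2 ψ hψ1
    refine ⟨a1, a2, Finset.univ.biUnion f, fun v hv => ?_, ?_, fun v hv => ?_,
      fun v hv hvf τ hτ => ?_⟩
    · obtain ⟨i, -, hi⟩ := Finset.mem_biUnion.1 hv
      exact b5 i v hi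
    · rw [Finset.prod_biUnion (fun i _ j _ hij => b1 i j hij)]
      exact b2
    · obtain ⟨i, -, hi⟩ := Finset.mem_biUnion.1 hv
      refine ⟨i, ψ (L.t v), (a4 i v hi).1, fun τ hτ => ?_⟩
      rw [tm_z hp hζ L ψ a1 v (b5 i v hi) (a4 i v hi).2 τ hτ]
      exact Subgroup.pow_mem _ (Subgroup.mem_zpowers _) _
    · exact a5 v hv (fun i hi => hvf (Finset.mem_biUnion.2 ⟨i, Finset.mem_univ _, hi⟩)) τ hτ

end

/-- the lower bounds for the sums `F0` -/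
def LB0All (p : ℕ) [NeZero p] : Prop :=
  ∀ (K : Type) [Field K] [NumberField K] (Ω : Type) [Field Ω] [Algebra K Ω] [IsAlgClosure K Ω]
    (ζ : K) (_ : IsPrimitiveRoot ζ p) (_ : MOne p K) (_ : Z2 p K) (D : RD K p ζ)
    (L : LDs D.toRD0 Ω) (Fr : FR L) (m l w N : ℕ) (P R : Type) [Group P] [Finite P] [Group R]
    (Dg : GP p m l w N P R), 1 ≤ N → LB0 Dg Fr

theorem lbAll_of_lb0All (p : ℕ) [NeZero p] (hp : p.Prime) (h2 : p ≠ 2) (h : LB0All p) :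
    LBdAll p := by
  intro K _ _ Ω _ _ _ ζ hζ hp2 hz D L Fr m l w N P R _ _ _ Dg hN
  exact lbd_of_lb0 hp h2 hp2 hζ hz Fr Dg (h K Ω ζ hζ hp2 hz D L Fr m l w N P R Dg hN)

end H77.PC3
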