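import Pool.Agent.H77.PC3.PGa
import Pool.Agent.H77.PC3.CTw
import Pool.Agent.H77.AB.GV

/-!
# H77-PC3-PGC: `ker (π ∘ q) = G2`, `ker q = G3`; for odd `p` the commutator subgroup `G2` has exponent `p` and there is a retraction of `G2` onto `G3`
-/

set_option autoImplicit false

open scoped Classical

noncomputable section

namespace H77.PC3

open H77.AB H57.PC

section

variable {p m l w N : ℕ} {P R : Type} [Group P] [Group R]

theorem gp_spanW [NeZero p] (Dg : GP p m l w N P R) (S : Subgroup P)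
    (hS : ∀ a b, Dg.π (Dg.q a) = 1 → a * b * a⁻¹ * b⁻¹ ∈ S) (u : P) (hu : Dg.q u = 1) :
    u ∈ S := by
  let Y : Submodule (ZMod p) (Fin w → ZMod p) :=
    { carrier := {y | ∃ c ∈ S, Dg.q c = 1 ∧ ∀ k, Dg.cw k c = y k}
      add_mem' := by
        rintro y y' ⟨c, hc, h1, h2⟩ ⟨c', hc', h1', h2'⟩
        refine ⟨c * c', S.mul_mem hc hc', by rw [map_mul, h1, h1', one_mul], fun k => ?_⟩
        rw [Dg.wadd k c c' h1 h1', h2, h2', Pi.add_apply]
      zero_mem' := ⟨1, S.one_mem, map_one _, fun k => by rw [cw_one, Pi.zero_apply]⟩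
      smul_mem' := by
        rintro r y ⟨c, hc, h1, h2⟩
        refine ⟨c ^ r.val, S.pow_mem hc _, by rw [map_pow, h1, one_pow], fun k => ?_⟩
        rw [cw_pow Dg k c h1, h2, Pi.smul_apply, smul_eq_mul, ZMod.natCast_zmod_val] }
  have hY : Submodule.span (ZMod p) {u | ∃ v x, u = Dg.β v x} ≤ Y := by
    rw [Submodule.span_le]
    rintro y ⟨v, x, rfl⟩
    obtain ⟨r, hr, hv⟩ := Dg.vsur v
    obtain ⟨a, rfl⟩ := Dg.qs r
    obtain ⟨r', hr'⟩ := Dg.πs (Multiplicative.ofAdd x)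
    obtain ⟨b, rfl⟩ := Dg.qs r'
    refine ⟨a * b * a⁻¹ * b⁻¹, hS a b hr, ?_, fun k => ?_⟩
    · have h1 := Dg.vcen _ hr (Dg.q b)
      rw [map_mul, map_mul, map_mul, map_inv, map_inv, h1, mul_inv_cancel_right, mul_inv_cancel]
    · rw [Dg.hβ a b k hr, hr', toAdd_ofAdd, show (fun j => Dg.cv j (Dg.q a)) = v from funext hv]
  rw [Dg.βspan] at hY
  obtain ⟨c, hc, h1, h2⟩ := hY (Submodule.mem_top : (fun k => Dg.cw k u) ∈ ⊤)
  have h3 : u = c := w_ext Dg u c hu h1 fun k => (h2 k).symm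
  rw [h3]
  exact hc

theorem gp_spanV [NeZero p] (Dg : GP p m l w N P R) (S : Subgroup P)
    (hS : ∀ a b, a * b * a⁻¹ * b⁻¹ ∈ S) (hW : ∀ u, Dg.q u = 1 → u ∈ S) (u : P)
    (hu : Dg.π (Dg.q u) = 1) : u ∈ S := by
  let Y : Submodule (ZMod p) (Fin l → ZMod p) :=
    { carrier := {y | ∃ c ∈ S, Dg.π (Dg.q c) = 1 ∧ ∀ k, Dg.cv k (Dg.q c) = y k}
      add_mem' := by
        rintro y y' ⟨c, hc, h1, h2⟩ ⟨c', hc', h1', h2'⟩
        refine ⟨c * c', S.mul_mem hc hc', by rw [map_mul, map_mul, h1, h1', one_mul],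
          fun k => ?_⟩
        rw [map_mul, Dg.vadd k _ _ h1 h1', h2, h2', Pi.add_apply]
      zero_mem' := ⟨1, S.one_mem, by rw [map_one, map_one], fun k => by
        rw [map_one, cv_one, Pi.zero_apply]⟩
      smul_mem' := by
        rintro r y ⟨c, hc, h1, h2⟩
        refine ⟨c ^ r.val, S.pow_mem hc _, by rw [map_pow, map_pow, h1, one_pow], fun k => ?_⟩
        rw [map_pow, cv_pow Dg k _ h1, h2, Pi.smul_apply, smul_eq_mul,
          ZMod.natCast_zmod_val] }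
  have hY : Submodule.span (ZMod p) {v | ∃ x y, v = Dg.kV x y} ≤ Y := by
    rw [Submodule.span_le]
    rintro y ⟨x, x', rfl⟩
    obtain ⟨r, hr⟩ := Dg.πs (Multiplicative.ofAdd x)
    obtain ⟨a, rfl⟩ := Dg.qs r
    obtain ⟨r', hr'⟩ := Dg.πs (Multiplicative.ofAdd x')
    obtain ⟨b, rfl⟩ := Dg.qs r'
    refine ⟨a * b * a⁻¹ * b⁻¹, hS a b, ?_, fun k => ?_⟩
    · rw [map_mul, map_mul, map_mul, map_inv, map_inv, map_mul, map_mul, map_mul, map_inv,
        map_inv, mul_comm (Dg.π (Dg.q a)) (Dg.π (Dg.q b)), mul_inv_cancel_right, mul_inv_cancel]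
    · rw [map_mul, map_mul, map_mul, map_inv, map_inv, Dg.hk, hr, hr', toAdd_ofAdd, toAdd_ofAdd]
  rw [Dg.kspan] at hY
  obtain ⟨c, hc, h1, h2⟩ := hY (Submodule.mem_top : (fun k => Dg.cv k (Dg.q u)) ∈ ⊤)
  have h3 : Dg.q u = Dg.q c := v_ext Dg _ _ hu h1 fun k => (h2 k).symm
  have h4 : u * c⁻¹ ∈ S := hW _ (by rw [map_mul, map_inv, h3, mul_inv_cancel])
  have h5 := S.mul_mem h4 hc
  rwa [inv_mul_cancel_right] at h5

theorem gp_G2 [NeZero p] (Dg : GP p m l w N P R) (u : P) :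
    Dg.π (Dg.q u) = 1 ↔ u ∈ G2 P := by
  constructor
  · exact gp_spanV Dg (G2 P) com_G2 (gp_spanW Dg (G2 P) fun a b _ => com_G2 a b) u
  · intro hu
    refine G2_ind (fun u => Dg.π (Dg.q u) = 1) ?_ ?_ ?_ ?_ u hu
    · rw [map_one, map_one]
    · intro a b
      rw [map_mul, map_mul, map_mul, map_inv, map_inv, map_mul, map_mul, map_mul, map_inv,
        map_inv, mul_comm (Dg.π (Dg.q a)) (Dg.π (Dg.q b)), mul_inv_cancel_right, mul_inv_cancel]
    · intro a b _ _ h1 h2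
      rw [map_mul, map_mul, h1, h2, one_mul]
    · intro a _ h1
      rw [map_inv, map_inv, h1, inv_one]

theorem gp_G3 [NeZero p] (Dg : GP p m l w N P R) (u : P) : Dg.q u = 1 ↔ u ∈ G3 P := by
  constructor
  · exact gp_spanW Dg (G3 P) (fun a b ha => com_G3 a b ((gp_G2 Dg a).1 ha)) u
  · intro hu
    refine G3_ind (fun u => Dg.q u = 1) (map_one _) ?_ ?_ ?_ u hu
    · intro a b ha
      have h1 := Dg.vcen _ ((gp_G2 Dg a).2 ha) (Dg.q b)
      rw [map_mul, map_mul, map_mul, map_inv, map_inv, h1, mul_inv_cancel_right, mul_inv_cancel]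
    · intro a b _ _ h1 h2
      rw [map_mul, h1, h2, one_mul]
    · intro a _ h1
      rw [map_inv, h1, inv_one]

theorem gp_h4 [NeZero p] (Dg : GP p m l w N P R) : ∀ u ∈ G3 P, ∀ x : P, u * x = x * u :=
  fun u hu x => Dg.wcen u ((gp_G3 Dg u).2 hu) x

end

section exp

variable {P : Type} [Group P] {N : ℕ} {p : ℕ}

/-- `G2` is generated by the commutators `[a, b]`, `a` in the classes -/
theorem gen_com (g : Fin N → P)
    (gen : ∀ H : Subgroup P, (∀ i x, IsConj x (g i) → x ∈ H) → H = ⊤) (x : P) (hx : x ∈ G2 P) :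
    x ∈ Subgroup.closure {z | ∃ (i : Fin N) (a b : P), IsConj a (g i) ∧
      z = a * b * a⁻¹ * b⁻¹} := by
  obtain ⟨T, hT⟩ : ∃ T : Subgroup P, T = Subgroup.closure
    {z | ∃ (i : Fin N) (a b : P), IsConj a (g i) ∧ z = a * b * a⁻¹ * b⁻¹} := ⟨_, rfl⟩
  rw [← hT]
  have hTn : ∀ y z, z ∈ T → y * z * y⁻¹ ∈ T := by
    intro y z hz
    rw [hT] at hz
    induction hz using Subgroup.closure_induction with
    | mem z h =>
      obtain ⟨i, a, b, ha, rfl⟩ := h
      rw [hT]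
      refine Subgroup.subset_closure ⟨i, y * a * y⁻¹, y * b * y⁻¹, ?_, by group⟩
      exact (isConj_iff.2 ⟨y, rfl⟩ : IsConj a (y * a * y⁻¹)).symm.trans ha
    | one =>
      rw [mul_one, mul_inv_cancel]
      exact T.one_mem
    | mul a b _ _ h1 h2 =>
      have e : y * (a * b) * y⁻¹ = (y * a * y⁻¹) * (y * b * y⁻¹) := by group
      rw [e]
      exact T.mul_mem h1 h2
    | inv a _ h1 =>
      have e : y * a⁻¹ * y⁻¹ = (y * a * y⁻¹)⁻¹ := by group
      rw [e]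
      exact T.inv_mem h1
  let H : Subgroup P :=
    { carrier := {y | ∀ b, y * b * y⁻¹ * b⁻¹ ∈ T}
      mul_mem' := by
        intro y y' hy hy' b
        have e : y * y' * b * (y * y')⁻¹ * b⁻¹ =
            (y * (y' * b * y'⁻¹ * b⁻¹) * y⁻¹) * (y * b * y⁻¹ * b⁻¹) := by group
        rw [e]
        exact T.mul_mem (hTn y _ (hy' b)) (hy b)
      one_mem' := by
        intro b
        have e : (1 : P) * b * 1⁻¹ * b⁻¹ = 1 := by group
        rw [e]
        exact T.one_mem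
      inv_mem' := by
        intro y hy b
        have e : y⁻¹ * b * y⁻¹⁻¹ * b⁻¹ = y⁻¹ * (y * b * y⁻¹ * b⁻¹)⁻¹ * y⁻¹⁻¹ := by group
        rw [e]
        exact hTn _ _ (T.inv_mem (hy b)) }
  have hH := gen H (by
    intro i a ha b
    rw [hT]
    exact Subgroup.subset_closure ⟨i, a, b, ha, rfl⟩)
  have hall : ∀ y b, y * b * y⁻¹ * b⁻¹ ∈ T := by
    intro y
    have h1 : y ∈ H := by
      rw [hH]
      exact Subgroup.mem_top y
    exact h1
  exact G2_ind (fun x => x ∈ T) T.one_mem hall (fun a b _ _ h1 h2 => T.mul_mem h1 h2)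
    (fun a _ h1 => T.inv_mem h1) x hx

theorem exp_com (hp : p.Prime) (h2 : p ≠ 2) (h4 : ∀ u ∈ G3 P, ∀ x : P, u * x = x * u)
    (h3 : ∀ u ∈ G3 P, u ^ p = 1) (a b : P) (ha : a ^ p = 1) :
    (a * b * a⁻¹ * b⁻¹) ^ p = 1 := by
  obtain ⟨u, hu⟩ : ∃ u, u = (a * b * a⁻¹ * b⁻¹)⁻¹ := ⟨_, rfl⟩
  have huG : u ∈ G2 P := by
    rw [hu]
    exact (G2 P).inv_mem (com_G2 a b)
  obtain ⟨z, hz⟩ : ∃ z, z = u⁻¹ * (a * u * a⁻¹) := ⟨_, rfl⟩
  have hzG : z ∈ G3 P := by
    have h5 := com_G3 u⁻¹ a ((G2 P).inv_mem huG)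
    have e : u⁻¹ * a * u⁻¹⁻¹ * a⁻¹ = z := by
      rw [hz]
      group
    rwa [e] at h5
  have hau : a * u = u * z * a := by
    rw [hz]
    group
  have h6 : ∀ n : ℕ, a ^ n * u = u * z ^ n * a ^ n := by
    intro n
    induction n with
    | zero => simp
    | succ n ih =>
      have h7 := h4 _ ((G3 P).pow_mem hzG n) a
      calc a ^ (n + 1) * u = a * (a ^ n * u) := by rw [pow_succ']; group
        _ = (a * u) * (z ^ n * a ^ n) := by rw [ih]; group
        _ = u * z * (a * z ^ n) * a ^ n := by rw [hau]; group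
        _ = u * z * (z ^ n * a) * a ^ n := by rw [h7]
        _ = _ := by rw [pow_succ' z, pow_succ' a]; group
  have h7 : ∀ n : ℕ, (u * a) ^ n = u ^ n * z ^ (n.choose 2) * a ^ n := by
    intro n
    induction n with
    | zero => simp
    | succ n ih =>
      have h8 := h4 _ ((G3 P).pow_mem hzG (n.choose 2)) u
      have h9 : (n + 1).choose 2 = n.choose 2 + n := by
        rw [Nat.choose_succ_succ' n 1, Nat.choose_one_right, add_comm]
      calc (u * a) ^ (n + 1) = u ^ n * z ^ (n.choose 2) * (a ^ n * u) * a := by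
            rw [pow_succ, ih]; group
        _ = u ^ n * (z ^ (n.choose 2) * u) * z ^ n * a ^ n * a := by rw [h6]; group
        _ = u ^ n * (u * z ^ (n.choose 2)) * z ^ n * a ^ n * a := by rw [h8]
        _ = _ := by rw [h9, pow_succ u, pow_succ a, pow_add]; group
  have h8 : u * a = b * a * b⁻¹ := by
    rw [hu]
    group
  have h9 := h7 p
  have h10 : z ^ (p.choose 2) = 1 := by
    obtain ⟨k, hk⟩ := hp.dvd_choose_self two_ne_zero (lt_of_le_of_ne hp.two_le (Ne.symm h2))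
    rw [hk, pow_mul, h3 z hzG, one_pow]
  rw [h8, h10, ha, mul_one, mul_one] at h9
  have h11 : (b * a * b⁻¹) ^ p = b * a ^ p * b⁻¹ := conj_pow
  rw [h11, ha, mul_one, mul_inv_cancel] at h9
  have h12 : (a * b * a⁻¹ * b⁻¹) = u⁻¹ := by rw [hu, inv_inv]
  rw [h12, inv_pow, ← h9, inv_one]

/-- `G2` has exponent `p` -/
theorem g2_exp (hp : p.Prime) (h2 : p ≠ 2) (g : Fin N → P) (pow : ∀ i, g i ^ p = 1)
    (gen : ∀ H : Subgroup P, (∀ i x, IsConj x (g i) → x ∈ H) → H = ⊤)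
    (h4 : ∀ u ∈ G3 P, ∀ x : P, u * x = x * u) (x : P) (hx : x ∈ G2 P) : x ^ p = 1 := by
  have h3 := g3_pow g pow gen h4
  have hx' := gen_com g gen x hx
  have key : ∀ y ∈ Subgroup.closure {z | ∃ (i : Fin N) (a b : P), IsConj a (g i) ∧
      z = a * b * a⁻¹ * b⁻¹}, y ^ p = 1 ∧ y ∈ G2 P := by
    intro y hy
    induction hy using Subgroup.closure_induction with
    | mem y h =>
      obtain ⟨i, a, b, ha, rfl⟩ := h
      have h5 := ha.pow p
      rw [pow i] at h5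
      exact ⟨exp_com hp h2 h4 h3 a b (isConj_one_left.1 h5), com_G2 a b⟩
    | one => exact ⟨one_pow p, (G2 P).one_mem⟩
    | mul a b _ _ h5 h6 =>
      have h7 : a * b = b * a := by
        have h8 := c3_G2 h4 a b h5.2 h6.2
        rw [mul_inv_eq_one, mul_inv_eq_iff_eq_mul] at h8
        exact h8
      exact ⟨by rw [(show Commute a b from h7).mul_pow, h5.1, h6.1, one_mul],
        (G2 P).mul_mem h5.2 h6.2⟩
    | inv a _ h5 => exact ⟨by rw [inv_pow, h5.1, inv_one], (G2 P).inv_mem h5.2⟩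
  exact (key x hx').1

end exp

/-- the retraction of `G2` onto `G3 = ker q` -/
theorem gp_ret {p m l w N : ℕ} {P R : Type} [Group P] [Finite P] [Group R] (hp : p.Prime)
    (h2 : p ≠ 2) (Dg : GP p m l w N P R) :
    ∃ r : P → P, (∀ u, Dg.π (Dg.q u) = 1 → Dg.q (r u) = 1) ∧
      (∀ u v, Dg.π (Dg.q u) = 1 → Dg.π (Dg.q v) = 1 → r (u * v) = r u * r v) ∧
      ∀ u, Dg.q u = 1 → r u = u := by
  have : NeZero p := ⟨hp.ne_zero⟩
  have h4 := gp_h4 Dg
  let cg : CommGroup (G2 P) := { (inferInstance : Group (G2 P)) with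
    mul_comm := by
      rintro ⟨a, ha⟩ ⟨b, hb⟩
      have h8 := c3_G2 h4 a b ha hb
      rw [mul_inv_eq_one, mul_inv_eq_iff_eq_mul] at h8
      exact Subtype.ext h8 }
  obtain ⟨d, M, f, h, -, -, h5, -, h7, h8⟩ := gv hp (Q := G2 P)
    (fun q => Subtype.ext (g2_exp hp h2 Dg.g Dg.pow Dg.gen h4 q.1 q.2)) ((G3 P).subgroupOf (G2 P))
  choose b hb hfb using h8
  let r : P → P := fun u => if hu : u ∈ G2 P then ((b (f ⟨u, hu⟩) : G2 P) : P) else 1
  have hr : ∀ (u : P) (hu : u ∈ G2 P), r u = ((b (f ⟨u, hu⟩) : G2 P) : P) := fun u hu => dif_pos hu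
  have huniq : ∀ u v : G2 P, (u : P) ∈ G3 P → (v : P) ∈ G3 P → f u = f v → u = v := by
    intro u v hu hv huv
    have e1 : f (u * v⁻¹) = 1 := by rw [map_mul, map_inv, huv, mul_inv_cancel]
    have e2 : h (u * v⁻¹) = 1 := by
      rw [map_mul, map_inv, h7 u hu, h7 v hv, inv_one, mul_one]
    exact mul_inv_eq_one.1 (h5 _ e1 e2)
  refine ⟨r, fun u hu => ?_, fun u v hu hv => ?_, fun u hu => ?_⟩
  · rw [gp_G2] at hu
    rw [hr u hu, gp_G3]
    exact hb _
  · rw [gp_G2] at hu hv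
    rw [hr u hu, hr v hv, hr (u * v) ((G2 P).mul_mem hu hv)]
    have e1 := huniq (b (f ⟨u * v, (G2 P).mul_mem hu hv⟩)) (b (f ⟨u, hu⟩) * b (f ⟨v, hv⟩))
      (hb _) ((G3 P).mul_mem (hb _) (hb _)) (by
        rw [hfb, map_mul, hfb, hfb, ← map_mul]
        rfl)
    rw [e1]
    rfl
  · have hu2 : u ∈ G2 P := (gp_G2 Dg u).1 (by rw [hu, map_one])
    have hu3 : u ∈ G3 P := (gp_G3 Dg u).1 hu
    rw [hr u hu2, huniq (b (f ⟨u, hu2⟩)) ⟨u, hu2⟩ (hb _) hu3 (hfb _)]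

end H77.PC3
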