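import Pool.Agent.H77.PC3.CRh

/-!
# H77-PC3-CLI: the number of homomorphisms to `P` over a homomorphism to `R`

* `cq_zero`: if `ψ : Γ → P` is a homomorphism of finite type of exponent `p` on the inertia group of `v ∉ S0` then `cq` vanishes for `q ∘ ψ` at `v`.
* `wn_conj`: the number of the elements of the class of `g i` over a conjugate of `q (g i)` is `Wn i`.
* `cli`: at most `C ∏ (Wn i)^{#(f i)}` homomorphisms `ψ` over `ρ` with labels over `ρ (t v)`, `v ∈ f i`, and fixed values on the other inertia groups.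
-/

set_option autoImplicit false

open scoped NumberField
open IsDedekindDomain
open scoped Classical

noncomputable section

namespace H77.PC3

open H63.MA H38.BB H38.BG H57.PC H63.BU

theorem wn_conj {p m l w N : ℕ} {P R : Type} [Group P] [Group R] (Dg : GP p m l w N P R)
    (i : Fin N) (r : R) (hr : IsConj r (Dg.q (Dg.g i))) :
    Nat.card {x : P // IsConj x (Dg.g i) ∧ Dg.q x = r} = Dg.Wn i := by
  obtain ⟨c, hc⟩ := isConj_iff.1 hr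
  obtain ⟨y, rfl⟩ := Dg.qs c
  unfold GP.Wn
  refine Nat.card_congr ⟨fun x => ⟨y * x.1 * y⁻¹, ?_, ?_⟩, fun x => ⟨y⁻¹ * x.1 * y, ?_, ?_⟩,
    fun x => ?_, fun x => ?_⟩
  · exact (isConj_iff.2 ⟨y, rfl⟩ : IsConj x.1 (y * x.1 * y⁻¹)).symm.trans x.2.1
  · rw [map_mul, map_mul, map_inv, x.2.2, hc]
  · exact (isConj_iff.2 ⟨y⁻¹, by group⟩ : IsConj x.1 (y⁻¹ * x.1 * y)).symm.trans x.2.1
  · rw [map_mul, map_mul, map_inv, x.2.2, ← hc]
    group
  · apply Subtype.ext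
    change y⁻¹ * (y * x.1 * y⁻¹) * y = x.1
    group
  · apply Subtype.ext
    change y * (y⁻¹ * x.1 * y) * y⁻¹ = x.1
    group

variable {K : Type} [Field K] [NumberField K] {Ω : Type} [Field Ω] [Algebra K Ω]
  {p : ℕ} {ζ : K} {D : RD0 K p ζ} {m l w N : ℕ} {P R : Type} [Group P] [Group R]

theorem cq_zero [Finite P] {L : LDs D Ω} (Dg : GP p m l w N P R) (Fr : FR L)
    (ψ : Gal(Ω/K) →* P) (hψ : H38.ML.FT ψ) (v : Pl K) (hv : v ∉ D.S0)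
    (h : ∀ τ ∈ inr L v, ψ τ ^ p = 1) : cq Dg Fr (Dg.q.comp ψ) v = 0 := by
  funext k
  unfold cq
  rw [MonoidHom.comp_apply, MonoidHom.comp_apply, cm_eq, Fr.com v hv P ψ hψ h, mul_assoc,
    mul_assoc, ← mul_assoc (ψ (Fr.F v)), mul_inv_cancel, one_mul, mul_inv_cancel, cw_one]
  rfl

theorem cli [IsAlgClosure K Ω] [Finite P] (hp : p.Prime)
    (hζ : IsPrimitiveRoot ζ p) (L : LDs D Ω) (Dg : GP p m l w N P R)
    (hnil : Group.IsNilpotent P) (n : ℕ) (hn : 0 < n) (z : K) (hz : IsPrimitiveRoot z n)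
    (hS : ∀ v : Pl K, ((n : ℕ) : 𝓞 K) ∈ v.asIdeal → v ∈ D.S0) (hP : Nat.card P ∣ n) :
    ∃ C : ℕ, ∀ (f : Fin N → Finset (Pl K)) (ρ : Gal(Ω/K) →* R)
      (Ps : Finset (Gal(Ω/K) →* P)), (∀ ψ ∈ Ps, H38.ML.FT ψ) →
      (∀ ψ ∈ Ps, Dg.q.comp ψ = ρ) →
      (∀ ψ ∈ Ps, ∀ i, ∀ v ∈ f i, v ∉ D.S0 ∧ IsConj (ψ (L.t v)) (Dg.g i) ∧
        ∀ τ ∈ inr L v, ψ τ ^ p = 1) →
      (∀ ψ ∈ Ps, ∀ ψ' ∈ Ps, ∀ v, v ∉ D.S0 → (∀ i, v ∉ f i) → ∀ τ ∈ inr L v, ψ τ = ψ' τ) →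
      Ps.card ≤ C * ∏ i, Dg.Wn i ^ (f i).card := by
  obtain ⟨C, hC⟩ := ugsr D L n hn z hz hS P hnil hP
  refine ⟨C, ?_⟩
  intro f ρ Ps hft hρ hty hag
  have hfin : Fintype P := Fintype.ofFinite P
  rcases Ps.eq_empty_or_nonempty with hemp | ⟨ψ₀, hψ₀⟩
  · rw [hemp, Finset.card_empty]
    exact Nat.zero_le _
  let F : (Gal(Ω/K) →* P) → ((i : Fin N) → (↥(f i) → P)) := fun ψ i v => ψ (L.t v.1)
  let T : Finset ((i : Fin N) → (↥(f i) → P)) :=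
    Fintype.piFinset (fun i => Fintype.piFinset
      (fun v : ↥(f i) => Finset.univ.filter fun h : P => IsConj h (Dg.g i) ∧
        Dg.q h = ρ (L.t v.1)))
  have hmaps : ∀ ψ ∈ Ps, F ψ ∈ T := by
    intro ψ hψ
    rw [Fintype.mem_piFinset]
    intro i
    rw [Fintype.mem_piFinset]
    intro v
    rw [Finset.mem_filter]
    refine ⟨Finset.mem_univ _, (hty ψ hψ i v.1 v.2).2.1, ?_⟩
    exact DFunLike.congr_fun (hρ ψ hψ) (L.t v.1)
  have hfib : ∀ e ∈ T, (Ps.filter fun ψ => F ψ = e).card ≤ C := by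
    intro e _
    refine hC _ (fun ψ hψ => hft ψ (Finset.mem_filter.1 hψ).1) ?_
    intro ψ hψ ψ' hψ' v hv σ hσ
    rw [Finset.mem_filter] at hψ hψ'
    have hF : F ψ = F ψ' := hψ.2.trans hψ'.2.symm
    by_cases hvf : ∃ i, v ∈ f i
    · obtain ⟨i, hi⟩ := hvf
      have h2 : ψ (L.t v) = ψ' (L.t v) := congrFun (congrFun hF i) ⟨v, hi⟩
      rw [tm_z hp hζ L ψ (hft ψ hψ.1) v hv (hty ψ hψ.1 i v hi).2.2 σ hσ,
        tm_z hp hζ L ψ' (hft ψ' hψ'.1) v hv (hty ψ' hψ'.1 i v hi).2.2 σ hσ, h2]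
    · exact hag ψ hψ.1 ψ' hψ'.1 v hv (fun i hi => hvf ⟨i, hi⟩) σ hσ
  have h2 := Finset.card_le_mul_card_image_of_maps_to hmaps C hfib
  refine h2.trans (Nat.mul_le_mul_left _ (le_of_eq ?_))
  show (Fintype.piFinset _).card = _
  rw [Fintype.card_piFinset]
  refine Finset.prod_congr rfl fun i _ => ?_
  rw [Fintype.card_piFinset, ← Finset.card_univ.trans (Fintype.card_coe (f i)),
    ← Finset.prod_const]
  refine Finset.prod_congr rfl fun v _ => ?_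
  rw [← wn_conj Dg i (ρ (L.t v.1)), Nat.card_eq_fintype_card, Fintype.card_subtype]
  have h3 := (hty ψ₀ hψ₀ i v.1 v.2).2.1
  have h4 : Dg.q (ψ₀ (L.t v.1)) = ρ (L.t v.1) := DFunLike.congr_fun (hρ ψ₀ hψ₀) (L.t v.1)
  rw [← h4]
  exact Dg.q.map_isConj h3

end H77.PC3
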