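import Pool.Agent.H77.PC3.CXa
import Pool.Agent.H77.PC3.PGc
import Pool.Agent.H77.PC3.CLi
import Pool.Agent.H38.BG.LXi

/-!
# H77-PC3-CLF: lifts for split classes (`qf D (f i) = 0`, `b = 1`, `E = ∅`)

* `gx3`, `gx2`: the central extensions `P → R`, `R → F_p^m`.
* `lift3` (`p` odd): `ρ ∈ RH` with `cq = 0` at the typed primes lifts to `P`.
* `kuh a`: the homomorphism with Kummer coordinates; `lift2`: it lifts to `R` if the level 2 conditions hold at the typed primes.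
-/

set_option autoImplicit false

open scoped NumberField
open IsDedekindDomain
open scoped Classical

noncomputable section

namespace H77.PC3

open H63.MA H38.BB H38.BG H57.PC H57.BRA H63.BU

section group

variable {p m l w N : ℕ} {P R : Type} [Group P] [Group R]

/-- the extension `P → R` -/
def gx3 (Dg : GP p m l w N P R) : CX p w P R :=
  ⟨Dg.q, Dg.qs, Dg.wcen, Dg.cw, Dg.wadd, Dg.winj, Dg.wsur⟩

/-- the extension `R → F_p^m` -/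
def gx2 (Dg : GP p m l w N P R) : CX p l R (Multiplicative (Fin m → ZMod p)) :=
  ⟨Dg.π, Dg.πs, Dg.vcen, Dg.cv, Dg.vadd, Dg.vinj, Dg.vsur⟩

theorem gpC_kV [NeZero p] (Dg : GP p m l w N P R) (i : Fin N) (u : Fin m → ZMod p)
    (hu : u ∈ Dg.C i) : Dg.kV u (Dg.s i) = 0 := by
  obtain ⟨x, hx, rfl⟩ := hu
  funext k
  have h1 := Dg.hk (Dg.q x) (Dg.q (Dg.g i)) k
  have h2 : Dg.q x * Dg.q (Dg.g i) * (Dg.q x)⁻¹ * (Dg.q (Dg.g i))⁻¹ = 1 := by
    rw [← map_inv, ← map_inv, ← map_mul, ← map_mul, ← map_mul, hx, mul_inv_cancel_right,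
      mul_inv_cancel, map_one]
  rw [h2, cv_one] at h1
  exact h1.symm

/-- lifts of conjugates of `q (g i)` have order dividing `p` -/
theorem pow_lift3 (Dg : GP p m l w N P R) (i : Fin N) (z : P) (n : ℕ)
    (r : R) (hr : IsConj r (Dg.q (Dg.g i))) (h : Dg.q z = r ^ n) : z ^ p = 1 := by
  obtain ⟨c, hc⟩ := isConj_iff.1 hr
  obtain ⟨y, rfl⟩ := Dg.qs c
  have h1 : Dg.q (z * ((y⁻¹ * Dg.g i * y) ^ n)⁻¹) = 1 := by
    have h2 : Dg.q (y⁻¹ * Dg.g i * y) = r := by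
      rw [map_mul, map_mul, map_inv, ← hc]
      group
    rw [map_mul, map_inv, map_pow, h2, h, mul_inv_cancel]
  obtain ⟨u, hu, hz⟩ : ∃ u, Dg.q u = 1 ∧ z = u * (y⁻¹ * Dg.g i * y) ^ n :=
    ⟨_, h1, by rw [inv_mul_cancel_right]⟩
  have h3 : (y⁻¹ * Dg.g i * y) ^ p = 1 := by
    have h4 : (y⁻¹ * Dg.g i * y⁻¹⁻¹) ^ p = y⁻¹ * Dg.g i ^ p * y⁻¹⁻¹ := conj_pow
    rw [inv_inv, Dg.pow, mul_one, inv_mul_cancel] at h4
    exact h4
  rw [hz, (show Commute u _ from Dg.wcen u hu _).mul_pow, w_pow Dg u hu, ← pow_mul, mul_comm n p,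
    pow_mul, h3, one_pow, one_mul]

/-- lifts of powers of `s i` to `R` which is a multiple of `q (g i)` by an element of `V` -/
theorem pow_lift2 (Dg : GP p m l w N P R) (i : Fin N) (z : R) (n : ℕ)
    (h : Dg.π z = Dg.π (Dg.q (Dg.g i)) ^ n) : z ^ p = 1 := by
  have h1 : Dg.π (z * (Dg.q (Dg.g i) ^ n)⁻¹) = 1 := by
    rw [map_mul, map_inv, map_pow, h, mul_inv_cancel]
  obtain ⟨u, hu, hz⟩ : ∃ u, Dg.π u = 1 ∧ z = u * Dg.q (Dg.g i) ^ n :=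
    ⟨_, h1, by rw [inv_mul_cancel_right]⟩
  rw [hz, (show Commute u _ from Dg.vcen u hu _).mul_pow, v_pow Dg u hu, ← pow_mul, mul_comm n p,
    pow_mul, ← map_pow, Dg.pow, map_one, one_pow, one_mul]

end group

variable {K : Type} [Field K] [NumberField K] {Ω : Type} [Field Ω] [Algebra K Ω]
  {p : ℕ} {ζ : K} {D : RD0 K p ζ} {m l w N : ℕ} {P R : Type} [Group P] [Group R]

theorem mem_RHf [NeZero p] {L : LDs D Ω} {Dg : GP p m l w N P R} {b : Fin m → Kˣ}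
    {E : Finset (Pl K)} {ε : Pl K → Gal(Ω/K) → R} {f : Fin N → Finset (Pl K)}
    {ρ : Gal(Ω/K) →* R} (h : ρ ∈ RHf L Dg b E ε f) : ρ ∈ RH L Dg b E ε f := by
  unfold RHf at h
  split_ifs at h with h1
  · exact h1.mem_toFinset.1 h
  · exact absurd h (Finset.notMem_empty _)

theorem akR_xi (c : CR p m N) (f : Fin N → Finset (Pl K)) (k : Fin m) :
    akR D c (fun _ => 1) f k = xi D c.x f k := by
  unfold akR xi
  rw [one_mul]

variable [IsAlgClosure K Ω]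

theorem lift3 [NeZero p] [Finite P] (hp : p.Prime) (h2 : p ≠ 2) (hp2 : MOne p K)
    (hζ : IsPrimitiveRoot ζ p) (hz : Z2 p K) {L : LDs D Ω} (Fr : FR L)
    (Dg : GP p m l w N P R) (ε : Pl K → Gal(Ω/K) → R) (f : Fin N → Finset (Pl K))
    (hS : ∀ i, ∀ v ∈ f i, v ∉ D.S0) (hq : ∀ i, qf D (f i) = 0) (ρ : Gal(Ω/K) →* R)
    (hρ : ρ ∈ RH L Dg (fun _ => 1) ∅ ε f) (hc : ∀ i, ∀ v ∈ f i, cq Dg Fr ρ v = 0) :
    ∃ ψ₀ : Gal(Ω/K) →* P, H38.ML.FT ψ₀ ∧ ∀ σ, Dg.q (ψ₀ σ) = ρ σ := by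
  have hRf : Finite R := Finite.of_surjective _ Dg.qs
  obtain ⟨r0, r1, r2, -, r4⟩ := hρ
  have h0 : ∀ v, v ∉ D.S0 → (∀ i, v ∉ f i) → ∀ τ ∈ inr L v, ρ τ = 1 :=
    fun v hv hvf => r4 v hv (Finset.notMem_empty v) hvf
  obtain ⟨r, q1, q2, q3⟩ := gp_ret hp h2 Dg
  refine cx_lift (gx3 Dg) ρ r0 fun k => ?_
  refine br1 hp hp2 hζ hz Fr (cx_coc (gx3 Dg) k) r0 (akR D Dg.cr (fun _ => 1) f) (fun j => ?_)
    ?_ (fun v hv τ hτ => ?_) (fun v hv => ?_)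
  · rw [akR_xi]
    exact xi_ps hp hp2 hζ D _ f hS hq j
  · refine ⟨fun σ => - Dg.cw k (r ((gx3 Dg).s (ρ σ))), ?_, fun σ hσ τ hτ => ?_⟩
    · exact glift_lev_comp2 ρ ρ (fun z => - Dg.cw k (r ((gx3 Dg).s z.1))) (ft_lev ρ r0)
        (ft_lev ρ r0)
    · have hV : ∀ σ : Gal(Ω/K), σ ∈ Zk p ζ (akR D Dg.cr (fun _ => 1) f) →
          Dg.π (ρ σ) = 1 := by
        intro σ hσ
        apply Multiplicative.toAdd.injective
        funext j
        rw [← r1 σ j, hσ j]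
        rfl
      have hs : ∀ x, Dg.q ((gx3 Dg).s x) = x := fun x => cx_s (gx3 Dg) x
      have s1 : Dg.π (Dg.q ((gx3 Dg).s (ρ σ))) = 1 := by rw [hs, hV σ hσ]
      have s2 : Dg.π (Dg.q ((gx3 Dg).s (ρ τ))) = 1 := by rw [hs, hV τ hτ]
      have s3 : Dg.π (Dg.q ((gx3 Dg).s (ρ σ * ρ τ))) = 1 := by
        rw [hs, map_mul, hV σ hσ, hV τ hτ, one_mul]
      have hE : Dg.q ((gx3 Dg).E (ρ σ) (ρ τ)) = 1 := cx_E (gx3 Dg) _ _
      have e1 := congrArg r (cx_Es (gx3 Dg) (ρ σ) (ρ τ))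
      rw [q2 _ _ s1 s2, q2 _ _ (by rw [hE, map_one]) s3, q3 _ hE] at e1
      have e2 := congrArg (Dg.cw k) e1
      rw [Dg.wadd k _ _ (q1 _ s1) (q1 _ s2), Dg.wadd k _ _ hE (q1 _ s3)] at e2
      have e3 : pb ((gx3 Dg).e k) ρ σ τ = Dg.cw k ((gx3 Dg).E (ρ σ) (ρ τ)) := rfl
      simp only
      rw [map_mul, e3]
      linear_combination e2
  · by_cases hvf : ∃ i, v ∈ f i
    · obtain ⟨i, hi⟩ := hvf
      exact (r2 i v hi).2 τ hτ
    · rw [h0 v hv (fun i hi => hvf ⟨i, hi⟩) τ hτ, one_pow]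
  · by_cases hvf : ∃ i, v ∈ f i
    · obtain ⟨i, hi⟩ := hvf
      have hcom := Fr.com v hv R ρ r0 (r2 i v hi).2
      have h5 := cx_iv (gx3 Dg) k ((gx3 Dg).s (ρ (Fr.F v))) ((gx3 Dg).s (ρ (L.t v))) (by
        rw [cx_s, cx_s, hcom])
      rw [cx_s, cx_s] at h5
      have h6 := congrFun (hc i v hi) k
      unfold cq at h6
      have h7 := cm_eq Dg ((gx3 Dg).s (ρ (Fr.F v))) ((gx3 Dg).s (ρ (L.t v))) k
      have hs : ∀ x, Dg.q ((gx3 Dg).s x) = x := fun x => cx_s (gx3 Dg) x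
      rw [hs, hs, h6] at h7
      rw [h5]
      exact h7.symm
    · rw [h0 v hv (fun i hi => hvf ⟨i, hi⟩) _ (uinr_t L v)]
      unfold iv
      rw [(cx_coc (gx3 Dg) k).l1, (cx_coc (gx3 Dg) k).r1, sub_zero]

/-- the homomorphism with Kummer coordinates -/
def kuh (p : ℕ) (ζ : K) (Ω : Type) [Field Ω] [Algebra K Ω] (a : Fin m → Kˣ) :
    Gal(Ω/K) →* Multiplicative (Fin m → ZMod p) where
  toFun σ := Multiplicative.ofAdd fun k => kk p ζ (a k) σ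
  map_one' := by
    apply Multiplicative.toAdd.injective
    funext k
    rw [toAdd_ofAdd]
    unfold kk
    rw [map_one]
    rfl
  map_mul' σ τ := by
    apply Multiplicative.toAdd.injective
    funext k
    rw [toAdd_ofAdd, toAdd_mul, toAdd_ofAdd, toAdd_ofAdd, Pi.add_apply]
    unfold kk
    rw [map_mul, toAdd_mul]

theorem kuh_ft (hp : p.Prime) (hζ : IsPrimitiveRoot ζ p) (a : Fin m → Kˣ) :
    H38.ML.FT (kuh p ζ Ω a) := by
  have hL : Lev (fun (σ : Gal(Ω/K)) k => kk p ζ (a k) σ) :=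
    glift_lev_pi (fun k σ => kk p ζ (a k) σ) fun k => glift_lev_kk hp hζ (a k)
  exact lev_ft _ (glift_lev_comp2 _ _ (fun z => Multiplicative.ofAdd z.1) hL hL)

theorem kuh_t (hp : p.Prime) (hζ : IsPrimitiveRoot ζ p) (L : LDs D Ω) (c : CR p m N)
    (f : Fin N → Finset (Pl K)) (hdj : Dj f) (hS : ∀ i, ∀ v ∈ f i, v ∉ D.S0) (i : Fin N)
    (v : Pl K) (hv : v ∈ f i) :
    kuh p ζ Ω (akR D c (fun _ => 1) f) (L.t v) = Multiplicative.ofAdd (c.x i) := by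
  apply Multiplicative.toAdd.injective
  funext k
  change kk p ζ (akR D c (fun _ => 1) f k) (L.t v) = c.x i k
  have ht : L.t v = (L.ld v (hS i v hv)).t := dif_pos (hS i v hv)
  rw [ht, ld_kk_t hp hζ (fun h => hS i v hv (D.above v h)) (D.pi_self v (hS i v hv))
    (L.ld v (hS i v hv)), akR_xi, xi_ord_mem hp D _ f hdj hS k hv]

omit [NumberField K] [IsAlgClosure K Ω] in
theorem kuh_pow (a : Fin m → Kˣ) (σ : Gal(Ω/K)) : kuh p ζ Ω a σ ^ p = 1 := by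
  apply Multiplicative.toAdd.injective
  funext k
  rw [toAdd_pow, toAdd_one]
  change p • kk p ζ (a k) σ = 0
  rw [nsmul_eq_mul, ZMod.natCast_self, zero_mul]

theorem kuh_un (hp : p.Prime) (hζ : IsPrimitiveRoot ζ p) (L : LDs D Ω) (c : CR p m N)
    (f : Fin N → Finset (Pl K)) (hS : ∀ i, ∀ v ∈ f i, v ∉ D.S0)
    (v : Pl K) (hv : v ∉ D.S0) (hf : ∀ i, v ∉ f i) (τ : Gal(Ω/K)) (hτ : τ ∈ inr L v) :
    kuh p ζ Ω (akR D c (fun _ => 1) f) τ = 1 := by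
  have : NeZero p := ⟨hp.ne_zero⟩
  rw [tm_z hp hζ L _ (kuh_ft hp hζ _) v hv (fun σ _ => kuh_pow _ σ) τ hτ]
  have h1 : kuh p ζ Ω (akR D c (fun _ => 1) f) (L.t v) = 1 := by
    apply Multiplicative.toAdd.injective
    funext k
    change kk p ζ (akR D c (fun _ => 1) f k) (L.t v) = 0
    have ht : L.t v = (L.ld v hv).t := dif_pos hv
    rw [ht, ld_kk_t hp hζ (fun h => hv (D.above v h)) (D.pi_self v hv)
      (L.ld v hv), akR_xi, xi_ord_not D _ f hS k hv hf, Int.cast_zero]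
  rw [h1, one_pow]

theorem lift2 [NeZero p] [Finite R] (hp : p.Prime) (hp2 : MOne p K)
    (hζ : IsPrimitiveRoot ζ p) (hz : Z2 p K) {L : LDs D Ω} (Fr : FR L)
    (Dg : GP p m l w N P R) (f : Fin N → Finset (Pl K)) (hdj : Dj f)
    (hS : ∀ i, ∀ v ∈ f i, v ∉ D.S0) (hq : ∀ i, qf D (f i) = 0)
    (hc : ∀ i, ∀ v ∈ f i,
      Dg.kV (fun j => D.LL v (akR D Dg.cr (fun _ => 1) f j)) (Dg.s i) = 0) :
    ∃ ρ₀ : Gal(Ω/K) →* R, H38.ML.FT ρ₀ ∧
      ∀ σ, Dg.π (ρ₀ σ) = kuh p ζ Ω (akR D Dg.cr (fun _ => 1) f) σ := by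
  refine cx_lift (gx2 Dg) (kuh p ζ Ω (akR D Dg.cr (fun _ => 1) f)) (kuh_ft hp hζ _) fun k => ?_
  refine br1 hp hp2 hζ hz Fr (cx_coc (gx2 Dg) k) (kuh_ft hp hζ _)
    (akR D Dg.cr (fun _ => 1) f) (fun j => ?_)
    ?_ (fun v hv τ _ => kuh_pow _ τ) (fun v hv => ?_)
  · rw [akR_xi]
    exact xi_ps hp hp2 hζ D _ f hS hq j
  · refine ⟨fun _ => 0, ⟨⊥, inferInstance, fun _ _ _ => rfl⟩, fun σ hσ τ hτ => ?_⟩
    have h1 : kuh p ζ Ω (akR D Dg.cr (fun _ => 1) f) σ = 1 := by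
      apply Multiplicative.toAdd.injective
      funext j
      exact hσ j
    change (0 : ZMod p) = 0 + 0 + (gx2 Dg).e k (kuh p ζ Ω (akR D Dg.cr (fun _ => 1) f) σ) _
    rw [h1, (cx_coc (gx2 Dg) k).l1, add_zero, add_zero]
  · by_cases hvf : ∃ i, v ∈ f i
    · obtain ⟨i, hi⟩ := hvf
      have h5 := cx_iv (gx2 Dg) k
        ((gx2 Dg).s (kuh p ζ Ω (akR D Dg.cr (fun _ => 1) f) (Fr.F v)))
        ((gx2 Dg).s (kuh p ζ Ω (akR D Dg.cr (fun _ => 1) f) (L.t v))) (mul_comm _ _)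
      rw [cx_s, cx_s] at h5
      rw [h5]
      change Dg.cv k _ = 0
      have hs : ∀ x, Dg.π ((gx2 Dg).s x) = x := fun x => cx_s (gx2 Dg) x
      rw [Dg.hk, hs, hs, kuh_t hp hζ L Dg.cr f hdj hS i v hi, toAdd_ofAdd]
      have h6 : Multiplicative.toAdd (kuh p ζ Ω (akR D Dg.cr (fun _ => 1) f) (Fr.F v)) =
          fun j => D.LL v (akR D Dg.cr (fun _ => 1) f j) := by
        funext j
        exact Fr.kf v hv _
      rw [h6]
      exact congrFun (hc i v hi) k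
    · rw [kuh_un hp hζ L Dg.cr f hS v hv (fun i hi => hvf ⟨i, hi⟩) _ (uinr_t L v)]
      unfold iv
      rw [(cx_coc (gx2 Dg) k).l1, (cx_coc (gx2 Dg) k).r1, sub_zero]

end H77.PC3
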