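import Pool.Agent.H77.PC3.CLf

/-!
# H77-PC3-CLG: the number of lifts; surjectivity; the number of the elements of `RH` for split classes

* `rh_fin2`: `RH` is finite (only `ζ_p ∈ K` is needed).
* `gp_frat`: a subgroup of `P` which maps onto `F_p^m` is `P`. `sp_surj`: `SpR` with `b = 1` gives surjectivity of `ρ` on `F_p^m`.
* `many3`: `∏ (Wn i)^{#(f i)}` surjective lifts with the right types.
* `rh_card`: `∏ (#class of q (g i))^{#(f i)} ≤ #RHf` if the level 2 conditions hold.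
-/

set_option autoImplicit false

open scoped NumberField
open IsDedekindDomain
open scoped Classical

noncomputable section

namespace H77.PC3

open H63.MA H38.BB H38.BG H57.PC H57.BRA H63.BU

section group

variable {p m l w N : ℕ} {P R : Type} [Group P] [Group R]

/-- a subgroup which maps onto `F_p^m` is everything -/
theorem gp_frat [NeZero p] (Dg : GP p m l w N P R) (H : Subgroup P)
    (hH : ∀ x, ∃ h ∈ H, Dg.π (Dg.q h) = Dg.π (Dg.q x)) : H = ⊤ := by
  have h4 := gp_h4 Dg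
  have hdec : ∀ x, ∃ h ∈ H, x * h⁻¹ ∈ G2 P := by
    intro x
    obtain ⟨h, hh, h1⟩ := hH x
    refine ⟨h, hh, (gp_G2 Dg _).1 ?_⟩
    rw [map_mul, map_mul, map_inv, map_inv, h1, mul_inv_cancel]
  have hcv : ∀ x y x' y', x * x'⁻¹ ∈ G2 P → y * y'⁻¹ ∈ G2 P →
      (x * y * x⁻¹ * y⁻¹) * (x' * y' * x'⁻¹ * y'⁻¹)⁻¹ ∈ G3 P := by
    intro x y x' y' hx hy
    apply (QuotientGroup.eq_one_iff _).1
    change (QuotientGroup.mk' (G3 P)) _ = 1
    rw [map_mul, map_inv, mul_inv_eq_one, mk_com, mk_com]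
    refine r_congr _ _ _ _ _ _ hx hy ?_ ?_
    · rw [← map_mul, inv_mul_cancel_right]
    · rw [← map_mul, inv_mul_cancel_right]
  have s1 : ∀ u ∈ G2 P, ∃ h ∈ H, h ∈ G2 P ∧ u * h⁻¹ ∈ G3 P := by
    intro u hu
    refine G2_ind (fun u => ∃ h ∈ H, h ∈ G2 P ∧ u * h⁻¹ ∈ G3 P) ?_ ?_ ?_ ?_ u hu
    · exact ⟨1, H.one_mem, (G2 P).one_mem, by
        rw [inv_one, mul_one]
        exact (G3 P).one_mem⟩
    · intro a b
      obtain ⟨a', ha', h1⟩ := hdec a
      obtain ⟨b', hb', h2⟩ := hdec b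
      exact ⟨a' * b' * a'⁻¹ * b'⁻¹, H.mul_mem (H.mul_mem (H.mul_mem ha' hb') (H.inv_mem ha'))
        (H.inv_mem hb'), com_G2 _ _, hcv a b a' b' h1 h2⟩
    · rintro a b ha hb ⟨a', ha', h1, h2⟩ ⟨b', hb', h3, h5⟩
      refine ⟨a' * b', H.mul_mem ha' hb', (G2 P).mul_mem h1 h3, ?_⟩
      have e : a * b * (a' * b')⁻¹ = a * (b * b'⁻¹) * a'⁻¹ := by group
      rw [e, ← h4 _ h5 a, mul_assoc]
      exact (G3 P).mul_mem h5 h2
    · rintro a ha ⟨a', ha', h1, h2⟩
      refine ⟨a'⁻¹, H.inv_mem ha', (G2 P).inv_mem h1, ?_⟩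
      have e : a⁻¹ * a'⁻¹⁻¹ = a⁻¹ * (a * a'⁻¹)⁻¹ * a := by group
      rw [e, ← h4 _ ((G3 P).inv_mem h2) a⁻¹, inv_mul_cancel_right]
      exact (G3 P).inv_mem h2
  have s2 : G3 P ≤ H := by
    intro u hu
    refine G3_ind (fun u => u ∈ H) H.one_mem ?_ (fun a b _ _ h1 h2 => H.mul_mem h1 h2)
      (fun a _ h1 => H.inv_mem h1) u hu
    intro a b ha
    obtain ⟨a', ha', h1, h2⟩ := s1 a ha
    obtain ⟨b', hb', h3⟩ := hdec b
    rw [c3_congr_left h4 a a' b h1 h2, c3_congr_right h4 a' b b' h1 h3]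
    exact H.mul_mem (H.mul_mem (H.mul_mem ha' hb') (H.inv_mem ha')) (H.inv_mem hb')
  have s3 : G2 P ≤ H := by
    intro u hu
    obtain ⟨h, hh, -, h2⟩ := s1 u hu
    have h5 := H.mul_mem (s2 h2) hh
    rwa [inv_mul_cancel_right] at h5
  rw [eq_top_iff]
  intro x _
  obtain ⟨h, hh, h2⟩ := hdec x
  have h5 := H.mul_mem (s3 h2) hh
  rwa [inv_mul_cancel_right] at h5

end group

variable {K : Type} [Field K] [NumberField K] {Ω : Type} [Field Ω] [Algebra K Ω]
  [IsAlgClosure K Ω] {p : ℕ} {ζ : K} {D : RD0 K p ζ} {m l w N : ℕ} {P R : Type}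
  [Group P] [Group R]

theorem rh_fin2 [NeZero p] [Finite R] (hp : p.Prime) (hζ : IsPrimitiveRoot ζ p) (L : LDs D Ω)
    (Dg : GP p m l w N P R) (b : Fin m → Kˣ) (E : Finset (Pl K)) (ε : Pl K → Gal(Ω/K) → R)
    (f : Fin N → Finset (Pl K)) : (RH L Dg b E ε f).Finite := by
  obtain ⟨C, hC⟩ := uord_fin hp hζ D L (fun v hv => D.above v hv)
  have hfin : Fintype R := Fintype.ofFinite R
  by_contra hinf
  obtain ⟨x, hx⟩ : ∃ x : Finset (Pl K), x = Finset.univ.biUnion f := ⟨_, rfl⟩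
  obtain ⟨M, hM⟩ : ∃ M : ℕ, M = (Finset.univ : Finset (↥x → R)).card := ⟨_, rfl⟩
  obtain ⟨Rs, hRs, hcard⟩ := (show (RH L Dg b E ε f).Infinite from hinf).exists_subset_card_eq
    (C ^ l * M + 1)
  obtain ⟨F, hF⟩ : ∃ F : (Gal(Ω/K) →* R) → (↥x → R), F = fun ρ v => ρ (L.t v.1) := ⟨_, rfl⟩
  have hfib : ∀ e ∈ (Finset.univ : Finset (↥x → R)),
      (Rs.filter fun ρ => F ρ = e).card ≤ C ^ l := by
    intro e _
    rcases (Rs.filter fun ρ => F ρ = e).eq_empty_or_nonempty with h0 | ⟨ρ₁, hρ₁⟩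
    · rw [h0, Finset.card_empty]
      exact Nat.zero_le _
    obtain ⟨Ts, hTs⟩ : ∃ Ts : Finset (Gal(Ω/K) →* R), Ts = Rs.filter fun ρ => F ρ = e :=
      ⟨_, rfl⟩
    rw [← hTs] at hρ₁ ⊢
    have hTm : ∀ ρ ∈ Ts, ρ ∈ RH L Dg b E ε f ∧ F ρ = e := by
      intro ρ hρ
      rw [hTs, Finset.mem_filter] at hρ
      exact ⟨hRs (Finset.mem_coe.2 hρ.1), hρ.2⟩
    have hdiff : ∀ ρ : Gal(Ω/K) →* R, ∃ X : Fin l → (Gal(Ω/K) →* Multiplicative (ZMod p)),
        ρ ∈ Ts → (∀ k, H38.ML.FT (X k) ∧ ∀ v, v ∉ D.S0 → ∀ τ ∈ inr L v, X k τ = 1) ∧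
          ∀ σ, Dg.π (ρ σ * (ρ₁ σ)⁻¹) = 1 ∧
            ∀ k, Dg.cv k (ρ σ * (ρ₁ σ)⁻¹) = Multiplicative.toAdd (X k σ) := by
      intro ρ
      by_cases hρ : ρ ∈ Ts
      · obtain ⟨χ, hχ, h1, h2, h3⟩ := rh_same hp hζ L Dg b E ε f ρ₁ ρ (hTm ρ₁ hρ₁).1
          (hTm ρ hρ).1 (fun i v hv => by
            have h4 := (hTm ρ hρ).2.trans (hTm ρ₁ hρ₁).2.symm
            rw [hF] at h4
            exact congrFun h4 ⟨v, by
              rw [hx]
              exact Finset.mem_biUnion.2 ⟨i, Finset.mem_univ _, hv⟩⟩)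
        refine ⟨fun k => { toFun := fun σ => Multiplicative.ofAdd (Dg.cv k (χ σ))
                           map_one' := by rw [map_one, cv_one, ofAdd_zero]
                           map_mul' := fun σ τ => by
                            rw [map_mul, Dg.vadd k _ _ (hχ σ) (hχ τ), ofAdd_add] },
          fun _ => ⟨fun k => ⟨?_, fun v hv τ hτ => ?_⟩, fun σ => ?_⟩⟩
        · obtain ⟨E', hE', hle⟩ := h2
          refine ⟨E', hE', fun σ hσ => ?_⟩
          have h5 : χ σ = 1 := hle hσ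
          rw [MonoidHom.mem_ker]
          change Multiplicative.ofAdd (Dg.cv k (χ σ)) = 1
          rw [h5, cv_one, ofAdd_zero]
        · change Multiplicative.ofAdd (Dg.cv k (χ τ)) = 1
          rw [h3 v hv τ hτ, cv_one, ofAdd_zero]
        · have h5 : ρ σ * (ρ₁ σ)⁻¹ = χ σ := by
            rw [h1, tw_apply, mul_inv_cancel_right]
          rw [h5]
          exact ⟨hχ σ, fun k => rfl⟩
      · exact ⟨fun _ => 1, fun h => absurd h hρ⟩
    choose X hX using hdiff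
    have hinj : Set.InjOn X Ts := by
      intro ρ hρ ρ' hρ' h
      apply MonoidHom.ext
      intro σ
      obtain ⟨-, h1⟩ := hX ρ hρ
      obtain ⟨-, h2⟩ := hX ρ' hρ'
      have h3 := v_ext Dg _ _ (h1 σ).1 (h2 σ).1 fun k => by
        rw [(h1 σ).2 k, (h2 σ).2 k, h]
      exact mul_right_cancel h3
    rw [← Finset.card_image_of_injOn hinj]
    have hsub : Ts.image X ⊆ Fintype.piFinset fun k => (Ts.image X).image fun Y => Y k := by
      intro Y hY
      rw [Fintype.mem_piFinset]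
      intro k
      exact Finset.mem_image_of_mem _ hY
    refine (Finset.card_le_card hsub).trans ?_
    rw [Fintype.card_piFinset]
    calc ∏ k : Fin l, ((Ts.image X).image fun Y => Y k).card ≤ ∏ _k : Fin l, C := by
          refine Finset.prod_le_prod' fun k _ => ?_
          refine hC _ fun χ hχ => ?_
          obtain ⟨Y, hY, rfl⟩ := Finset.mem_image.1 hχ
          obtain ⟨ρ, hρ, rfl⟩ := Finset.mem_image.1 hY
          exact (hX ρ hρ).1 k
      _ = C ^ l := by rw [Finset.prod_const, Finset.card_univ, Fintype.card_fin]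
  have h2 := Finset.card_le_mul_card_image_of_maps_to
    (fun ρ _ => Finset.mem_univ (F ρ)) (C ^ l) hfib
  rw [hcard, ← hM] at h2
  omega

theorem mem_RHf' [NeZero p] [Finite R] (hp : p.Prime) (hζ : IsPrimitiveRoot ζ p) {L : LDs D Ω}
    {Dg : GP p m l w N P R} {b : Fin m → Kˣ}
    {E : Finset (Pl K)} {ε : Pl K → Gal(Ω/K) → R} {f : Fin N → Finset (Pl K)}
    {ρ : Gal(Ω/K) →* R} : ρ ∈ RHf L Dg b E ε f ↔ ρ ∈ RH L Dg b E ε f := by
  unfold RHf
  rw [dif_pos (rh_fin2 hp hζ L Dg b E ε f), Set.Finite.mem_toFinset]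

omit [IsAlgClosure K Ω] in
/-- `SpR` gives surjectivity on `F_p^m` -/
theorem sp_surj [NeZero p] (hp : p.Prime) (L : LDs D Ω)
    (Dg : GP p m l w N P R) (E : Finset (Pl K)) (ε : Pl K → Gal(Ω/K) → R)
    (f : Fin N → Finset (Pl K)) (ρ : Gal(Ω/K) →* R) (hρ : ρ ∈ RH L Dg (fun _ => 1) E ε f)
    (hsp : SpR Dg.cr (fun _ => 1) f) (y : Multiplicative (Fin m → ZMod p)) :
    ∃ σ, Dg.π (ρ σ) = y := by
  have : Fact p.Prime := ⟨hp⟩
  let S : Submodule (ZMod p) (Fin m → ZMod p) :=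
    { carrier := {y | ∃ σ, Multiplicative.toAdd (Dg.π (ρ σ)) = y}
      add_mem' := by
        rintro _ _ ⟨σ, rfl⟩ ⟨τ, rfl⟩
        exact ⟨σ * τ, by rw [map_mul, map_mul, toAdd_mul]⟩
      zero_mem' := ⟨1, by rw [map_one, map_one, toAdd_one]⟩
      smul_mem' := by
        rintro r _ ⟨σ, rfl⟩
        refine ⟨σ ^ r.val, ?_⟩
        rw [map_pow, map_pow, toAdd_pow]
        funext k
        rw [Pi.smul_apply, Pi.smul_apply, smul_eq_mul, nsmul_eq_mul, ZMod.natCast_zmod_val] }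
  have hS : S = ⊤ := by
    by_contra hne
    obtain ⟨F, hF, hle⟩ := Submodule.exists_le_ker_of_lt_top S (lt_top_iff_ne_top.2 hne)
    obtain ⟨θ, hθ⟩ : ∃ θ : Fin m → ZMod p, ∀ y, F y = dt θ y := by
      refine ⟨fun k => F (Pi.single k 1), fun y => ?_⟩
      have h1 : y = ∑ k, y k • (Pi.single k (1 : ZMod p) : Fin m → ZMod p) := by
        funext j
        rw [Finset.sum_apply, Finset.sum_eq_single j]
        · simp
        · intro k _ hk
          simp [hk.symm]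
        · intro h
          exact absurd (Finset.mem_univ j) h
      conv_lhs => rw [h1]
      rw [map_sum]
      unfold dt
      refine Finset.sum_congr rfl fun k _ => ?_
      rw [map_smul, smul_eq_mul, mul_comm]
    have hθ0 : θ ≠ 0 := by
      rintro rfl
      apply hF
      apply LinearMap.ext
      intro y
      rw [hθ, LinearMap.zero_apply]
      unfold dt
      simp
    rcases hsp θ hθ0 with ⟨i, hi, h1⟩ | h1
    · obtain ⟨v, hv⟩ := Finset.nonempty_iff_ne_empty.2 hi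
      have h2 := (hρ.2.2.1 i v hv).1
      obtain ⟨c, hc⟩ := isConj_iff.1 h2
      have h3 : Dg.π (ρ (L.t v)) = Dg.π (Dg.q (Dg.g i)) := by
        rw [← hc, map_mul, map_mul, map_inv, mul_comm (Dg.π c), mul_inv_cancel_right]
      have h4 : Dg.cr.x i ∈ S := ⟨L.t v, by
        rw [h3]
        rfl⟩
      have h5 := hle h4
      rw [LinearMap.mem_ker, hθ] at h5
      exact h1 h5
    · apply h1
      refine ⟨1, ?_⟩
      unfold bp
      simp
  have h1 : Multiplicative.toAdd y ∈ S := by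
    rw [hS]
    exact Submodule.mem_top
  obtain ⟨σ, hσ⟩ := h1
  exact ⟨σ, Multiplicative.toAdd.injective hσ⟩

end H77.PC3
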