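import Pool.Agent.H77.PC3.CLg

/-!
# H77-PC3-CLH: many lifts (`many3`), many elements of `RH` (`rh_card`)
-/

set_option autoImplicit false

open scoped NumberField
open IsDedekindDomain
open scoped Classical

noncomputable section

namespace H77.PC3

open H63.MA H38.BB H38.BG H57.PC H57.BRA H63.BU

variable {K : Type} [Field K] [NumberField K] {Ω : Type} [Field Ω] [Algebra K Ω]
  [IsAlgClosure K Ω] {p : ℕ} {ζ : K} {D : RD0 K p ζ} {m l w N : ℕ} {P R : Type}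
  [Group P] [Group R]

/-- the function on the primes given by a family of values -/
theorem fam_fun {A : Type} [Nonempty A] (f : Fin N → Finset (Pl K)) (hdj : Dj f)
    (e : (i : Fin N) → (↥(f i) → A)) :
    ∃ y : Pl K → A, ∀ i (v : Pl K) (hv : v ∈ f i), y v = e i ⟨v, hv⟩ := by
  refine ⟨fun v => if h : ∃ i, v ∈ f i then e h.choose ⟨v, h.choose_spec⟩
    else Classical.arbitrary A, fun i v hv => ?_⟩
  have h : ∃ i, v ∈ f i := ⟨i, hv⟩
  simp only [dif_pos h]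
  have hi : h.choose = i := by
    by_contra hne
    exact Finset.disjoint_left.1 (hdj _ _ hne) h.choose_spec hv
  have key : ∀ j (hj : v ∈ f j), j = i → e j ⟨v, hj⟩ = e i ⟨v, hv⟩ := by
    rintro j hj rfl
    rfl
  exact key _ h.choose_spec hi

theorem many3 [NeZero p] [Finite P] (hp : p.Prime) (h2 : p ≠ 2) (hp2 : MOne p K)
    (hζ : IsPrimitiveRoot ζ p) (hz : Z2 p K) {L : LDs D Ω} (Fr : FR L)
    (Dg : GP p m l w N P R) (ε : Pl K → Gal(Ω/K) → R) (f : Fin N → Finset (Pl K))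
    (hdj : Dj f) (hS : ∀ i, ∀ v ∈ f i, v ∉ D.S0) (hq : ∀ i, qf D (f i) = 0)
    (hsp : SpR Dg.cr (fun _ => 1) f) (ρ : Gal(Ω/K) →* R)
    (hρ : ρ ∈ RH L Dg (fun _ => 1) ∅ ε f) (hc : ∀ i, ∀ v ∈ f i, cq Dg Fr ρ v = 0) :
    ∃ Ps : Finset (Gal(Ω/K) →* P), Ps.card = ∏ i, Dg.Wn i ^ (f i).card ∧
      ∀ ψ ∈ Ps, H38.ML.FT ψ ∧ Function.Surjective ψ ∧ (∀ σ, Dg.q (ψ σ) = ρ σ) ∧
        (∀ i, ∀ v ∈ f i, IsConj (ψ (L.t v)) (Dg.g i) ∧ ∀ τ ∈ inr L v, ψ τ ^ p = 1) ∧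
        ∀ v, v ∉ D.S0 → (∀ i, v ∉ f i) → ∀ τ ∈ inr L v, ψ τ = 1 := by
  have hfin : Fintype P := Fintype.ofFinite P
  have hRf : Finite R := Finite.of_surjective _ Dg.qs
  obtain ⟨ψ₀, k0, k1⟩ := lift3 hp h2 hp2 hζ hz Fr Dg ε f hS hq ρ hρ hc
  obtain ⟨r0, r1, r2, r3, r4⟩ := hρ
  obtain ⟨x, hx⟩ : ∃ x : Finset (Pl K), x = Finset.univ.biUnion f := ⟨_, rfl⟩
  have hxm : ∀ v, v ∈ x ↔ ∃ i, v ∈ f i := by
    intro v
    rw [hx, Finset.mem_biUnion]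
    simp
  obtain ⟨T, hT⟩ : ∃ T : Finset ((i : Fin N) → (↥(f i) → P)), T =
    Fintype.piFinset (fun i => Fintype.piFinset
      (fun v : ↥(f i) => Finset.univ.filter fun h : P => IsConj h (Dg.g i) ∧
        Dg.q h = ρ (L.t v.1))) := ⟨_, rfl⟩
  have hTm : ∀ e ∈ T, ∀ i (v : ↥(f i)), IsConj (e i v) (Dg.g i) ∧
      Dg.q (e i v) = ρ (L.t v.1) := by
    intro e he i v
    rw [hT, Fintype.mem_piFinset] at he
    have h3 := (Fintype.mem_piFinset.1 (he i)) v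
    rw [Finset.mem_filter] at h3
    exact h3.2
  have hTc : T.card = ∏ i, Dg.Wn i ^ (f i).card := by
    rw [hT, Fintype.card_piFinset]
    refine Finset.prod_congr rfl fun i _ => ?_
    rw [Fintype.card_piFinset, ← Finset.card_univ.trans (Fintype.card_coe (f i)),
      ← Finset.prod_const]
    refine Finset.prod_congr rfl fun v _ => ?_
    rw [← wn_conj Dg i (ρ (L.t v.1)) (r2 i v.1 v.2).1, Nat.card_eq_fintype_card,
      Fintype.card_subtype]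
  have hex : ∀ e : (i : Fin N) → (↥(f i) → P), ∃ ψ : Gal(Ω/K) →* P, e ∈ T →
      H38.ML.FT ψ ∧ (∀ σ, Dg.q (ψ σ) = ρ σ) ∧
      (∀ i (v : ↥(f i)), ψ (L.t v.1) = e i v) ∧
      (∀ v ∈ x, ∀ τ ∈ inr L v, ψ τ ^ p = 1) ∧
      ∀ v, v ∉ D.S0 → v ∉ x → ∀ τ ∈ inr L v, ψ τ = 1 := by
    intro e
    by_cases he : e ∈ T
    · obtain ⟨y, hy⟩ := fam_fun f hdj e
      obtain ⟨ψ, a1, a2, a3, a4, a5⟩ := cx_adj (gx3 Dg) hp hζ L ρ ψ₀ k0 k1 x
        (fun v hv => by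
          obtain ⟨i, hi⟩ := (hxm v).1 hv
          exact hS i v hi)
        (fun v hv hvx τ hτ => r4 v hv (Finset.notMem_empty v)
          (fun i hi => hvx ((hxm v).2 ⟨i, hi⟩)) τ hτ)
        (fun v hv τ hτ z hz' => by
          obtain ⟨i, hi⟩ := (hxm v).1 hv
          refine pow_lift3 Dg i z _ (ρ (L.t v)) (r2 i v hi).1
            (hz'.trans (tm_z hp hζ L ρ r0 v (hS i v hi) (r2 i v hi).2 τ hτ)))
        y (fun v hv => by
          obtain ⟨i, hi⟩ := (hxm v).1 hv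
          rw [hy i v hi]
          exact (hTm e he i ⟨v, hi⟩).2)
      exact ⟨ψ, fun _ => ⟨a1, a2, fun i v => by
        rw [a3 v.1 ((hxm v.1).2 ⟨i, v.2⟩), hy i v.1 v.2], a4, a5⟩⟩
    · exact ⟨1, fun h => absurd h he⟩
  choose ψ hψ using hex
  have hinj : Set.InjOn ψ T := by
    intro e he e' he' h
    funext i v
    obtain ⟨-, -, h3, -⟩ := hψ e he
    obtain ⟨-, -, h3', -⟩ := hψ e' he'
    rw [← h3 i v, ← h3' i v, h]
  refine ⟨T.image ψ, by rw [Finset.card_image_of_injOn hinj, hTc], ?_⟩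
  intro ψ' hψ'
  obtain ⟨e, he, rfl⟩ := Finset.mem_image.1 hψ'
  obtain ⟨a1, a2, a3, a4, a5⟩ := hψ e he
  refine ⟨a1, ?_, a2, fun i v hv => ⟨?_, a4 v ((hxm v).2 ⟨i, hv⟩)⟩, fun v hv hvf τ hτ => ?_⟩
  · rw [← MonoidHom.range_eq_top]
    refine gp_frat Dg _ fun y => ?_
    obtain ⟨σ, hσ⟩ := sp_surj hp L Dg ∅ ε f ρ ⟨r0, r1, r2, r3, r4⟩ hsp (Dg.π (Dg.q y))
    exact ⟨ψ e σ, ⟨σ, rfl⟩, by rw [a2, hσ]⟩
  · rw [a3 i ⟨v, hv⟩]
    exact (hTm e he i ⟨v, hv⟩).1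
  · exact a5 v hv (fun hvx => by
      obtain ⟨i, hi⟩ := (hxm v).1 hvx
      exact hvf i hi) τ hτ

theorem rh_card [NeZero p] [Finite R] (hp : p.Prime) (hp2 : MOne p K)
    (hζ : IsPrimitiveRoot ζ p) (hz : Z2 p K) {L : LDs D Ω} (Fr : FR L)
    (Dg : GP p m l w N P R) (ε : Pl K → Gal(Ω/K) → R) (f : Fin N → Finset (Pl K)) (hdj : Dj f)
    (hS : ∀ i, ∀ v ∈ f i, v ∉ D.S0) (hq : ∀ i, qf D (f i) = 0)
    (hc : ∀ i, ∀ v ∈ f i,
      Dg.kV (fun j => D.LL v (akR D Dg.cr (fun _ => 1) f j)) (Dg.s i) = 0) :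
    ∏ i, Nat.card {r : R // IsConj r (Dg.q (Dg.g i))} ^ (f i).card ≤
      (RHf L Dg (fun _ => 1) ∅ ε f).card := by
  have hfin : Fintype R := Fintype.ofFinite R
  obtain ⟨ρ₀, k0, k1⟩ := lift2 hp hp2 hζ hz Fr Dg f hdj hS hq hc
  obtain ⟨x, hx⟩ : ∃ x : Finset (Pl K), x = Finset.univ.biUnion f := ⟨_, rfl⟩
  have hxm : ∀ v, v ∈ x ↔ ∃ i, v ∈ f i := by
    intro v
    rw [hx, Finset.mem_biUnion]
    simp
  obtain ⟨T, hT⟩ : ∃ T : Finset ((i : Fin N) → (↥(f i) → R)), T =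
    Fintype.piFinset (fun i => Fintype.piFinset
      (fun _ : ↥(f i) => Finset.univ.filter fun h : R => IsConj h (Dg.q (Dg.g i)))) := ⟨_, rfl⟩
  have hTm : ∀ e ∈ T, ∀ i (v : ↥(f i)), IsConj (e i v) (Dg.q (Dg.g i)) := by
    intro e he i v
    rw [hT, Fintype.mem_piFinset] at he
    have h3 := (Fintype.mem_piFinset.1 (he i)) v
    rw [Finset.mem_filter] at h3
    exact h3.2
  have hTc : T.card = ∏ i, Nat.card {r : R // IsConj r (Dg.q (Dg.g i))} ^ (f i).card := by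
    rw [hT, Fintype.card_piFinset]
    refine Finset.prod_congr rfl fun i _ => ?_
    rw [Fintype.card_piFinset, Finset.prod_const, Finset.card_univ, Fintype.card_coe,
      Nat.card_eq_fintype_card, Fintype.card_subtype]
  have hex : ∀ e : (i : Fin N) → (↥(f i) → R), ∃ ψ : Gal(Ω/K) →* R, e ∈ T →
      ψ ∈ RH L Dg (fun _ => 1) ∅ ε f ∧ ∀ i (v : ↥(f i)), ψ (L.t v.1) = e i v := by
    intro e
    by_cases he : e ∈ T
    · obtain ⟨y, hy⟩ := fam_fun f hdj e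
      obtain ⟨ψ, a1, a2, a3, a4, a5⟩ := cx_adj (gx2 Dg) hp hζ L
        (kuh p ζ Ω (akR D Dg.cr (fun _ => 1) f)) ρ₀ k0 k1 x
        (fun v hv => by
          obtain ⟨i, hi⟩ := (hxm v).1 hv
          exact hS i v hi)
        (fun v hv hvx τ hτ => kuh_un hp hζ L Dg.cr f hS v hv
          (fun i hi => hvx ((hxm v).2 ⟨i, hi⟩)) τ hτ)
        (fun v hv τ hτ z hz' => by
          obtain ⟨i, hi⟩ := (hxm v).1 hv
          refine pow_lift2 Dg i z (kk p ζ (D.pi v) τ).val ?_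
          have h3 := tm_z hp hζ L _ (kuh_ft hp hζ (akR D Dg.cr (fun _ => 1) f)) v (hS i v hi)
            (fun σ _ => kuh_pow _ σ) τ hτ
          rw [kuh_t hp hζ L Dg.cr f hdj hS i v hi] at h3
          exact hz'.trans h3)
        y (fun v hv => by
          obtain ⟨i, hi⟩ := (hxm v).1 hv
          obtain ⟨c, hc'⟩ := isConj_iff.1 (hTm e he i ⟨v, hi⟩)
          rw [hy i v hi, kuh_t hp hζ L Dg.cr f hdj hS i v hi]
          have h3 : Dg.π (e i ⟨v, hi⟩) = Dg.π (Dg.q (Dg.g i)) := by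
            rw [← hc', map_mul, map_mul, map_inv, mul_comm (Dg.π c), mul_inv_cancel_right]
          exact h3)
      have a3' : ∀ i (v : ↥(f i)), ψ (L.t v.1) = e i v := fun i v => by
        rw [a3 v.1 ((hxm v.1).2 ⟨i, v.2⟩), hy i v.1 v.2]
      refine ⟨ψ, fun _ => ⟨⟨a1, fun σ k => ?_, fun i v hv => ⟨?_, a4 v ((hxm v).2 ⟨i, hv⟩)⟩,
        fun v hv => absurd hv (Finset.notMem_empty v), fun v hv _ hvf τ hτ => ?_⟩, a3'⟩⟩
      · have h3 := a2 σ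
        change Dg.π (ψ σ) = _ at h3
        rw [h3]
        rfl
      · rw [a3' i ⟨v, hv⟩]
        exact hTm e he i ⟨v, hv⟩
      · exact a5 v hv (fun hvx => by
          obtain ⟨i, hi⟩ := (hxm v).1 hvx
          exact hvf i hi) τ hτ
    · exact ⟨1, fun h => absurd h he⟩
  choose ψ hψ using hex
  have hinj : Set.InjOn ψ T := by
    intro e he e' he' h
    funext i v
    rw [← (hψ e he).2 i v, ← (hψ e' he').2 i v, h]
  rw [← hTc, ← Finset.card_image_of_injOn hinj]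
  refine Finset.card_le_card fun ρ hρ => ?_
  obtain ⟨e, he, rfl⟩ := Finset.mem_image.1 hρ
  rw [mem_RHf' hp hζ]
  exact (hψ e he).1

end H77.PC3
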