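import Pool.Agent.H77.PC3.CTw
import Pool.Agent.H63.BU.UGsr

/-!
# H77-PC3-CRH: `RH` is finite
-/

set_option autoImplicit false

open scoped NumberField
open IsDedekindDomain
open scoped Classical

noncomputable section

namespace H77.PC3

open H63.MA H38.BB H38.BG H57.PC H63.BU

variable {K : Type} [Field K] [NumberField K] {Ω : Type} [Field Ω] [Algebra K Ω]
  {p : ℕ} {ζ : K} {D : RD0 K p ζ} {m l w N : ℕ} {P R : Type} [Group P] [Group R]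

/-- elements of `RH` with the same labels agree on all inertia groups outside `S0` -/
theorem rh_agree [NeZero p] [IsAlgClosure K Ω] [Finite R] (hp : p.Prime)
    (hζ : IsPrimitiveRoot ζ p) (L : LDs D Ω) (Dg : GP p m l w N P R) (b : Fin m → Kˣ)
    (E : Finset (Pl K)) (ε : Pl K → Gal(Ω/K) → R) (f : Fin N → Finset (Pl K))
    (ρ ρ' : Gal(Ω/K) →* R) (hρ : ρ ∈ RH L Dg b E ε f) (hρ' : ρ' ∈ RH L Dg b E ε f)
    (h : ∀ i, ∀ v ∈ f i, ρ (L.t v) = ρ' (L.t v)) (v : Pl K) (hv : v ∉ D.S0)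
    (τ : Gal(Ω/K)) (hτ : τ ∈ inr L v) : ρ τ = ρ' τ := by
  obtain ⟨r0, r1, r2, r3, r4⟩ := hρ
  obtain ⟨s0, s1, s2, s3, s4⟩ := hρ'
  by_cases hvE : v ∈ E
  · rw [r3 v hvE τ hτ, s3 v hvE τ hτ]
  by_cases hvf : ∃ i, v ∈ f i
  · obtain ⟨i, hi⟩ := hvf
    rw [tm_z hp hζ L ρ r0 v hv (r2 i v hi).2 τ hτ, tm_z hp hζ L ρ' s0 v hv (s2 i v hi).2 τ hτ,
      h i v hi]
  · rw [r4 v hv hvE (fun i hi => hvf ⟨i, hi⟩) τ hτ, s4 v hv hvE (fun i hi => hvf ⟨i, hi⟩) τ hτ]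

theorem rh_finite [NeZero p] [IsAlgClosure K Ω] [Finite R] (hp : p.Prime)
    (hζ : IsPrimitiveRoot ζ p) (L : LDs D Ω) (Dg : GP p m l w N P R)
    (hnil : Group.IsNilpotent R) (n : ℕ) (hn : 0 < n) (z : K) (hz : IsPrimitiveRoot z n)
    (hS : ∀ v : Pl K, ((n : ℕ) : 𝓞 K) ∈ v.asIdeal → v ∈ D.S0) (hR : Nat.card R ∣ n)
    (b : Fin m → Kˣ) (E : Finset (Pl K)) (ε : Pl K → Gal(Ω/K) → R)
    (f : Fin N → Finset (Pl K)) : (RH L Dg b E ε f).Finite := by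
  obtain ⟨C, hC⟩ := ugsr D L n hn z hz hS R hnil hR
  have hfin : Fintype R := Fintype.ofFinite R
  by_contra hinf
  let x : Finset (Pl K) := Finset.univ.biUnion f
  let M : ℕ := (Finset.univ : Finset (↥x → R)).card
  obtain ⟨Rs, hRs, hcard⟩ := (show (RH L Dg b E ε f).Infinite from hinf).exists_subset_card_eq
    (C * M + 1)
  let F : (Gal(Ω/K) →* R) → (↥x → R) := fun ρ v => ρ (L.t v.1)
  have hfib : ∀ e ∈ (Finset.univ : Finset (↥x → R)), (Rs.filter fun ρ => F ρ = e).card ≤ C := by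
    intro e _
    refine hC _ (fun ρ hρ => (hRs (Finset.mem_coe.2 (Finset.mem_filter.1 hρ).1)).1) ?_
    intro ρ hρ ρ' hρ' v hv τ hτ
    rw [Finset.mem_filter] at hρ hρ'
    refine rh_agree hp hζ L Dg b E ε f ρ ρ' (hRs (Finset.mem_coe.2 hρ.1))
      (hRs (Finset.mem_coe.2 hρ'.1)) ?_ v hv τ hτ
    intro i v hi
    exact congrFun (hρ.2.trans hρ'.2.symm)
      ⟨v, Finset.mem_biUnion.2 ⟨i, Finset.mem_univ _, hi⟩⟩
  have h2 := Finset.card_le_mul_card_image_of_maps_to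
    (fun ρ _ => Finset.mem_univ (F ρ)) C hfib
  rw [hcard] at h2
  change C * M + 1 ≤ C * M at h2
  omega

end H77.PC3
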