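import Pool.Agent.H77.PC3.CTo

/-!
# H77-PC3-CSU: the number of homomorphisms with given `E` and Kummer data

`csu`: at most `C (#G)^{#E} M` if `FSum Q.Dg Fr b E ε (UY B a E) ≤ M` for all `ε`.
-/

set_option autoImplicit false

open scoped NumberField
open IsDedekindDomain
open scoped Classical

noncomputable section

namespace H77.PC3

open H63.MA H38.BB H38.BG H57.PC H63.BU H77.AB

variable {K : Type} [Field K] [NumberField K] {Ω : Type} [Field Ω] [Algebra K Ω]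
  [IsAlgClosure K Ω] {p : ℕ} [NeZero p] {ζ : K} {m l w N : ℕ} {G P H R : Type}
  [Group G] [Finite G] [Group P] [Group H] [Group R]

omit [IsAlgClosure K Ω] in
theorem fw_nonneg {D : RD0 K p ζ} {L : LDs D Ω} (Dg : GP p m l w N P R) (Fr : FR L)
    (b : Fin m → Kˣ) (E : Finset (Pl K)) (ε : Pl K → Gal(Ω/K) → R)
    (f : Fin N → Finset (Pl K)) : 0 ≤ FW Dg Fr b E ε f := by
  unfold FW
  refine Finset.sum_nonneg fun ρ _ => ?_
  split_ifs <;> positivity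

theorem csu (hp : p.Prime) (hζ : IsPrimitiveRoot ζ p) (D : RD0 K p ζ) (L : LDs D Ω)
    (hnil : Group.IsNilpotent G) (Q : GQ p m l w N G P H R) (Fr : FR L) (z : K)
    (hz : IsPrimitiveRoot z (Nat.card G))
    (hS : ∀ v : Pl K, ((Nat.card G : ℕ) : 𝓞 K) ∈ v.asIdeal → v ∈ D.S0) (a : ℕ) (ha : 0 < a)
    (ix : Subgroup G → ℕ) (h1 : ∀ H, H ≠ ⊥ → a ≤ ix H)
    (h2 : ∀ g : G, g ≠ 1 → ix (Subgroup.zpowers g) ≤ a → ∃ i, IsConj g (Q.cl.g i)) :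
    ∃ C : ℕ, ∀ (B : ℝ) (E : Finset (Pl K)) (b : Fin m → Kˣ)
      (Rs : Finset (Gal(Ω/K) →* G)),
      (∀ φ ∈ Rs, H38.ML.FT φ ∧ (∀ T : Finset (Pl K), (∀ v ∈ T, v ∉ D.S0) →
          ∏ v ∈ T, (nm v : ℝ) ^ ix ((inr L v).map φ) ≤ B) ∧
        (∀ v, v ∈ E ↔ Rm L φ v ∧ ∀ i, ¬ TyC Q.cl L φ i v) ∧
        ∀ f : Fin N → Finset (Pl K), (∀ i v, v ∈ f i ↔ TyC Q.cl L φ i v) →
          (∀ (σ : Gal(Ω/K)) k, kk p ζ (akR D Q.Dg.cr b f k) σ =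
            Multiplicative.toAdd (Q.Dg.π (Q.Dg.q (Q.pr (φ σ)))) k) ∧ SpR Q.Dg.cr b f) →
      ∀ M : ℝ, (∀ ε, FSum Q.Dg Fr b E ε (UY B a E) ≤ M) →
      (Rs.card : ℝ) ≤ C * (Nat.card G : ℝ) ^ E.card * M := by
  have hfin : Fintype G := Fintype.ofFinite G
  obtain ⟨C, hC⟩ := cto hp hζ D L hnil Q Fr z hz hS
  refine ⟨C, fun B E b Rs hRs M hM => ?_⟩
  have h3 := fun v => uinr_cyc L (Nat.card G) hS (H := G) rfl Rs (fun φ hφ => (hRs φ hφ).1) v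
  choose τ hτ hτ2 using h3
  -- the labels
  obtain ⟨lab, hlab⟩ : ∃ lab : (Gal(Ω/K) →* G) → (↥E → G), lab = fun φ v => φ (τ v.1) :=
    ⟨_, rfl⟩
  have hagree : ∀ φ ∈ Rs, ∀ φ' ∈ Rs, lab φ = lab φ' → ∀ v ∈ E, ∀ σ ∈ inr L v, φ σ = φ' σ := by
    intro φ hφ φ' hφ' h v hv σ hσ
    obtain ⟨k, hk⟩ := hτ2 v σ hσ
    have h4 : φ (τ v) = φ' (τ v) := by
      rw [hlab] at h
      exact congrFun h ⟨v, hv⟩
    rw [hk φ hφ, hk φ' hφ', h4]
  have hex : ∀ e : ↥E → G, ∃ ε : Pl K → Gal(Ω/K) → R, ∀ φ ∈ Rs, lab φ = e → ∀ v ∈ E,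
      ∀ σ ∈ inr L v, Q.Dg.q (Q.pr (φ σ)) = ε v σ := by
    intro e
    by_cases he : ∃ φ₀ ∈ Rs, lab φ₀ = e
    · obtain ⟨φ₀, h5, h6⟩ := he
      refine ⟨fun _ σ => Q.Dg.q (Q.pr (φ₀ σ)), fun φ hφ h v hv σ hσ => ?_⟩
      rw [hagree φ hφ φ₀ h5 (h.trans h6.symm) v hv σ hσ]
    · exact ⟨fun _ _ => 1, fun φ hφ h => absurd ⟨φ, hφ, h⟩ he⟩
  choose ε hε using hex
  -- the families
  obtain ⟨fam, hfam⟩ : ∃ fam : (Gal(Ω/K) →* G) → Fin N → Finset (Pl K),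
      ∀ φ ∈ Rs, ∀ i v, v ∈ fam φ i ↔ TyC Q.cl L φ i v := by
    have hfin : ∀ φ ∈ Rs, ∀ i, {v : Pl K | TyC Q.cl L φ i v}.Finite := by
      intro φ hφ i
      refine (uinr_fin L φ (hRs φ hφ).1).subset ?_
      intro v hv
      exact (clead_ty L Q.cl φ i v hv).1
    refine ⟨fun φ i => if h : {v : Pl K | TyC Q.cl L φ i v}.Finite then h.toFinset else ∅,
      fun φ hφ i v => ?_⟩
    dsimp only
    rw [dif_pos (hfin φ hφ i), Set.Finite.mem_toFinset]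
    rfl
  have hmap : ∀ φ ∈ Rs, fam φ ∈ Fintype.piFinset (fun _ : Fin N => GF D (UY B a E)) := by
    intro φ hφ
    obtain ⟨r1, r2, r3, r4⟩ := hRs φ hφ
    obtain ⟨-, -, -, -, -, h6⟩ := ccnt_nr hp hζ D L Q.cl hS a ha ix h1 h2 φ r1 B r2 (fam φ) E
      (hfam φ hφ) r3
    exact Fintype.mem_piFinset.2 h6
  have hfib : ∀ (e : ↥E → G), ∀ f ∈ Fintype.piFinset (fun _ : Fin N => GF D (UY B a E)),
      (((Rs.filter fun φ => lab φ = e).filter fun φ => fam φ = f).card : ℝ) ≤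
        C * (if Dj f ∧ (∀ i, Disjoint (f i) E) ∧ ∏ i, nr (f i) ≤ UY B a E ∧ SpR Q.Dg.cr b f then
          FW Q.Dg Fr b E (ε e) f else 0) := by
    intro e f _
    rcases ((Rs.filter fun φ => lab φ = e).filter fun φ => fam φ = f).eq_empty_or_nonempty with
      hemp | ⟨φ, hφ⟩
    · rw [hemp, Finset.card_empty, Nat.cast_zero]
      have := fw_nonneg Q.Dg Fr b E (ε e) f
      split_ifs <;> positivity
    · have hm : ∀ φ ∈ (Rs.filter fun φ => lab φ = e).filter fun φ => fam φ = f,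
          φ ∈ Rs ∧ lab φ = e ∧ ∀ i v, v ∈ f i ↔ TyC Q.cl L φ i v := by
        intro φ hφ
        rw [Finset.mem_filter, Finset.mem_filter] at hφ
        refine ⟨hφ.1.1, hφ.1.2, ?_⟩
        rw [← hφ.2]
        exact hfam φ hφ.1.1
      obtain ⟨hφR, hφe, hφf⟩ := hm φ hφ
      obtain ⟨r1, r2, r3, r4⟩ := hRs φ hφR
      obtain ⟨g1, g2, g3, -, -, g6⟩ := ccnt_nr hp hζ D L Q.cl hS a ha ix h1 h2 φ r1 B r2 f E
        hφf r3
      rw [if_pos ⟨g2, g3, g1, (r4 f hφf).2⟩]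
      refine hC E f b (ε e) _ (fun ψ hψ => (hRs ψ (hm ψ hψ).1).1) (fun ψ hψ => (hm ψ hψ).2.2)
        (fun ψ hψ => (hRs ψ (hm ψ hψ).1).2.2.1)
        (fun ψ hψ => ((hRs ψ (hm ψ hψ).1).2.2.2 f (hm ψ hψ).2.2).1)
        (fun ψ hψ ψ' hψ' v hv σ hσ => hagree ψ (hm ψ hψ).1 ψ' (hm ψ' hψ').1
          ((hm ψ hψ).2.1.trans (hm ψ' hψ').2.1.symm) v hv σ hσ)
        (fun ψ hψ v hv σ hσ => hε e ψ (hm ψ hψ).1 (hm ψ hψ).2.1 v hv σ hσ)
  rw [Finset.card_eq_sum_card_fiberwise (f := lab) (s := Rs) (t := Finset.univ)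
    (fun φ _ => Finset.mem_coe.2 (Finset.mem_univ _)), Nat.cast_sum]
  have h7 : (C : ℝ) * (Nat.card G : ℝ) ^ E.card * M = ∑ _e : ↥E → G, (C : ℝ) * M := by
    rw [Finset.sum_const, Finset.card_univ, Fintype.card_fun, Fintype.card_coe,
      Nat.card_eq_fintype_card, nsmul_eq_mul, Nat.cast_pow]
    ring
  rw [h7]
  refine Finset.sum_le_sum fun e _ => ?_
  refine le_trans ?_ (mul_le_mul_of_nonneg_left (hM (ε e)) (Nat.cast_nonneg C))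
  rw [Finset.card_eq_sum_card_fiberwise (f := fam) (s := Rs.filter fun φ => lab φ = e)
    (t := Fintype.piFinset (fun _ : Fin N => GF D (UY B a E)))
    (fun φ hφ => hmap φ (Finset.mem_filter.1 (Finset.mem_coe.1 hφ)).1), Nat.cast_sum]
  refine (Finset.sum_le_sum (hfib e)).trans (le_of_eq ?_)
  unfold FSum
  rw [Finset.mul_sum]

end H77.PC3
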