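import Pool.Agent.H77.PC3.CLi
import Pool.Agent.H77.PC3.CKu

/-!
# H77-PC3-CTO: the number of homomorphisms to `G` with given families, exceptional primes, Kummer data and labels at `E`

`cto`: at most `C · FW Q.Dg Fr b E ε f`.
-/

set_option autoImplicit false

open scoped NumberField
open IsDedekindDomain
open scoped Classical

noncomputable section

namespace H77.PC3

open H63.MA H38.BB H38.BG H57.PC H63.BU H77.AB

variable {K : Type} [Field K] [NumberField K] {Ω : Type} [Field Ω] [Algebra K Ω]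
  [IsAlgClosure K Ω] {p : ℕ} [NeZero p] {ζ : K} {m l w N : ℕ} {G P H R : Type}
  [Group G] [Finite G] [Group P] [Group H] [Group R]

omit [Finite G] in
theorem cto_mem {D : RD0 K p ζ} (L : LDs D Ω) (Q : GQ p m l w N G P H R)
    (E : Finset (Pl K)) (f : Fin N → Finset (Pl K)) (b : Fin m → Kˣ)
    (ε : Pl K → Gal(Ω/K) → R) (φ : Gal(Ω/K) →* G) (h0 : H38.ML.FT φ)
    (h1 : ∀ i v, v ∈ f i ↔ TyC Q.cl L φ i v)
    (h2 : ∀ v, v ∈ E ↔ Rm L φ v ∧ ∀ i, ¬ TyC Q.cl L φ i v)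
    (h3 : ∀ (σ : Gal(Ω/K)) k, kk p ζ (akR D Q.Dg.cr b f k) σ =
      Multiplicative.toAdd (Q.Dg.π (Q.Dg.q (Q.pr (φ σ)))) k)
    (h4 : ∀ v ∈ E, ∀ τ ∈ inr L v, Q.Dg.q (Q.pr (φ τ)) = ε v τ) :
    Q.Dg.q.comp (Q.pr.comp φ) ∈ RH L Q.Dg b E ε f := by
  refine ⟨H38.ML.ft_comp _ _ (H38.ML.ft_comp _ _ h0), h3, fun i v hv => ⟨?_, fun τ hτ => ?_⟩, h4,
    fun v hv hvE hvf τ hτ => ?_⟩
  · have h5 := ((h1 i v).1 hv).2.1
    rw [MonoidHom.comp_apply, MonoidHom.comp_apply, ← Q.hcl i]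
    exact Q.Dg.q.map_isConj (Q.pr.map_isConj h5)
  · rw [MonoidHom.comp_apply, MonoidHom.comp_apply, ← map_pow, ← map_pow,
      ((h1 i v).1 hv).2.2 τ hτ, map_one, map_one]
  · have h5 : φ τ = 1 := by
      by_contra h
      exact hvE ((h2 v).2 ⟨⟨hv, τ, hτ, h⟩, fun i hi => hvf i ((h1 i v).2 hi)⟩)
    rw [MonoidHom.comp_apply, MonoidHom.comp_apply, h5, map_one, map_one]

theorem cto (hp : p.Prime) (hζ : IsPrimitiveRoot ζ p) (D : RD0 K p ζ) (L : LDs D Ω)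
    (hnil : Group.IsNilpotent G) (Q : GQ p m l w N G P H R) (Fr : FR L) (z : K)
    (hz : IsPrimitiveRoot z (Nat.card G))
    (hS : ∀ v : Pl K, ((Nat.card G : ℕ) : 𝓞 K) ∈ v.asIdeal → v ∈ D.S0) :
    ∃ C : ℕ, ∀ (E : Finset (Pl K)) (f : Fin N → Finset (Pl K)) (b : Fin m → Kˣ)
      (ε : Pl K → Gal(Ω/K) → R) (Rs : Finset (Gal(Ω/K) →* G)), (∀ φ ∈ Rs, H38.ML.FT φ) →
      (∀ φ ∈ Rs, ∀ i v, v ∈ f i ↔ TyC Q.cl L φ i v) →
      (∀ φ ∈ Rs, ∀ v, v ∈ E ↔ Rm L φ v ∧ ∀ i, ¬ TyC Q.cl L φ i v) →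
      (∀ φ ∈ Rs, ∀ (σ : Gal(Ω/K)) k, kk p ζ (akR D Q.Dg.cr b f k) σ =
        Multiplicative.toAdd (Q.Dg.π (Q.Dg.q (Q.pr (φ σ)))) k) →
      (∀ φ ∈ Rs, ∀ φ' ∈ Rs, ∀ v ∈ E, ∀ τ ∈ inr L v, φ τ = φ' τ) →
      (∀ φ ∈ Rs, ∀ v ∈ E, ∀ τ ∈ inr L v, Q.Dg.q (Q.pr (φ τ)) = ε v τ) →
      (Rs.card : ℝ) ≤ C * FW Q.Dg Fr b E ε f := by
  have hPf : Finite P := Finite.of_surjective _ Q.prs
  have hHf : Finite H := Finite.of_surjective _ Q.phs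
  have hRf : Finite R := Finite.of_surjective _ Q.Dg.qs
  have hPn : Group.IsNilpotent P := Group.nilpotent_of_surjective Q.pr Q.prs
  have hHn : Group.IsNilpotent H := Group.nilpotent_of_surjective Q.ph Q.phs
  have hRn : Group.IsNilpotent R := Group.nilpotent_of_surjective Q.Dg.q Q.Dg.qs
  have hPc : Nat.card P ∣ Nat.card G := Subgroup.card_dvd_of_surjective Q.pr Q.prs
  have hHc : Nat.card H ∣ Nat.card G := Subgroup.card_dvd_of_surjective Q.ph Q.phs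
  have hRc : Nat.card R ∣ Nat.card G :=
    (Subgroup.card_dvd_of_surjective Q.Dg.q Q.Dg.qs).trans hPc
  obtain ⟨C₁, hC₁⟩ := ugsr D L (Nat.card G) Nat.card_pos z hz hS H hHn hHc
  obtain ⟨C₂, hC₂⟩ := cli hp hζ L Q.Dg hPn (Nat.card G) Nat.card_pos z hz hS hPc
  refine ⟨C₁ * C₂, ?_⟩
  intro E f b ε Rs hft hty hE hk hag hε
  have hone : ∀ φ ∈ Rs, ∀ v, v ∉ D.S0 → v ∉ E → (∀ i, v ∉ f i) → ∀ τ ∈ inr L v, φ τ = 1 := by
    intro φ hφ v hv hvE hvf τ hτ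
    by_contra h
    exact hvE ((hE φ hφ v).2 ⟨⟨hv, τ, hτ, h⟩, fun i hi => hvf i ((hty φ hφ i v).2 hi)⟩)
  obtain ⟨Ps, hPs⟩ : ∃ Ps : Finset (Gal(Ω/K) →* P), Ps = Rs.image fun φ => Q.pr.comp φ :=
    ⟨_, rfl⟩
  -- the fibres of the projection
  have h1 : Rs.card ≤ C₁ * Ps.card := by
    rw [hPs]
    refine Finset.card_le_mul_card_image (f := fun φ => Q.pr.comp φ) Rs C₁ ?_
    intro ψ _
    obtain ⟨X, hX⟩ : ∃ X : Finset (Gal(Ω/K) →* G),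
        X = Rs.filter fun φ => Q.pr.comp φ = ψ := ⟨_, rfl⟩
    have hXm : ∀ φ ∈ X, φ ∈ Rs ∧ Q.pr.comp φ = ψ := fun φ hφ => by
      rw [hX, Finset.mem_filter] at hφ
      exact hφ
    have hinj : Set.InjOn (fun φ : Gal(Ω/K) →* G => Q.ph.comp φ) X := by
      intro φ hφ φ' hφ' h
      apply MonoidHom.ext
      intro σ
      refine Q.inj _ _ ?_ (DFunLike.congr_fun h σ)
      exact DFunLike.congr_fun ((hXm φ hφ).2.trans (hXm φ' hφ').2.symm) σ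
    change (Rs.filter fun φ => Q.pr.comp φ = ψ).card ≤ C₁
    rw [← hX, ← Finset.card_image_of_injOn hinj]
    refine hC₁ _ ?_ ?_
    · intro χ hχ
      obtain ⟨φ, hφ, rfl⟩ := Finset.mem_image.1 hχ
      exact H38.ML.ft_comp _ _ (hft φ (hXm φ hφ).1)
    · intro χ hχ χ' hχ' v hv τ hτ
      obtain ⟨φ, hφ, rfl⟩ := Finset.mem_image.1 hχ
      obtain ⟨φ', hφ', rfl⟩ := Finset.mem_image.1 hχ'
      change Q.ph (φ τ) = Q.ph (φ' τ)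
      by_cases hvE : v ∈ E
      · rw [hag φ (hXm φ hφ).1 φ' (hXm φ' hφ').1 v hvE τ hτ]
      by_cases hvf : ∃ i, v ∈ f i
      · obtain ⟨i, hi⟩ := hvf
        have h3 : ∀ ψ ∈ Rs, Q.ph (ψ τ) = 1 := by
          intro ψ hψ
          apply Q.hH
          rw [← map_pow, ((hty ψ hψ i v).1 hi).2.2 τ hτ, map_one]
        rw [h3 φ (hXm φ hφ).1, h3 φ' (hXm φ' hφ').1]
      · rw [hone φ (hXm φ hφ).1 v hv hvE (fun i hi => hvf ⟨i, hi⟩) τ hτ,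
          hone φ' (hXm φ' hφ').1 v hv hvE (fun i hi => hvf ⟨i, hi⟩) τ hτ]
  -- the homomorphisms to `R`
  have hRHf : ∀ ρ, ρ ∈ RHf L Q.Dg b E ε f ↔ ρ ∈ RH L Q.Dg b E ε f := by
    intro ρ
    have h2 := rh_finite hp hζ L Q.Dg hRn (Nat.card G) Nat.card_pos z hz hS hRc b E ε f
    unfold RHf
    rw [dif_pos h2, Set.Finite.mem_toFinset]
  have hmap : ∀ ψ ∈ Ps, Q.Dg.q.comp ψ ∈ RHf L Q.Dg b E ε f := by
    intro ψ hψ
    rw [hPs] at hψ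
    obtain ⟨φ, hφ, rfl⟩ := Finset.mem_image.1 hψ
    rw [hRHf]
    exact cto_mem L Q E f b ε φ (hft φ hφ) (hty φ hφ) (hE φ hφ) (hk φ hφ) (hε φ hφ)
  have hfib : ∀ ρ ∈ RHf L Q.Dg b E ε f,
      ((Ps.filter fun ψ => Q.Dg.q.comp ψ = ρ).card : ℝ) ≤
        C₂ * (if ∀ i, ∀ v ∈ f i, cq Q.Dg Fr ρ v = 0 then ∏ i, (Q.Dg.Wn i : ℝ) ^ (f i).card
          else 0) := by
    intro ρ _
    rcases (Ps.filter fun ψ => Q.Dg.q.comp ψ = ρ).eq_empty_or_nonempty with hemp | ⟨ψ₀, hψ₀⟩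
    · rw [hemp, Finset.card_empty, Nat.cast_zero]
      split_ifs <;> positivity
    have hm : ∀ ψ ∈ Ps.filter fun ψ => Q.Dg.q.comp ψ = ρ, ∃ φ ∈ Rs, Q.pr.comp φ = ψ ∧
        Q.Dg.q.comp ψ = ρ := by
      intro ψ hψ
      rw [Finset.mem_filter, hPs] at hψ
      obtain ⟨φ, hφ, rfl⟩ := Finset.mem_image.1 hψ.1
      exact ⟨φ, hφ, rfl, hψ.2⟩
    have hft' : ∀ ψ ∈ Ps.filter fun ψ => Q.Dg.q.comp ψ = ρ, H38.ML.FT ψ := by
      intro ψ hψ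
      obtain ⟨φ, hφ, rfl, -⟩ := hm ψ hψ
      exact H38.ML.ft_comp _ _ (hft φ hφ)
    have hty' : ∀ ψ ∈ Ps.filter fun ψ => Q.Dg.q.comp ψ = ρ, ∀ i, ∀ v ∈ f i, v ∉ D.S0 ∧
        IsConj (ψ (L.t v)) (Q.Dg.g i) ∧ ∀ τ ∈ inr L v, ψ τ ^ p = 1 := by
      intro ψ hψ i v hv
      obtain ⟨φ, hφ, rfl, -⟩ := hm ψ hψ
      have h5 := (hty φ hφ i v).1 hv
      refine ⟨h5.1.1, ?_, fun τ hτ => ?_⟩
      · rw [MonoidHom.comp_apply, ← Q.hcl i]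
        exact Q.pr.map_isConj h5.2.1
      · rw [MonoidHom.comp_apply, ← map_pow, h5.2.2 τ hτ, map_one]
    have hcond : ∀ i, ∀ v ∈ f i, cq Q.Dg Fr ρ v = 0 := by
      intro i v hv
      have h5 := hty' ψ₀ hψ₀ i v hv
      obtain ⟨-, -, -, h6⟩ := hm ψ₀ hψ₀
      rw [← h6]
      exact cq_zero Q.Dg Fr ψ₀ (hft' ψ₀ hψ₀) v h5.1 h5.2.2
    rw [if_pos hcond]
    have h7 := hC₂ f ρ (Ps.filter fun ψ => Q.Dg.q.comp ψ = ρ) hft'
      (fun ψ hψ => (Finset.mem_filter.1 hψ).2) hty' (by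
        intro ψ hψ ψ' hψ' v hv hvf τ hτ
        obtain ⟨φ, hφ, rfl, -⟩ := hm ψ hψ
        obtain ⟨φ', hφ', rfl, -⟩ := hm ψ' hψ'
        change Q.pr (φ τ) = Q.pr (φ' τ)
        by_cases hvE : v ∈ E
        · rw [hag φ hφ φ' hφ' v hvE τ hτ]
        · rw [hone φ hφ v hv hvE hvf τ hτ, hone φ' hφ' v hv hvE hvf τ hτ])
    exact_mod_cast h7
  have h2 : (Ps.card : ℝ) ≤ C₂ * FW Q.Dg Fr b E ε f := by
    rw [Finset.card_eq_sum_card_fiberwise (f := fun ψ => Q.Dg.q.comp ψ) (s := Ps)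
      (t := RHf L Q.Dg b E ε f) (fun ψ hψ => hmap ψ hψ), Nat.cast_sum]
    refine (Finset.sum_le_sum hfib).trans (le_of_eq ?_)
    unfold FW
    rw [Finset.mul_sum]
  have h3 : (Rs.card : ℝ) ≤ C₁ * (Ps.card : ℝ) := by exact_mod_cast h1
  calc (Rs.card : ℝ) ≤ C₁ * (Ps.card : ℝ) := h3
    _ ≤ C₁ * (C₂ * FW Q.Dg Fr b E ε f) := mul_le_mul_of_nonneg_left h2 (Nat.cast_nonneg _)
    _ = _ := by
      push_cast
      ring

end H77.PC3
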