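import Pool.Agent.H77.PC3.CRh
import Pool.Agent.H57.BRA.BR

/-!
# H77-PC3-CXA: central extensions with coordinates, lifts of homomorphisms

`CX p d P R`: `q : P → R` surjective with central kernel, elementary abelian with coordinates `c`. `CX.e X k`: the cocycle of the `k`-th coordinate.
* `cx_coc`, `cx_iv` (for commuting images: the coordinate of the commutator), `cx_lift`: `ρ : Γ → R` lifts if all `pb (X.e k) ρ` are coboundaries.
* `cxk`: homomorphisms `Γ → ker q` with Kummer coordinates; `cxk_ex`: prescribed values at finitely many `t v`.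
* `cx_adj`: a lift with prescribed values at the `t v`, `v ∈ x`, unramified outside `S0` and `x`.
-/

set_option autoImplicit false

open scoped NumberField
open IsDedekindDomain
open scoped Classical

noncomputable section

namespace H77.PC3

open H63.MA H38.BB H38.BG H57.PC H57.BRA H63.BU

/-- central extension with an elementary abelian kernel with coordinates -/
structure CX (p d : ℕ) (P R : Type) [Group P] [Group R] where
  q : P →* R
  qs : Function.Surjective q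
  cen : ∀ u, q u = 1 → ∀ x, u * x = x * u
  c : Fin d → P → ZMod p
  add : ∀ k u v, q u = 1 → q v = 1 → c k (u * v) = c k u + c k v
  inj : ∀ u, q u = 1 → (∀ k, c k u = 0) → u = 1
  sur : ∀ y : Fin d → ZMod p, ∃ u, q u = 1 ∧ ∀ k, c k u = y k

section group

variable {p d : ℕ} {P R : Type} [Group P] [Group R] (X : CX p d P R)

theorem cx_one (k : Fin d) : X.c k 1 = 0 := by
  have h := X.add k 1 1 (map_one _) (map_one _)
  rw [one_mul] at h
  exact left_eq_add.1 h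

theorem cx_inv (k : Fin d) (u : P) (hu : X.q u = 1) : X.c k u⁻¹ = - X.c k u := by
  have h := X.add k u⁻¹ u (by rw [map_inv, hu, inv_one]) hu
  rw [inv_mul_cancel, cx_one] at h
  exact eq_neg_of_add_eq_zero_left h.symm

theorem cx_npow (k : Fin d) (u : P) (hu : X.q u = 1) (n : ℕ) : X.c k (u ^ n) = n * X.c k u := by
  induction n with
  | zero => rw [pow_zero, cx_one, Nat.cast_zero, zero_mul]
  | succ n ih =>
    rw [pow_succ, X.add k _ _ (by rw [map_pow, hu, one_pow]) hu, ih, Nat.cast_succ, add_mul,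
      one_mul]

theorem cx_pow (u : P) (hu : X.q u = 1) : u ^ p = 1 := by
  refine X.inj _ (by rw [map_pow, hu, one_pow]) fun k => ?_
  rw [cx_npow X k u hu, ZMod.natCast_self, zero_mul]

theorem cx_ext (u v : P) (hu : X.q u = 1) (hv : X.q v = 1) (h : ∀ k, X.c k u = X.c k v) :
    u = v := by
  have h1 : X.q v⁻¹ = 1 := by rw [map_inv, hv, inv_one]
  have h2 : u * v⁻¹ = 1 := by
    refine X.inj _ (by rw [map_mul, hu, h1, one_mul]) fun k => ?_
    rw [X.add k u v⁻¹ hu h1, cx_inv X k v hv, h k, add_neg_cancel]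
  exact mul_inv_eq_one.1 h2

/-- the commutator only depends on the images -/
theorem cx_com (x y x' y' : P) (hx : X.q x = X.q x') (hy : X.q y = X.q y') :
    x * y * x⁻¹ * y⁻¹ = x' * y' * x'⁻¹ * y'⁻¹ := by
  obtain ⟨a, ha, rfl⟩ : ∃ a, X.q a = 1 ∧ x = a * x' :=
    ⟨x * x'⁻¹, by rw [map_mul, map_inv, hx, mul_inv_cancel], by group⟩
  obtain ⟨b, hb, rfl⟩ : ∃ b, X.q b = 1 ∧ y = b * y' :=
    ⟨y * y'⁻¹, by rw [map_mul, map_inv, hy, mul_inv_cancel], by group⟩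
  have h1 : a * x' * (b * y') * (a * x')⁻¹ * (b * y')⁻¹ =
      a * (x' * b) * y' * x'⁻¹ * a⁻¹ * y'⁻¹ * b⁻¹ := by group
  rw [h1, ← X.cen b hb x', X.cen a ha (b * x')]
  have h2 : b * x' * a * y' * x'⁻¹ * a⁻¹ * y'⁻¹ * b⁻¹ =
      b * (x' * (a * (y' * x'⁻¹)) * a⁻¹ * y'⁻¹) * b⁻¹ := by group
  rw [h2, X.cen a ha (y' * x'⁻¹), X.cen b hb]
  group

/-- the section -/
def CX.s (r : R) : P := if r = 1 then 1 else Function.surjInv X.qs r

theorem cx_s (r : R) : X.q (X.s r) = r := by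
  unfold CX.s
  split_ifs with h
  · rw [h, map_one]
  · exact Function.surjInv_eq X.qs r

theorem cx_s_one : X.s 1 = 1 := if_pos rfl

/-- the cocycle of the section -/
def CX.E (a b : R) : P := X.s a * X.s b * (X.s (a * b))⁻¹

theorem cx_E (a b : R) : X.q (X.E a b) = 1 := by
  unfold CX.E
  rw [map_mul, map_mul, map_inv, cx_s, cx_s, cx_s, mul_inv_cancel]

theorem cx_Es (a b : R) : X.s a * X.s b = X.E a b * X.s (a * b) := by
  unfold CX.E
  rw [inv_mul_cancel_right]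

/-- the coordinates of the cocycle -/
def CX.e (k : Fin d) (a b : R) : ZMod p := X.c k (X.E a b)

theorem cx_coc (k : Fin d) : Coc p (X.e k) where
  l1 a := by
    unfold CX.e CX.E
    rw [cx_s_one, one_mul, one_mul, mul_inv_cancel, cx_one]
  r1 a := by
    unfold CX.e CX.E
    rw [cx_s_one, mul_one, mul_one, mul_inv_cancel, cx_one]
  co a b c := by
    have h1 : X.E b c * X.E a (b * c) = X.E (a * b) c * X.E a b := by
      have h2 : X.s a * X.s b * X.s c = X.E b c * X.E a (b * c) * X.s (a * b * c) := by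
        rw [mul_assoc, cx_Es, ← mul_assoc, ← X.cen _ (cx_E X b c), mul_assoc, cx_Es, ← mul_assoc,
          mul_assoc a b c]
      have h3 : X.s a * X.s b * X.s c = X.E (a * b) c * X.E a b * X.s (a * b * c) := by
        rw [cx_Es, mul_assoc, cx_Es, ← mul_assoc, X.cen _ (cx_E X a b)]
      exact mul_right_cancel (h2.symm.trans h3)
    unfold CX.e
    rw [← X.add k _ _ (cx_E X b c) (cx_E X a (b * c)), h1,
      X.add k _ _ (cx_E X (a * b) c) (cx_E X a b)]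

theorem cx_iv (k : Fin d) (x y : P) (h : X.q x * X.q y = X.q y * X.q x) :
    iv (X.e k) (X.q x) (X.q y) = X.c k (x * y * x⁻¹ * y⁻¹) := by
  have h1 : x * y * x⁻¹ * y⁻¹ = X.E (X.q x) (X.q y) * (X.E (X.q y) (X.q x))⁻¹ := by
    rw [cx_com X x y (X.s (X.q x)) (X.s (X.q y)) (cx_s X _).symm (cx_s X _).symm]
    unfold CX.E
    rw [h]
    group
  have h2 : X.q (X.E (X.q y) (X.q x))⁻¹ = 1 := by rw [map_inv, cx_E, inv_one]
  unfold iv CX.e
  rw [h1, X.add k _ _ (cx_E X _ _) h2, cx_inv X k _ (cx_E X _ _), sub_eq_add_neg]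

/-- the element of the kernel with given coordinates -/
def CX.of (y : Fin d → ZMod p) : P := (X.sur y).choose

theorem cx_of_q (y : Fin d → ZMod p) : X.q (X.of y) = 1 := (X.sur y).choose_spec.1

theorem cx_of_c (y : Fin d → ZMod p) (k : Fin d) : X.c k (X.of y) = y k :=
  (X.sur y).choose_spec.2 k

theorem cx_of_add (y y' : Fin d → ZMod p) : X.of (y + y') = X.of y * X.of y' := by
  refine cx_ext X _ _ (cx_of_q X _) (by rw [map_mul, cx_of_q, cx_of_q, one_mul]) fun k => ?_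
  rw [cx_of_c, X.add k _ _ (cx_of_q X _) (cx_of_q X _), cx_of_c, cx_of_c, Pi.add_apply]

theorem cx_of_zero : X.of 0 = 1 := by
  refine cx_ext X _ _ (cx_of_q X _) (map_one _) fun k => ?_
  rw [cx_of_c, cx_one, Pi.zero_apply]

theorem cx_of_of (v : P) (hv : X.q v = 1) : X.of (fun k => X.c k v) = v :=
  cx_ext X _ _ (cx_of_q X _) hv fun k => cx_of_c X _ k

end group

section gal

variable {K : Type} [Field K] {Ω : Type} [Field Ω] [Algebra K Ω] {p d : ℕ} {P R : Type}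
  [Group P] [Group R] (X : CX p d P R)

/-- lifts of homomorphisms -/
theorem cx_lift (ρ : Gal(Ω/K) →* R) (hρ : H38.ML.FT ρ) (h : ∀ k, Tv (pb (X.e k) ρ)) :
    ∃ ψ : Gal(Ω/K) →* P, H38.ML.FT ψ ∧ ∀ σ, X.q (ψ σ) = ρ σ := by
  choose l hl1 hl2 using h
  have hm : ∀ σ τ, X.s (ρ (σ * τ)) * X.of (fun k => l k (σ * τ)) =
      X.s (ρ σ) * X.of (fun k => l k σ) * (X.s (ρ τ) * X.of (fun k => l k τ)) := by
    intro σ τ
    have h1 : X.of (fun k => l k (σ * τ)) =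
        X.E (ρ σ) (ρ τ) * (X.of (fun k => l k σ) * X.of (fun k => l k τ)) := by
      refine cx_ext X _ _ (cx_of_q X _) (by
        rw [map_mul, map_mul, cx_E, cx_of_q, cx_of_q, one_mul, one_mul]) fun k => ?_
      rw [cx_of_c, X.add k _ _ (cx_E X _ _) (by rw [map_mul, cx_of_q, cx_of_q, one_mul]),
        X.add k _ _ (cx_of_q X _) (cx_of_q X _), cx_of_c, cx_of_c, hl2 k σ τ]
      change l k σ + l k τ + X.e k (ρ σ) (ρ τ) = _
      unfold CX.e
      ring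
    rw [h1, map_mul, ← mul_assoc (X.s (ρ σ * ρ τ)), ← X.cen _ (cx_E X _ _), ← cx_Es]
    have h2 := X.cen _ (cx_of_q X (fun k => l k σ)) (X.s (ρ τ))
    calc X.s (ρ σ) * X.s (ρ τ) * (X.of (fun k => l k σ) * X.of (fun k => l k τ))
        = X.s (ρ σ) * (X.s (ρ τ) * X.of (fun k => l k σ)) * X.of (fun k => l k τ) := by
          rw [mul_assoc, mul_assoc, mul_assoc]
      _ = X.s (ρ σ) * (X.of (fun k => l k σ) * X.s (ρ τ)) * X.of (fun k => l k τ) := by rw [h2]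
      _ = _ := by rw [mul_assoc, mul_assoc, mul_assoc]
  let ψ : Gal(Ω/K) →* P := MonoidHom.mk' (fun σ => X.s (ρ σ) * X.of (fun k => l k σ)) hm
  refine ⟨ψ, lev_ft _ ?_, fun σ => ?_⟩
  · exact glift_lev_comp2 ρ (fun σ k => l k σ) (fun z => X.s z.1 * X.of z.2) (ft_lev ρ hρ)
      (glift_lev_pi l hl1)
  · change X.q (X.s (ρ σ) * X.of (fun k => l k σ)) = ρ σ
    rw [map_mul, cx_s, cx_of_q, mul_one]

/-- the twist of `ρ` by a homomorphism `χ` to the kernel -/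
def cxt (χ ρ : Gal(Ω/K) →* P) (hχ : ∀ σ, X.q (χ σ) = 1) : Gal(Ω/K) →* P where
  toFun σ := χ σ * ρ σ
  map_one' := by rw [map_one, map_one, one_mul]
  map_mul' σ τ := by
    rw [map_mul, map_mul, mul_assoc, mul_assoc, ← mul_assoc (χ τ), X.cen _ (hχ τ), mul_assoc]

theorem cxt_apply (χ ρ : Gal(Ω/K) →* P) (hχ : ∀ σ, X.q (χ σ) = 1) (σ : Gal(Ω/K)) :
    cxt X χ ρ hχ σ = χ σ * ρ σ := rfl

theorem cxt_ft (χ ρ : Gal(Ω/K) →* P) (hχ : ∀ σ, X.q (χ σ) = 1) (h0 : H38.ML.FT χ)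
    (h1 : H38.ML.FT ρ) : H38.ML.FT (cxt X χ ρ hχ) :=
  lev_ft _ (glift_lev_comp2 χ ρ (fun z => z.1 * z.2) (ft_lev χ h0) (ft_lev ρ h1))

end gal

variable {K : Type} [Field K] [NumberField K] {Ω : Type} [Field Ω] [Algebra K Ω]
  [IsAlgClosure K Ω] {p d : ℕ} {ζ : K} {D : RD0 K p ζ} {P R : Type} [Group P] [Group R]
  (X : CX p d P R)

/-- the homomorphism to the kernel with Kummer coordinates -/
def cxk (ζ : K) (Ω : Type) [Field Ω] [Algebra K Ω] (x : Fin d → Kˣ) : Gal(Ω/K) →* P where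
  toFun σ := X.of fun k => kk p ζ (x k) σ
  map_one' := by
    rw [show (fun k => kk p ζ (x k) (1 : Gal(Ω/K))) = 0 from ?_, cx_of_zero]
    funext k
    unfold kk
    rw [map_one, toAdd_one, Pi.zero_apply]
  map_mul' σ τ := by
    rw [← cx_of_add]
    congr 1
    funext k
    unfold kk
    rw [map_mul, toAdd_mul, Pi.add_apply]

omit [NumberField K] [IsAlgClosure K Ω] in
theorem cxk_apply (x : Fin d → Kˣ) (σ : Gal(Ω/K)) :
    cxk X ζ Ω x σ = X.of fun k => kk p ζ (x k) σ := rfl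

omit [NumberField K] [IsAlgClosure K Ω] in
theorem cxk_q (x : Fin d → Kˣ) (σ : Gal(Ω/K)) : X.q (cxk X ζ Ω x σ) = 1 := cx_of_q X _

theorem cxk_ft (hp : p.Prime) (hζ : IsPrimitiveRoot ζ p) (x : Fin d → Kˣ) :
    H38.ML.FT (cxk X ζ Ω x) := by
  have hL : Lev (fun (σ : Gal(Ω/K)) k => kk p ζ (x k) σ) :=
    glift_lev_pi (fun k σ => kk p ζ (x k) σ) fun k => glift_lev_kk hp hζ (x k)
  exact lev_ft _ (glift_lev_comp2 _ _ (fun z => X.of z.1) hL hL)

/-- a homomorphism to the kernel is determined on the inertia group of `v` by its value at `t v` -/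
theorem cx_inr [Finite P] (hp : p.Prime) (hζ : IsPrimitiveRoot ζ p)
    (L : LDs D Ω) (χ : Gal(Ω/K) →* P) (hχ : ∀ σ, X.q (χ σ) = 1)
    (h0 : H38.ML.FT χ) (v : Pl K) (hv : v ∉ D.S0) (τ : Gal(Ω/K)) (hτ : τ ∈ inr L v) :
    χ τ = χ (L.t v) ^ (kk p ζ (D.pi v) τ).val :=
  tm_z hp hζ L χ h0 v hv (fun σ _ => cx_pow X _ (hχ σ)) τ hτ

/-- prescribed values at finitely many `t v` -/
theorem cxk_ex (hp : p.Prime) (hζ : IsPrimitiveRoot ζ p) [Finite P] (L : LDs D Ω)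
    (x : Finset (Pl K)) (hx : ∀ v ∈ x, v ∉ D.S0) (y : Pl K → P) (hy : ∀ v ∈ x, X.q (y v) = 1) :
    ∃ χ : Gal(Ω/K) →* P, (∀ σ, X.q (χ σ) = 1) ∧ H38.ML.FT χ ∧ (∀ v ∈ x, χ (L.t v) = y v) ∧
      ∀ v, v ∉ D.S0 → v ∉ x → ∀ τ ∈ inr L v, χ τ = 1 := by
  have : NeZero p := ⟨hp.ne_zero⟩
  let Z : Fin d → Kˣ := fun k => ∏ v ∈ x, D.pi v ^ (X.c k (y v)).val
  have hord : ∀ v, v ∉ D.S0 → ∀ k, ((ord v (Z k) : ℤ) : ZMod p) =
      if v ∈ x then X.c k (y v) else 0 := by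
    intro v hv k
    have h1 : ord v (Z k) = ∑ u ∈ x, ((X.c k (y u)).val : ℤ) * ord v (D.pi u) := by
      change ord v (∏ u ∈ x, _) = _
      rw [ord_prod]
      exact Finset.sum_congr rfl fun u _ => ord_pow v (D.pi u) _
    rw [h1]
    split_ifs with hvx
    · rw [Finset.sum_eq_single v]
      · rw [D.pi_self v hv, mul_one, Int.cast_natCast, ZMod.natCast_zmod_val]
      · intro u hu huv
        rw [D.pi_ne u v (hx u hu) hv huv.symm, mul_zero]
      · intro h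
        exact absurd hvx h
    · rw [Finset.sum_eq_zero, Int.cast_zero]
      intro u hu
      have huv : v ≠ u := by
        rintro rfl
        exact hvx hu
      rw [D.pi_ne u v (hx u hu) hv huv, mul_zero]
  have ht : ∀ v, v ∉ D.S0 → cxk X ζ Ω Z (L.t v) =
      X.of fun k => ((ord v (Z k) : ℤ) : ZMod p) := by
    intro v hv
    rw [cxk_apply]
    congr 1
    funext k
    have ht : L.t v = (L.ld v hv).t := dif_pos hv
    rw [ht, ld_kk_t hp hζ (fun h => hv (D.above v h)) (D.pi_self v hv) (L.ld v hv)]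
  refine ⟨cxk X ζ Ω Z, cxk_q X Z, cxk_ft X hp hζ Z, fun v hv => ?_, fun v hv hvx τ hτ => ?_⟩
  · rw [ht v (hx v hv)]
    have h2 : (fun k => ((ord v (Z k) : ℤ) : ZMod p)) = fun k => X.c k (y v) := by
      funext k
      rw [hord v (hx v hv) k, if_pos hv]
    rw [h2, cx_of_of X _ (hy v hv)]
  · rw [cx_inr X hp hζ L _ (cxk_q X Z) (cxk_ft X hp hζ Z) v hv τ hτ, ht v hv]
    have h2 : (fun k => ((ord v (Z k) : ℤ) : ZMod p)) = 0 := by
      funext k
      rw [hord v hv k, if_neg hvx, Pi.zero_apply]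
    rw [h2, cx_of_zero, one_pow]

/-- a lift with prescribed values at the `t v`, `v ∈ x`, unramified outside `S0` and `x` -/
theorem cx_adj (hp : p.Prime) (hζ : IsPrimitiveRoot ζ p) [Finite P] (L : LDs D Ω)
    (ρ : Gal(Ω/K) →* R) (ψ₀ : Gal(Ω/K) →* P) (h0 : H38.ML.FT ψ₀)
    (h1 : ∀ σ, X.q (ψ₀ σ) = ρ σ) (x : Finset (Pl K)) (hx : ∀ v ∈ x, v ∉ D.S0)
    (hρ : ∀ v, v ∉ D.S0 → v ∉ x → ∀ τ ∈ inr L v, ρ τ = 1)
    (hpx : ∀ v ∈ x, ∀ τ ∈ inr L v, ∀ z, X.q z = ρ τ → z ^ p = 1)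
    (y : Pl K → P) (hy : ∀ v ∈ x, X.q (y v) = ρ (L.t v)) :
    ∃ ψ : Gal(Ω/K) →* P, H38.ML.FT ψ ∧ (∀ σ, X.q (ψ σ) = ρ σ) ∧ (∀ v ∈ x, ψ (L.t v) = y v) ∧
      (∀ v ∈ x, ∀ τ ∈ inr L v, ψ τ ^ p = 1) ∧
      ∀ v, v ∉ D.S0 → v ∉ x → ∀ τ ∈ inr L v, ψ τ = 1 := by
  -- the primes where `ψ₀` is ramified
  obtain ⟨x', hx'⟩ : ∃ x' : Finset (Pl K), ∀ v, v ∈ x' ↔ Rm L ψ₀ v ∨ v ∈ x := by
    have h := (uinr_fin L ψ₀ h0).union x.finite_toSet
    exact ⟨h.toFinset, fun v => by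
      rw [Set.Finite.mem_toFinset]
      rfl⟩
  have hx'S : ∀ v ∈ x', v ∉ D.S0 := by
    intro v hv
    rcases (hx' v).1 hv with h | h
    · exact h.1
    · exact hx v h
  obtain ⟨χ, hχ, hχf, hχ1, hχ2⟩ := cxk_ex X hp hζ L x' hx'S
    (fun v => if v ∈ x then y v * (ψ₀ (L.t v))⁻¹ else (ψ₀ (L.t v))⁻¹) (by
    intro v hv
    have hv' := hx'S v hv
    by_cases hvx : v ∈ x
    · simp only [if_pos hvx]
      rw [map_mul, map_inv, hy v hvx, h1, mul_inv_cancel]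
    · simp only [if_neg hvx]
      rw [map_inv, h1, hρ v hv' hvx _ (uinr_t L v), inv_one])
  refine ⟨cxt X χ ψ₀ hχ, cxt_ft X χ ψ₀ hχ hχf h0, fun σ => ?_, fun v hv => ?_,
    fun v hv τ hτ => ?_, fun v hv hvx τ hτ => ?_⟩
  · rw [cxt_apply, map_mul, hχ, one_mul, h1]
  · rw [cxt_apply, hχ1 v ((hx' v).2 (Or.inr hv)), if_pos hv, inv_mul_cancel_right]
  · refine hpx v hv τ hτ _ ?_
    rw [cxt_apply, map_mul, hχ, one_mul, h1]
  · by_cases hvx' : v ∈ x'
    · have h2 : ∀ σ ∈ inr L v, X.q (ψ₀ σ) = 1 := fun σ hσ => by rw [h1, hρ v hv hvx σ hσ]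
      have h3 : ψ₀ τ = ψ₀ (L.t v) ^ (kk p ζ (D.pi v) τ).val :=
        tm_z hp hζ L ψ₀ h0 v hv (fun σ hσ => cx_pow X _ (h2 σ hσ)) τ hτ
      rw [cxt_apply, cx_inr X hp hζ L χ hχ hχf v hv τ hτ, h3, hχ1 v hvx', if_neg hvx, inv_pow,
        inv_mul_cancel]
    · have h2 : ψ₀ τ = 1 := by
        by_contra h
        exact hvx' ((hx' v).2 (Or.inl ⟨hv, τ, hτ, h⟩))
      rw [cxt_apply, hχ2 v hv hvx' τ hτ, h2, one_mul]

end H77.PC3
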