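import Pool.Agent.H77.PC3.CDef
import Pool.Agent.H77.GN.QCrd

/-!
# H77-PC3-PGA: groups of class at most 3, elementary facts

`G2 = [P, P]`, `G3 = [G2, P]`. `bil_mk`: bilinear maps from biadditive functions.
-/

set_option autoImplicit false

open scoped Classical

noncomputable section

namespace H77.PC3

open H77.AB H57.PC

/-- bilinear maps from biadditive functions -/
theorem bil_mk {p a b c : ℕ} {X Y : Type} (α : X → Fin a → ZMod p) (hα : Function.Surjective α)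
    (β : Y → Fin b → ZMod p) (hβ : Function.Surjective β) (F : X → Y → Fin c → ZMod p)
    (h1 : ∀ x x' y, α x = α x' → F x y = F x' y) (h2 : ∀ x y y', β y = β y' → F x y = F x y')
    (h3 : ∀ x x', ∃ x'', α x'' = α x + α x' ∧ ∀ y, F x'' y = F x y + F x' y)
    (h4 : ∀ y y', ∃ y'', β y'' = β y + β y' ∧ ∀ x, F x y'' = F x y + F x y') :
    ∃ B : (Fin a → ZMod p) →ₗ[ZMod p] (Fin b → ZMod p) →ₗ[ZMod p] (Fin c → ZMod p),
      ∀ x y, B (α x) (β y) = F x y := by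
  choose xr hxr using hα
  choose yr hyr using hβ
  let Bf : (Fin a → ZMod p) → (Fin b → ZMod p) → (Fin c → ZMod p) := fun u v => F (xr u) (yr v)
  have e1 : ∀ u u' v, Bf (u + u') v = Bf u v + Bf u' v := by
    intro u u' v
    obtain ⟨x, hx, hF⟩ := h3 (xr u) (xr u')
    change F (xr (u + u')) (yr v) = F (xr u) (yr v) + F (xr u') (yr v)
    rw [← hF, h1 (xr (u + u')) x (yr v) (by rw [hx, hxr, hxr, hxr])]
  have e2 : ∀ u v v', Bf u (v + v') = Bf u v + Bf u v' := by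
    intro u v v'
    obtain ⟨y, hy, hF⟩ := h4 (yr v) (yr v')
    change F (xr u) (yr (v + v')) = F (xr u) (yr v) + F (xr u) (yr v')
    rw [← hF, h2 (xr u) (yr (v + v')) y (by rw [hy, hyr, hyr, hyr])]
  refine ⟨(AddMonoidHom.mk' (fun u => (AddMonoidHom.mk' (Bf u) (e2 u)).toZModLinearMap p)
    (fun u u' => LinearMap.ext fun v => e1 u u' v)).toZModLinearMap p, fun x y => ?_⟩
  change F (xr (α x)) (yr (β y)) = F x y
  rw [h1 (xr (α x)) x _ (hxr _), h2 x (yr (β y)) y (hyr _)]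

variable {P : Type} [Group P]

/-- the commutator subgroup -/
def G2 (P : Type) [Group P] : Subgroup P := ⁅(⊤ : Subgroup P), (⊤ : Subgroup P)⁆

/-- the third term of the lower central series -/
def G3 (P : Type) [Group P] : Subgroup P := ⁅G2 P, (⊤ : Subgroup P)⁆

instance : (G2 P).Normal := by
  unfold G2
  infer_instance

instance : (G3 P).Normal := by
  unfold G3
  infer_instance

theorem com_G2 (x y : P) : x * y * x⁻¹ * y⁻¹ ∈ G2 P := by
  rw [← commutatorElement_def]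
  exact Subgroup.commutator_mem_commutator (Subgroup.mem_top x) (Subgroup.mem_top y)

theorem com_G3 (x y : P) (hx : x ∈ G2 P) : x * y * x⁻¹ * y⁻¹ ∈ G3 P := by
  rw [← commutatorElement_def]
  exact Subgroup.commutator_mem_commutator hx (Subgroup.mem_top y)

theorem com_G3' (x y : P) (hx : x ∈ G2 P) : y * x * y⁻¹ * x⁻¹ ∈ G3 P := by
  have h := (G3 P).inv_mem (com_G3 x y hx)
  have e : (x * y * x⁻¹ * y⁻¹)⁻¹ = y * x * y⁻¹ * x⁻¹ := by group
  rwa [e] at h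

theorem G3_le : G3 P ≤ G2 P := by
  unfold G3
  exact Subgroup.commutator_le_left _ _

theorem G2_ind (p : P → Prop) (h1 : p 1) (hc : ∀ x y, p (x * y * x⁻¹ * y⁻¹))
    (hm : ∀ x y, x ∈ G2 P → y ∈ G2 P → p x → p y → p (x * y))
    (hi : ∀ x, x ∈ G2 P → p x → p x⁻¹) (x : P) (hx : x ∈ G2 P) : p x := by
  unfold G2 at hx
  rw [Subgroup.commutator_def] at hx
  induction hx using Subgroup.closure_induction with
  | mem x h =>
    obtain ⟨a, -, b, -, rfl⟩ := h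
    rw [commutatorElement_def]
    exact hc a b
  | one => exact h1
  | mul x y hx hy ihx ihy =>
    refine hm x y ?_ ?_ ihx ihy
    · unfold G2
      rw [Subgroup.commutator_def]
      exact hx
    · unfold G2
      rw [Subgroup.commutator_def]
      exact hy
  | inv x hx ih =>
    refine hi x ?_ ih
    unfold G2
    rw [Subgroup.commutator_def]
    exact hx

theorem G3_ind (p : P → Prop) (h1 : p 1) (hc : ∀ x y, x ∈ G2 P → p (x * y * x⁻¹ * y⁻¹))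
    (hm : ∀ x y, x ∈ G3 P → y ∈ G3 P → p x → p y → p (x * y))
    (hi : ∀ x, x ∈ G3 P → p x → p x⁻¹) (x : P) (hx : x ∈ G3 P) : p x := by
  unfold G3 at hx
  rw [Subgroup.commutator_def] at hx
  induction hx using Subgroup.closure_induction with
  | mem x h =>
    obtain ⟨a, ha, b, -, rfl⟩ := h
    rw [commutatorElement_def]
    exact hc a b ha
  | one => exact h1
  | mul x y hx hy ihx ihy =>
    refine hm x y ?_ ?_ ihx ihy
    · unfold G3
      rw [Subgroup.commutator_def]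
      exact hx
    · unfold G3
      rw [Subgroup.commutator_def]
      exact hy
  | inv x hx ih =>
    refine hi x ?_ ih
    unfold G3
    rw [Subgroup.commutator_def]
    exact hx

section cls

variable (h4 : ∀ u ∈ G3 P, ∀ x : P, u * x = x * u)

include h4

/-- `[x, y y'] = [x, y] [x, y']` for `x ∈ G2` -/
theorem c3_mul_right (x y y' : P) (hx : x ∈ G2 P) :
    x * (y * y') * x⁻¹ * (y * y')⁻¹ = (x * y * x⁻¹ * y⁻¹) * (x * y' * x⁻¹ * y'⁻¹) := by
  have e1 : x * (y * y') * x⁻¹ * (y * y')⁻¹ =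
      (x * y * x⁻¹ * y⁻¹) * (y * (x * y' * x⁻¹ * y'⁻¹) * y⁻¹) := by group
  rw [e1, ← h4 _ (com_G3 x y' hx) y, mul_inv_cancel_right]

/-- `[x x', y] = [x, y] [x', y]` for `x' ∈ G2` -/
theorem c3_mul_left (x x' y : P) (hx' : x' ∈ G2 P) :
    x * x' * y * (x * x')⁻¹ * y⁻¹ = (x * y * x⁻¹ * y⁻¹) * (x' * y * x'⁻¹ * y⁻¹) := by
  have e1 : x * x' * y * (x * x')⁻¹ * y⁻¹ =
      (x * (x' * y * x'⁻¹ * y⁻¹) * x⁻¹) * (x * y * x⁻¹ * y⁻¹) := by group
  rw [e1, ← h4 _ (com_G3 x' y hx') x, mul_inv_cancel_right, h4 _ (com_G3 x' y hx')]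

/-- `[G2, G2] = 1` -/
theorem c3_G2 (x z : P) (hx : x ∈ G2 P) (hz : z ∈ G2 P) : x * z * x⁻¹ * z⁻¹ = 1 := by
  refine G2_ind (fun z => x * z * x⁻¹ * z⁻¹ = 1) ?_ ?_ ?_ ?_ z hz
  · group
  · intro a b
    have hF : ∀ u v, x * (u * v) * x⁻¹ * (u * v)⁻¹ =
        (x * u * x⁻¹ * u⁻¹) * (x * v * x⁻¹ * v⁻¹) := fun u v => c3_mul_right h4 x u v hx
    let F : P →* P := MonoidHom.mk' (fun u => x * u * x⁻¹ * u⁻¹) hF
    have h1 : F (a * b * a⁻¹ * b⁻¹) = 1 := by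
      rw [map_mul, map_mul, map_mul, map_inv, map_inv]
      have h2 : F a * F b = F b * F a := h4 _ (com_G3 x a hx) _
      rw [h2, mul_inv_cancel_right, mul_inv_cancel]
    exact h1
  · intro u v _ _ h5 h6
    rw [c3_mul_right h4 x u v hx, h5, h6, one_mul]
  · intro u _ h5
    have h6 := c3_mul_right h4 x u u⁻¹ hx
    rw [h5, one_mul, mul_inv_cancel] at h6
    change x * u⁻¹ * x⁻¹ * (u⁻¹)⁻¹ = 1
    rw [← h6]
    group

/-- `[x, y]` for `x ∈ G2` only depends on `y` modulo `G2` -/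
theorem c3_congr_right (x y y' : P) (hx : x ∈ G2 P) (h : y * y'⁻¹ ∈ G2 P) :
    x * y * x⁻¹ * y⁻¹ = x * y' * x⁻¹ * y'⁻¹ := by
  have h1 := c3_mul_right h4 x (y * y'⁻¹) y' hx
  rw [inv_mul_cancel_right, c3_G2 h4 x _ hx h, one_mul] at h1
  exact h1

/-- `[x, y]` for `x ∈ G2` only depends on `x` modulo `G3` -/
theorem c3_congr_left (x x' y : P) (hx' : x' ∈ G2 P) (h : x * x'⁻¹ ∈ G3 P) :
    x * y * x⁻¹ * y⁻¹ = x' * y * x'⁻¹ * y⁻¹ := by
  have h1 := c3_mul_left h4 (x * x'⁻¹) x' y hx'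
  have h2 : x * x'⁻¹ * y * (x * x'⁻¹)⁻¹ * y⁻¹ = 1 := by
    rw [h4 _ h y]
    group
  rw [inv_mul_cancel_right, h2, one_mul] at h1
  exact h1

theorem c3_pow_right (x y : P) (hx : x ∈ G2 P) (n : ℕ) :
    x * y ^ n * x⁻¹ * (y ^ n)⁻¹ = (x * y * x⁻¹ * y⁻¹) ^ n := by
  induction n with
  | zero => simp
  | succ n ih => rw [pow_succ, c3_mul_right h4 x _ _ hx, ih, pow_succ]

end cls

/-- modulo `G3` the commutator is bimultiplicative -/
theorem c2_mul_left (x x' y : P) :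
    ∃ u ∈ G3 P, x * x' * y * (x * x')⁻¹ * y⁻¹ =
      u * ((x * y * x⁻¹ * y⁻¹) * (x' * y * x'⁻¹ * y⁻¹)) := by
  refine ⟨x * x' * y * (x * x')⁻¹ * y⁻¹ * ((x * y * x⁻¹ * y⁻¹) * (x' * y * x'⁻¹ * y⁻¹))⁻¹, ?_,
    by rw [inv_mul_cancel_right]⟩
  have e1 : x * x' * y * (x * x')⁻¹ * y⁻¹ * ((x * y * x⁻¹ * y⁻¹) * (x' * y * x'⁻¹ * y⁻¹))⁻¹ =
      (x * (x' * y * x'⁻¹ * y⁻¹) * x⁻¹ * (x' * y * x'⁻¹ * y⁻¹)⁻¹) *
        ((x' * y * x'⁻¹ * y⁻¹) * (x * y * x⁻¹ * y⁻¹) * (x' * y * x'⁻¹ * y⁻¹)⁻¹ *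
          (x * y * x⁻¹ * y⁻¹)⁻¹) := by group
  rw [e1]
  exact (G3 P).mul_mem (com_G3' _ _ (com_G2 _ _)) (com_G3 _ _ (com_G2 _ _))

theorem mk_com (x y : P) : (QuotientGroup.mk' (G3 P)) (x * y * x⁻¹ * y⁻¹) =
    (QuotientGroup.mk' (G3 P)) x * (QuotientGroup.mk' (G3 P)) y *
      ((QuotientGroup.mk' (G3 P)) x)⁻¹ * ((QuotientGroup.mk' (G3 P)) y)⁻¹ := by
  rw [map_mul, map_mul, map_mul, map_inv, map_inv]

/-- in `R = P / G3` the image of `G2` is central -/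
theorem r_cen (v : P) (hv : v ∈ G2 P) (r : P ⧸ G3 P) :
    (QuotientGroup.mk' (G3 P)) v * r = r * (QuotientGroup.mk' (G3 P)) v := by
  obtain ⟨y, rfl⟩ := QuotientGroup.mk'_surjective (G3 P) r
  have h1 : (QuotientGroup.mk' (G3 P)) (v * y * v⁻¹ * y⁻¹) = 1 :=
    (QuotientGroup.eq_one_iff _).2 (com_G3 v y hv)
  rw [mk_com, mul_inv_eq_one, mul_inv_eq_iff_eq_mul] at h1
  exact h1

/-- `[r r', s] = [r, s] [r', s]` in `R` -/
theorem r_mul_left (r r' s : P ⧸ G3 P) :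
    r * r' * s * (r * r')⁻¹ * s⁻¹ = (r * s * r⁻¹ * s⁻¹) * (r' * s * r'⁻¹ * s⁻¹) := by
  obtain ⟨x, rfl⟩ := QuotientGroup.mk'_surjective (G3 P) r
  obtain ⟨x', rfl⟩ := QuotientGroup.mk'_surjective (G3 P) r'
  obtain ⟨y, rfl⟩ := QuotientGroup.mk'_surjective (G3 P) s
  obtain ⟨u, hu, h⟩ := c2_mul_left x x' y
  have hu1 : (QuotientGroup.mk' (G3 P)) u = 1 := (QuotientGroup.eq_one_iff _).2 hu
  rw [← map_mul, ← mk_com, ← mk_com, ← mk_com, h, map_mul, map_mul, hu1, one_mul]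

theorem r_inv (r s : P ⧸ G3 P) : (r * s * r⁻¹ * s⁻¹)⁻¹ = s * r * s⁻¹ * r⁻¹ := by group

/-- `[r, s s'] = [r, s] [r, s']` in `R` -/
theorem r_mul_right (r s s' : P ⧸ G3 P) :
    r * (s * s') * r⁻¹ * (s * s')⁻¹ = (r * s * r⁻¹ * s⁻¹) * (r * s' * r⁻¹ * s'⁻¹) := by
  have h : (s * s' * r * (s * s')⁻¹ * r⁻¹)⁻¹ =
      ((s * r * s⁻¹ * r⁻¹) * (s' * r * s'⁻¹ * r⁻¹))⁻¹ := by rw [r_mul_left]
  rw [mul_inv_rev (s * r * s⁻¹ * r⁻¹), r_inv (s * s') r, r_inv s r, r_inv s' r] at h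
  rw [h]
  obtain ⟨x, rfl⟩ := QuotientGroup.mk'_surjective (G3 P) r
  obtain ⟨y, rfl⟩ := QuotientGroup.mk'_surjective (G3 P) s
  rw [← mk_com x y, ← r_cen _ (com_G2 x y)]

theorem r_congr (r r' s s' : P ⧸ G3 P) (v v' : P) (hv : v ∈ G2 P) (hv' : v' ∈ G2 P)
    (h : r = (QuotientGroup.mk' (G3 P)) v * r') (h' : s = (QuotientGroup.mk' (G3 P)) v' * s') :
    r * s * r⁻¹ * s⁻¹ = r' * s' * r'⁻¹ * s'⁻¹ := by
  have c1 : ∀ t, (QuotientGroup.mk' (G3 P)) v * t * ((QuotientGroup.mk' (G3 P)) v)⁻¹ * t⁻¹ = 1 := by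
    intro t
    rw [r_cen v hv t, mul_inv_cancel_right, mul_inv_cancel]
  have c2 : ∀ t, t * (QuotientGroup.mk' (G3 P)) v' * t⁻¹ * ((QuotientGroup.mk' (G3 P)) v')⁻¹ =
      1 := by
    intro t
    rw [← r_cen v' hv' t, mul_inv_cancel_right, mul_inv_cancel]
  rw [h, h', r_mul_left, c1, one_mul, r_mul_right, c2, one_mul]

/-- powers -/
theorem r_pow_left (r s : P ⧸ G3 P) (n : ℕ) :
    r ^ n * s * (r ^ n)⁻¹ * s⁻¹ = (r * s * r⁻¹ * s⁻¹) ^ n := by
  induction n with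
  | zero => simp
  | succ n ih => rw [pow_succ, r_mul_left, ih, pow_succ]

section gen

variable {p : ℕ} {N : ℕ} (g : Fin N → P) (pow : ∀ i, g i ^ p = 1)
  (gen : ∀ H : Subgroup P, (∀ i x, IsConj x (g i) → x ∈ H) → H = ⊤)

include pow gen

/-- `P^p ⊆ G2` -/
theorem p_pow (x : P) : x ^ p ∈ G2 P := by
  have hc : ∀ u v : P ⧸ G2 P, u * v = v * u := by
    intro u v
    obtain ⟨a, rfl⟩ := QuotientGroup.mk'_surjective (G2 P) u
    obtain ⟨b, rfl⟩ := QuotientGroup.mk'_surjective (G2 P) v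
    have h1 : (QuotientGroup.mk' (G2 P)) (a * b * a⁻¹ * b⁻¹) = 1 :=
      (QuotientGroup.eq_one_iff _).2 (com_G2 a b)
    rw [map_mul, map_mul, map_mul, map_inv, map_inv, mul_inv_eq_one, mul_inv_eq_iff_eq_mul] at h1
    exact h1
  let H : Subgroup P :=
    { carrier := {x | (QuotientGroup.mk' (G2 P)) x ^ p = 1}
      mul_mem' := by
        intro a b ha hb
        change (QuotientGroup.mk' (G2 P)) (a * b) ^ p = 1
        rw [map_mul, (show Commute _ _ from hc _ _).mul_pow, ha, hb, one_mul]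
      one_mem' := by
        change (QuotientGroup.mk' (G2 P)) 1 ^ p = 1
        rw [map_one, one_pow]
      inv_mem' := by
        intro a ha
        change (QuotientGroup.mk' (G2 P)) a⁻¹ ^ p = 1
        rw [map_inv, inv_pow, ha, inv_one] }
  have hH := gen H (by
    intro i y hy
    have h1 := hy.pow p
    rw [pow i] at h1
    have h2 : y ^ p = 1 := isConj_one_left.1 h1
    change (QuotientGroup.mk' (G2 P)) y ^ p = 1
    rw [← map_pow, h2, map_one])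
  have h1 : x ∈ H := by
    rw [hH]
    exact Subgroup.mem_top x
  have h2 : (QuotientGroup.mk' (G2 P)) x ^ p = 1 := h1
  rw [← map_pow] at h2
  exact (QuotientGroup.eq_one_iff _).1 h2

/-- `G2^p ⊆ G3` -/
theorem g2_pow (x : P) (hx : x ∈ G2 P) : x ^ p ∈ G3 P := by
  refine G2_ind (fun x => x ^ p ∈ G3 P) ?_ ?_ ?_ ?_ x hx
  · rw [one_pow]
    exact one_mem _
  · intro a b
    apply (QuotientGroup.eq_one_iff _).1
    change (QuotientGroup.mk' (G3 P)) ((a * b * a⁻¹ * b⁻¹) ^ p) = 1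
    rw [map_pow, mk_com, ← r_pow_left, ← map_pow, r_cen _ (p_pow g pow gen a),
      mul_inv_cancel_right, mul_inv_cancel]
  · intro a b ha hb h1 h2
    apply (QuotientGroup.eq_one_iff _).1
    change (QuotientGroup.mk' (G3 P)) ((a * b) ^ p) = 1
    have h3 : (QuotientGroup.mk' (G3 P)) (a ^ p) = 1 := (QuotientGroup.eq_one_iff _).2 h1
    have h4 : (QuotientGroup.mk' (G3 P)) (b ^ p) = 1 := (QuotientGroup.eq_one_iff _).2 h2
    rw [map_pow, map_mul, (show Commute _ _ from r_cen a ha _).mul_pow, ← map_pow, ← map_pow,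
      h3, h4, one_mul]
  · intro a _ h1
    rw [inv_pow]
    exact (G3 P).inv_mem h1

/-- `G3^p = 1` -/
theorem g3_pow (h4 : ∀ u ∈ G3 P, ∀ x : P, u * x = x * u) (x : P) (hx : x ∈ G3 P) :
    x ^ p = 1 := by
  refine G3_ind (fun x => x ^ p = 1) ?_ ?_ ?_ ?_ x hx
  · exact one_pow _
  · intro a b ha
    rw [← c3_pow_right h4 a b ha, c3_G2 h4 a _ ha (p_pow g pow gen b)]
  · intro a b ha _ h1 h2
    rw [(show Commute a b from h4 a ha b).mul_pow, h1, h2, one_mul]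
  · intro a _ h1
    rw [inv_pow, h1, inv_one]

end gen

end H77.PC3
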