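import Pool.Agent.H77.PC3.PGa

/-!
# H77-PC3-PGB: existence of the coordinates `GP`
-/

set_option autoImplicit false

open scoped Classical

noncomputable section

namespace H77.PC3

open H77.AB H77.GN H57.PC

theorem exists_gp {p : ℕ} (hp : p.Prime) {P : Type} [Group P] [Finite P] {N : ℕ} (g : Fin N → P)
    (pow : ∀ i, g i ^ p = 1) (ne : ∀ i, g i ≠ 1) (uni : ∀ i j, IsConj (g i) (g j) → i = j)
    (gen : ∀ H : Subgroup P, (∀ i x, IsConj x (g i) → x ∈ H) → H = ⊤)
    (h4 : ∀ u ∈ G3 P, ∀ x : P, u * x = x * u) :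
    ∃ (m l w : ℕ) (Dg : GP p m l w N P (P ⧸ G3 P)), Dg.g = g := by
  obtain ⟨m, c₁, a1, a2, a3⟩ := qcrd hp (⊤ : Subgroup P) (G2 P) le_top
    (fun a _ b _ => com_G2 a b) (fun a _ => p_pow g pow gen a)
  obtain ⟨l, c₂, b1, b2, b3⟩ := qcrd hp (G2 P) (G3 P) G3_le
    (fun a ha b _ => com_G3 a b ha) (fun a ha => g2_pow g pow gen a ha)
  obtain ⟨w, c₃, d1, d2, d3⟩ := qcrd hp (G3 P) (⊥ : Subgroup P) bot_le
    (fun a ha b _ => by
      rw [Subgroup.mem_bot, h4 a ha b, mul_inv_cancel_right, mul_inv_cancel])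
    (fun a ha => by
      rw [Subgroup.mem_bot]
      exact g3_pow g pow gen h4 a ha)
  obtain ⟨q, hq⟩ : ∃ q : P →* P ⧸ G3 P, q = QuotientGroup.mk' (G3 P) := ⟨_, rfl⟩
  have hqs : Function.Surjective q := by
    rw [hq]
    exact QuotientGroup.mk'_surjective _
  have hq1 : ∀ x, q x = 1 ↔ x ∈ G3 P := by
    intro x
    rw [hq]
    exact QuotientGroup.eq_one_iff x
  have hqe : ∀ x y, q x = q y → x * y⁻¹ ∈ G3 P := by
    intro x y h
    rw [← hq1, map_mul, map_inv, h, mul_inv_cancel]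
  let π₀ : P →* Multiplicative (Fin m → ZMod p) := MonoidHom.mk'
    (fun x => Multiplicative.ofAdd (c₁ x)) fun a b => by
      rw [a1 a (Subgroup.mem_top _) b (Subgroup.mem_top _), ofAdd_add]
  have hπ₀ : ∀ x, π₀ x = 1 ↔ x ∈ G2 P := by
    intro x
    rw [← a2 x (Subgroup.mem_top _)]
    exact ofAdd_eq_one
  let π : P ⧸ G3 P →* Multiplicative (Fin m → ZMod p) := QuotientGroup.lift (G3 P) π₀
    fun x hx => (hπ₀ x).2 (G3_le hx)
  have hπq : ∀ x, π (q x) = π₀ x := by
    intro x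
    rw [hq]
    rfl
  have hπ : ∀ x, π (q x) = 1 ↔ x ∈ G2 P := fun x => by rw [hπq, hπ₀]
  have πs : Function.Surjective π := by
    intro y
    obtain ⟨x, -, hx⟩ := a3 (Multiplicative.toAdd y)
    refine ⟨q x, ?_⟩
    rw [hπq]
    change Multiplicative.ofAdd (c₁ x) = y
    rw [hx, ofAdd_toAdd]
  have hrep : ∀ v, π v = 1 → ∃ x ∈ G2 P, q x = v := by
    intro v hv
    obtain ⟨x, rfl⟩ := hqs v
    exact ⟨x, (hπ x).1 hv, rfl⟩
  -- the coordinates of `V`
  have b0 : c₂ 1 = 0 := (b2 1 (one_mem _)).2 (one_mem _)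
  have bi : ∀ a ∈ G2 P, c₂ a⁻¹ = -c₂ a := by
    intro a ha
    have h := b1 a⁻¹ ((G2 P).inv_mem ha) a ha
    rw [inv_mul_cancel, b0] at h
    exact eq_neg_of_add_eq_zero_left h.symm
  have bc : ∀ a ∈ G2 P, ∀ b ∈ G2 P, q a = q b → c₂ a = c₂ b := by
    intro a ha b hb h
    have h1 := b1 (a * b⁻¹) ((G2 P).mul_mem ha ((G2 P).inv_mem hb)) b hb
    rw [inv_mul_cancel_right, (b2 (a * b⁻¹) (G3_le (hqe a b h))).2 (hqe a b h), zero_add] at h1
    exact h1
  let cv : Fin l → P ⧸ G3 P → ZMod p := fun k r => c₂ (Function.surjInv hqs r) k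
  have hcv : ∀ x ∈ G2 P, ∀ k, cv k (q x) = c₂ x k := by
    intro x hx k
    have h1 : q (Function.surjInv hqs (q x)) = q x := Function.surjInv_eq hqs _
    have h2 : Function.surjInv hqs (q x) ∈ G2 P := by
      rw [← hπ, h1, hπ]
      exact hx
    exact congrFun (bc _ h2 x hx h1) k
  have vadd : ∀ k u v, π u = 1 → π v = 1 → cv k (u * v) = cv k u + cv k v := by
    intro k u v hu hv
    obtain ⟨x, hx, rfl⟩ := hrep u hu
    obtain ⟨y, hy, rfl⟩ := hrep v hv
    rw [← map_mul, hcv _ ((G2 P).mul_mem hx hy), hcv x hx, hcv y hy, b1 x hx y hy, Pi.add_apply]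
  have hcomπ : ∀ r s, π (r * s * r⁻¹ * s⁻¹) = 1 := by
    intro r s
    rw [map_mul, map_mul, map_mul, map_inv, map_inv, mul_comm (π r) (π s), mul_inv_cancel_right,
      mul_inv_cancel]
  have hπd : ∀ r r', π r = π r' → ∃ v ∈ G2 P, r = (QuotientGroup.mk' (G3 P)) v * r' := by
    intro r r' h
    obtain ⟨v, hv, hv'⟩ := hrep (r * r'⁻¹) (by rw [map_mul, map_inv, h, mul_inv_cancel])
    refine ⟨v, hv, ?_⟩
    rw [← hq, hv', inv_mul_cancel_right]
  have hsur : Function.Surjective fun r => Multiplicative.toAdd (π r) := fun y => by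
    obtain ⟨r, hr⟩ := πs (Multiplicative.ofAdd y)
    exact ⟨r, by
      change Multiplicative.toAdd (π r) = y
      rw [hr, toAdd_ofAdd]⟩
  obtain ⟨kV, hkV⟩ := bil_mk (fun r => Multiplicative.toAdd (π r)) hsur
    (fun r => Multiplicative.toAdd (π r)) hsur (fun r s k => cv k (r * s * r⁻¹ * s⁻¹))
    (by
      intro r r' s h
      obtain ⟨v, hv, h1⟩ := hπd r r' (Multiplicative.toAdd.injective h)
      funext k
      rw [r_congr r r' s s v 1 hv (one_mem _) h1 (by rw [map_one, one_mul])])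
    (by
      intro r s s' h
      obtain ⟨v, hv, h1⟩ := hπd s s' (Multiplicative.toAdd.injective h)
      funext k
      rw [r_congr r r s s' 1 v (one_mem _) hv (by rw [map_one, one_mul]) h1])
    (by
      intro r r'
      refine ⟨r * r', by rw [map_mul, toAdd_mul], fun s => ?_⟩
      funext k
      rw [r_mul_left, vadd k _ _ (hcomπ _ _) (hcomπ _ _)]
      rfl)
    (by
      intro s s'
      refine ⟨s * s', by rw [map_mul, toAdd_mul], fun r => ?_⟩
      funext k
      rw [r_mul_right, vadd k _ _ (hcomπ _ _) (hcomπ _ _)]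
      rfl)
  -- the form `β`
  have d0 : c₃ 1 = 0 := (d2 1 (one_mem _)).2 (one_mem _)
  have di : ∀ a ∈ G3 P, c₃ a⁻¹ = -c₃ a := by
    intro a ha
    have h := d1 a⁻¹ ((G3 P).inv_mem ha) a ha
    rw [inv_mul_cancel, d0] at h
    exact eq_neg_of_add_eq_zero_left h.symm
  obtain ⟨β, hβ⟩ := bil_mk (fun x : {x : P // x ∈ G2 P} => c₂ x.1)
    (fun y => by
      obtain ⟨x, hx, h⟩ := b3 y
      exact ⟨⟨x, hx⟩, h⟩)
    (fun y : P => Multiplicative.toAdd (π (q y)))
    (fun y => by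
      obtain ⟨r, hr⟩ := hsur y
      obtain ⟨x, rfl⟩ := hqs r
      exact ⟨x, hr⟩)
    (fun x y k => c₃ (x.1 * y * x.1⁻¹ * y⁻¹) k)
    (by
      intro x x' y h
      have h1 := b1 (x.1 * x'.1⁻¹) ((G2 P).mul_mem x.2 ((G2 P).inv_mem x'.2)) x'.1 x'.2
      rw [inv_mul_cancel_right] at h1
      have h2 : c₂ (x.1 * x'.1⁻¹) = 0 := by
        have h3 : c₂ x.1 = c₂ x'.1 := h
        rw [h3] at h1
        exact right_eq_add.1 h1
      have h3 := (b2 _ ((G2 P).mul_mem x.2 ((G2 P).inv_mem x'.2))).1 h2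
      funext k
      rw [c3_congr_left h4 x.1 x'.1 y x'.2 h3])
    (by
      intro x y y' h
      have h1 : π (q y) = π (q y') := Multiplicative.toAdd.injective h
      have h2 : y * y'⁻¹ ∈ G2 P := by
        rw [← hπ, map_mul, map_inv, map_mul, map_inv, h1, mul_inv_cancel]
      funext k
      rw [c3_congr_right h4 x.1 y y' x.2 h2])
    (by
      intro x x'
      refine ⟨⟨x.1 * x'.1, (G2 P).mul_mem x.2 x'.2⟩, b1 _ x.2 _ x'.2, fun y => ?_⟩
      funext k
      change c₃ (x.1 * x'.1 * y * (x.1 * x'.1)⁻¹ * y⁻¹) k = _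
      rw [c3_mul_left h4 x.1 x'.1 y x'.2, d1 _ (com_G3 _ _ x.2) _ (com_G3 _ _ x'.2)])
    (by
      intro y y'
      refine ⟨y * y', by rw [map_mul, map_mul, toAdd_mul], fun x => ?_⟩
      funext k
      rw [c3_mul_right h4 x.1 y y' x.2, d1 _ (com_G3 _ _ x.2) _ (com_G3 _ _ x.2)])
  refine ⟨m, l, w, {
    q := q
    qs := hqs
    π := π
    πs := πs
    vcen := fun v hv r => by
      obtain ⟨x, hx, rfl⟩ := hrep v hv
      rw [hq]
      exact r_cen x hx r
    cv := cv
    vadd := vadd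
    vinj := fun v hv h => by
      obtain ⟨x, hx, rfl⟩ := hrep v hv
      rw [hq1]
      refine (b2 x hx).1 (funext fun k => ?_)
      rw [← hcv x hx k, h k]
      rfl
    vsur := fun y => by
      obtain ⟨x, hx, h⟩ := b3 y
      refine ⟨q x, (hπ x).2 hx, fun k => ?_⟩
      rw [hcv x hx k, h]
    wcen := fun u hu x => h4 u ((hq1 u).1 hu) x
    cw := fun k u => c₃ u k
    wadd := fun k u v hu hv => by
      rw [d1 u ((hq1 u).1 hu) v ((hq1 v).1 hv), Pi.add_apply]
    winj := fun u hu h => by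
      have h1 := (d2 u ((hq1 u).1 hu)).1 (funext fun k => h k)
      exact Subgroup.mem_bot.1 h1
    wsur := fun y => by
      obtain ⟨u, hu, h⟩ := d3 y
      exact ⟨u, (hq1 u).2 hu, fun k => by rw [h]⟩
    kV := kV
    hk := fun r r' k => (congrFun (hkV r r') k).symm
    β := β
    hβ := fun x y k hx => by
      have hx' : x ∈ G2 P := (hπ x).1 hx
      have h1 := congrFun (hβ ⟨x, hx'⟩ y) k
      have h2 : (fun j => cv j (q x)) = c₂ x := funext fun j => hcv x hx' j
      rw [h2]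
      exact h1.symm
    kspan := by
      rw [eq_top_iff]
      rintro y -
      obtain ⟨x, hx, rfl⟩ := b3 y
      refine G2_ind (fun x => c₂ x ∈ Submodule.span (ZMod p) {v | ∃ x y, v = kV x y})
        ?_ ?_ ?_ ?_ x hx
      · rw [b0]
        exact zero_mem _
      · intro a b
        refine Submodule.subset_span ⟨Multiplicative.toAdd (π (q a)),
          Multiplicative.toAdd (π (q b)), ?_⟩
        rw [hkV (q a) (q b)]
        funext k
        have e : q a * q b * (q a)⁻¹ * (q b)⁻¹ = q (a * b * a⁻¹ * b⁻¹) := by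
          rw [map_mul, map_mul, map_mul, map_inv, map_inv]
        rw [e, hcv _ (com_G2 a b)]
      · intro a b ha hb h1 h2
        rw [b1 a ha b hb]
        exact Submodule.add_mem _ h1 h2
      · intro a ha h1
        rw [bi a ha]
        exact Submodule.neg_mem _ h1
    βspan := by
      rw [eq_top_iff]
      rintro y -
      obtain ⟨x, hx, rfl⟩ := d3 y
      refine G3_ind (fun x => c₃ x ∈ Submodule.span (ZMod p) {u | ∃ v x, u = β v x})
        ?_ ?_ ?_ ?_ x hx
      · rw [d0]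
        exact zero_mem _
      · intro a b ha
        exact Submodule.subset_span ⟨c₂ a, Multiplicative.toAdd (π (q b)),
          (hβ ⟨a, ha⟩ b).symm⟩
      · intro a b ha hb h1 h2
        rw [d1 a ha b hb]
        exact Submodule.add_mem _ h1 h2
      · intro a ha h1
        rw [di a ha]
        exact Submodule.neg_mem _ h1
    g := g
    pow := pow
    ne := ne
    uni := uni
    gen := gen }, rfl⟩

end H77.PC3
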